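import Mathlib

/-!
# The Cantor set, its clopen sets and swaps of cylinders
-/

set_option autoImplicit false

namespace Pool.Agent.Lib.MP_5ed4ef_gt

/-- Points of the Cantor set. -/
abbrev Pt : Type := ℕ → Bool

/-- Membership in `u` depends only on the coordinates below `L`. -/
def Dep (L : ℕ) (u : Set Pt) : Prop := ∀ x y : Pt, (∀ i < L, x i = y i) → x ∈ u → y ∈ u

/-- Clopen sets. -/
def IsClp (u : Set Pt) : Prop := ∃ L, Dep L u

theorem Dep.iff {L : ℕ} {u : Set Pt} (h : Dep L u) {x y : Pt} (hxy : ∀ i < L, x i = y i) :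
    x ∈ u ↔ y ∈ u :=
  ⟨h x y hxy, h y x fun i hi => (hxy i hi).symm⟩

theorem Dep.mono {L L' : ℕ} {u : Set Pt} (h : Dep L u) (hL : L ≤ L') : Dep L' u :=
  fun x y hxy => h x y fun i hi => hxy i (lt_of_lt_of_le hi hL)

theorem isClp_univ : IsClp Set.univ := ⟨0, fun _ _ _ _ => trivial⟩

theorem isClp_empty : IsClp ∅ := ⟨0, fun _ _ _ h => h.elim⟩

theorem Dep.inter {L : ℕ} {u v : Set Pt} (hu : Dep L u) (hv : Dep L v) : Dep L (u ∩ v) :=
  fun x y hxy h => ⟨hu x y hxy h.1, hv x y hxy h.2⟩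

theorem Dep.union {L : ℕ} {u v : Set Pt} (hu : Dep L u) (hv : Dep L v) : Dep L (u ∪ v) :=
  fun x y hxy h => h.elim (fun h => Or.inl (hu x y hxy h)) (fun h => Or.inr (hv x y hxy h))

theorem Dep.compl {L : ℕ} {u : Set Pt} (hu : Dep L u) : Dep L uᶜ :=
  fun x y hxy h hy => h (hu y x (fun i hi => (hxy i hi).symm) hy)

theorem IsClp.inter {u v : Set Pt} (hu : IsClp u) (hv : IsClp v) : IsClp (u ∩ v) := by
  obtain ⟨L, hL⟩ := hu
  obtain ⟨L', hL'⟩ := hv
  exact ⟨max L L', (hL.mono (le_max_left _ _)).inter (hL'.mono (le_max_right _ _))⟩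

theorem IsClp.union {u v : Set Pt} (hu : IsClp u) (hv : IsClp v) : IsClp (u ∪ v) := by
  obtain ⟨L, hL⟩ := hu
  obtain ⟨L', hL'⟩ := hv
  exact ⟨max L L', (hL.mono (le_max_left _ _)).union (hL'.mono (le_max_right _ _))⟩

theorem IsClp.compl {u : Set Pt} (hu : IsClp u) : IsClp uᶜ := by
  obtain ⟨L, hL⟩ := hu
  exact ⟨L, hL.compl⟩

/-- Cylinders. -/
def cyl (L : ℕ) (x : Pt) : Set Pt := {y | ∀ i < L, y i = x i}

theorem mem_cyl {L : ℕ} {x y : Pt} : y ∈ cyl L x ↔ ∀ i < L, y i = x i := Iff.rfl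

theorem self_mem_cyl (L : ℕ) (x : Pt) : x ∈ cyl L x := fun _ _ => rfl

theorem dep_cyl (L : ℕ) (x : Pt) : Dep L (cyl L x) :=
  fun _ _ hyz hy i hi => (hyz i hi).symm.trans (hy i hi)

theorem isClp_cyl (L : ℕ) (x : Pt) : IsClp (cyl L x) := ⟨L, dep_cyl L x⟩

theorem cyl_subset {L : ℕ} {u : Set Pt} (hu : Dep L u) {x : Pt} (hx : x ∈ u) : cyl L x ⊆ u :=
  fun y hy => hu x y (fun i hi => (hy i hi).symm) hx

/-- The closed nowhere dense set. -/
def Z0 : Set Pt := {x | ∀ i, x (2 * i) = false}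

/-- The points have the same type. -/
def SameT (x y : Pt) : Prop := x ∈ Z0 ↔ y ∈ Z0

/-- The set of admissible values of the `k`-th generic point. -/
def Tk (k : ℕ) : Set Pt := {x | x ∈ Z0 ↔ k % 2 = 0}

theorem sameT_of_Tk {k : ℕ} {x y : Pt} (hx : x ∈ Tk k) (hy : y ∈ Tk k) : SameT x y := by
  have h1 : x ∈ Z0 ↔ k % 2 = 0 := hx
  have h2 : y ∈ Z0 ↔ k % 2 = 0 := hy
  exact h1.trans h2.symm

theorem Tk_of_sameT {k : ℕ} {x y : Pt} (hx : x ∈ Tk k) (h : SameT x y) : y ∈ Tk k := by
  have h1 : x ∈ Z0 ↔ k % 2 = 0 := hx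
  exact h.symm.trans h1

/-- Every clopen set contains infinitely many points of the type of a given one of its points. -/
theorem infinite_type {u : Set Pt} (hu : IsClp u) {x : Pt} (hx : x ∈ u) :
    {y | y ∈ u ∧ SameT x y}.Infinite := by
  classical
  obtain ⟨L, hL⟩ := hu
  let f : ℕ → Pt := fun n => Function.update x (2 * (n + L) + 1) (!x (2 * (n + L) + 1))
  have hf : Function.Injective f := by
    intro n m hnm
    by_contra hne
    have h1 : f n (2 * (n + L) + 1) = f m (2 * (n + L) + 1) := by rw [hnm]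
    simp only [f] at h1
    rw [Function.update_self, Function.update_of_ne (by omega)] at h1
    simp at h1
  refine (Set.infinite_range_of_injective hf).mono ?_
  rintro _ ⟨n, rfl⟩
  refine ⟨hL x _ (fun i hi => ?_) hx, ?_⟩
  · simp only [f]
    rw [Function.update_of_ne (by omega)]
  · unfold SameT Z0
    simp only [Set.mem_ofPred_eq, f]
    constructor
    · intro h i
      rw [Function.update_of_ne (by omega)]
      exact h i
    · intro h i
      have := h i
      rwa [Function.update_of_ne (by omega)] at this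

theorem infinite_Tk {u : Set Pt} (hu : IsClp u) {k : ℕ} (h : (u ∩ Tk k).Nonempty) :
    (u ∩ Tk k).Infinite := by
  obtain ⟨x, hx, hxk⟩ := h
  refine (infinite_type hu hx).mono ?_
  rintro y ⟨hy, hxy⟩
  exact ⟨hy, Tk_of_sameT hxk hxy⟩

/-- Every nonempty clopen set contains points outside `Z0`. -/
theorem exists_notMem_Z0 {u : Set Pt} (hu : IsClp u) {x : Pt} (hx : x ∈ u) :
    ∃ y ∈ u, y ∉ Z0 := by
  classical
  obtain ⟨L, hL⟩ := hu
  refine ⟨Function.update x (2 * L) true, hL x _ (fun i hi => ?_) hx, ?_⟩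
  · rw [Function.update_of_ne (by omega)]
  · intro h
    have h1 := h L
    rw [Function.update_self] at h1
    exact absurd h1 (by simp)

theorem exists_distinct (F : Finset ℕ) (W : ℕ → Set Pt) (hW : ∀ k ∈ F, (W k).Infinite)
    (A : Finset Pt) : ∃ x : ℕ → Pt, (∀ k ∈ F, x k ∈ W k ∧ x k ∉ A) ∧
      ∀ k ∈ F, ∀ j ∈ F, x k = x j → k = j := by
  classical
  induction F using Finset.induction_on with
  | empty => exact ⟨fun _ _ => false, by simp, by simp⟩
  | insert a F ha ih =>
    obtain ⟨x, hx1, hx2⟩ := ih fun k hk => hW k (Finset.mem_insert_of_mem hk)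
    obtain ⟨y, hy, hyF⟩ := (hW a (Finset.mem_insert_self _ _)).exists_notMem_finset
      (A ∪ F.image x)
    rw [Finset.mem_union, not_or] at hyF
    have hne : ∀ k ∈ F, k ≠ a := fun k hk h => ha (h ▸ hk)
    refine ⟨Function.update x a y, ?_, ?_⟩
    · intro k hk
      rcases Finset.mem_insert.mp hk with hk | hk
      · rw [hk, Function.update_self]
        exact ⟨hy, hyF.1⟩
      · rw [Function.update_of_ne (hne k hk)]
        exact hx1 k hk
    · intro k hk j hj hkj
      rcases Finset.mem_insert.mp hk with hk | hk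
      · rcases Finset.mem_insert.mp hj with hj | hj
        · rw [hk, hj]
        · exfalso
          rw [hk, Function.update_self, Function.update_of_ne (hne j hj)] at hkj
          exact hyF.2 (Finset.mem_image.mpr ⟨j, hj, hkj.symm⟩)
      · rcases Finset.mem_insert.mp hj with hj | hj
        · exfalso
          rw [hj, Function.update_self, Function.update_of_ne (hne k hk)] at hkj
          exact hyF.2 (Finset.mem_image.mpr ⟨k, hk, hkj⟩)
        · rw [Function.update_of_ne (hne k hk), Function.update_of_ne (hne j hj)] at hkj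
          exact hx2 k hk j hj hkj

/-- The type of `x` is visible below `L`. -/
def Vis (L : ℕ) (x : Pt) : Prop := x ∈ Z0 ∨ ∃ i, 2 * i < L ∧ x (2 * i) = true

theorem exists_level (Q : Finset Pt) (U : Finset (Set Pt)) (hU : ∀ u ∈ U, IsClp u) (L0 : ℕ) :
    ∃ L, L0 ≤ L ∧ (∀ x ∈ Q, ∀ y ∈ Q, x ≠ y → ∃ i < L, x i ≠ y i) ∧ (∀ x ∈ Q, Vis L x) ∧
      ∀ u ∈ U, Dep L u := by
  classical
  have h1 : ∀ x y : Pt, ∃ n, x ≠ y → ∃ i < n, x i ≠ y i := by
    intro x y
    by_cases h : x = y
    · exact ⟨0, fun h2 => absurd h h2⟩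
    · obtain ⟨i, hi⟩ := Function.ne_iff.mp h
      exact ⟨i + 1, fun _ => ⟨i, Nat.lt_succ_self i, hi⟩⟩
  choose f hf using h1
  have h2 : ∀ x : Pt, ∃ n, Vis n x := by
    intro x
    by_cases h : x ∈ Z0
    · exact ⟨0, Or.inl h⟩
    · unfold Z0 at h
      simp only [Set.mem_ofPred_eq, not_forall] at h
      obtain ⟨i, hi⟩ := h
      exact ⟨2 * i + 1, Or.inr ⟨i, Nat.lt_succ_self _, by simpa using hi⟩⟩
  choose g hg using h2
  have h3 : ∀ u : Set Pt, ∃ n, u ∈ U → Dep n u := by
    intro u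
    by_cases h : u ∈ U
    · obtain ⟨n, hn⟩ := hU u h
      exact ⟨n, fun _ => hn⟩
    · exact ⟨0, fun h2 => absurd h2 h⟩
  choose k hk using h3
  refine ⟨L0 + ∑ x ∈ Q, ∑ y ∈ Q, f x y + ∑ x ∈ Q, g x + ∑ u ∈ U, k u, by omega, ?_, ?_, ?_⟩
  · intro x hx y hy hxy
    obtain ⟨i, hi, hne⟩ := hf x y hxy
    refine ⟨i, ?_, hne⟩
    have e1 : f x y ≤ ∑ y ∈ Q, f x y :=
      Finset.single_le_sum (f := fun y => f x y) (fun _ _ => Nat.zero_le _) hy
    have e2 : (∑ y ∈ Q, f x y) ≤ ∑ x ∈ Q, ∑ y ∈ Q, f x y :=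
      Finset.single_le_sum (f := fun x => ∑ y ∈ Q, f x y) (fun _ _ => Nat.zero_le _) hx
    omega
  · intro x hx
    have e1 : g x ≤ ∑ x ∈ Q, g x :=
      Finset.single_le_sum (f := fun x => g x) (fun _ _ => Nat.zero_le _) hx
    rcases hg x with h | ⟨i, hi, h⟩
    · exact Or.inl h
    · exact Or.inr ⟨i, by omega, h⟩
  · intro u hu
    have e1 : k u ≤ ∑ u ∈ U, k u :=
      Finset.single_le_sum (f := fun u => k u) (fun _ _ => Nat.zero_le _) hu
    exact (hk u hu).mono (by omega)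

/-! ### Swaps -/

open Classical in
/-- The map exchanging the cylinders of `a` and `b` of length `L`. -/
noncomputable def sw (L : ℕ) (a b y : Pt) : Pt := fun i =>
  if i < L then (if y ∈ cyl L a then b i else if y ∈ cyl L b then a i else y i) else y i

theorem sw_left {L : ℕ} {a b y : Pt} (h : y ∈ cyl L a) {i : ℕ} (hi : i < L) :
    sw L a b y i = b i := by
  simp only [sw]
  rw [if_pos hi, if_pos h]

theorem sw_right {L : ℕ} {a b y : Pt} (h : y ∈ cyl L b) {i : ℕ} (hi : i < L) :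
    sw L a b y i = a i := by
  simp only [sw]
  rw [if_pos hi]
  by_cases h2 : y ∈ cyl L a
  · rw [if_pos h2, ← h i hi, h2 i hi]
  · rw [if_neg h2, if_pos h]

theorem sw_other {L : ℕ} {a b y : Pt} (h1 : y ∉ cyl L a) (h2 : y ∉ cyl L b) :
    sw L a b y = y := by
  funext i
  simp only [sw]
  rw [if_neg h1, if_neg h2, ite_self]

theorem sw_ge {L : ℕ} {a b y : Pt} {i : ℕ} (hi : L ≤ i) : sw L a b y i = y i := by
  simp only [sw]
  rw [if_neg (not_lt.mpr hi)]

theorem sw_mem_right {L : ℕ} {a b y : Pt} (h : y ∈ cyl L a) : sw L a b y ∈ cyl L b :=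
  fun _ hi => sw_left h hi

theorem sw_mem_left {L : ℕ} {a b y : Pt} (h : y ∈ cyl L b) : sw L a b y ∈ cyl L a :=
  fun _ hi => sw_right h hi

theorem sw_sw (L : ℕ) (a b y : Pt) : sw L a b (sw L a b y) = y := by
  by_cases h1 : y ∈ cyl L a
  · funext i
    by_cases hi : i < L
    · rw [sw_right (sw_mem_right h1) hi, h1 i hi]
    · rw [sw_ge (not_lt.mp hi), sw_ge (not_lt.mp hi)]
  · by_cases h2 : y ∈ cyl L b
    · funext i
      by_cases hi : i < L
      · rw [sw_left (sw_mem_left h2) hi, h2 i hi]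
      · rw [sw_ge (not_lt.mp hi), sw_ge (not_lt.mp hi)]
    · rw [sw_other h1 h2, sw_other h1 h2]

/-- The swap as a permutation. -/
noncomputable def swp (L : ℕ) (a b : Pt) : Equiv.Perm Pt :=
  Function.Involutive.toPerm (sw L a b) (sw_sw L a b)

theorem swp_apply (L : ℕ) (a b y : Pt) : swp L a b y = sw L a b y := rfl

theorem swp_symm (L : ℕ) (a b : Pt) : (swp L a b).symm = swp L a b := rfl

theorem mem_swp_image {L : ℕ} {a b y : Pt} {u : Set Pt} :
    y ∈ swp L a b '' u ↔ sw L a b y ∈ u := by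
  constructor
  · rintro ⟨x, hx, rfl⟩
    rw [swp_apply, sw_sw]
    exact hx
  · intro h
    exact ⟨sw L a b y, h, sw_sw L a b y⟩

theorem dep_swp {L L' : ℕ} (a b : Pt) {u : Set Pt} (hu : Dep L' u) :
    Dep (max L L') (swp L a b '' u) := by
  intro x y hxy hx
  rw [mem_swp_image] at hx ⊢
  refine hu _ _ (fun i hi => ?_) hx
  have hmem : ∀ c : Pt, x ∈ cyl L c ↔ y ∈ cyl L c := by
    intro c
    exact (dep_cyl L c).iff fun i hi => hxy i (lt_of_lt_of_le hi (le_max_left _ _))
  by_cases h1 : x ∈ cyl L a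
  · by_cases hiL : i < L
    · rw [sw_left h1 hiL, sw_left ((hmem a).mp h1) hiL]
    · rw [sw_ge (not_lt.mp hiL), sw_ge (not_lt.mp hiL)]
      exact hxy i (lt_of_lt_of_le hi (le_max_right _ _))
  · by_cases h2 : x ∈ cyl L b
    · by_cases hiL : i < L
      · rw [sw_right h2 hiL, sw_right ((hmem b).mp h2) hiL]
      · rw [sw_ge (not_lt.mp hiL), sw_ge (not_lt.mp hiL)]
        exact hxy i (lt_of_lt_of_le hi (le_max_right _ _))
    · rw [sw_other h1 h2, sw_other (fun h => h1 ((hmem a).mpr h)) (fun h => h2 ((hmem b).mpr h))]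
      exact hxy i (lt_of_lt_of_le hi (le_max_right _ _))

theorem isClp_swp (L : ℕ) (a b : Pt) {u : Set Pt} (hu : IsClp u) : IsClp (swp L a b '' u) := by
  obtain ⟨L', hL'⟩ := hu
  exact ⟨_, dep_swp a b hL'⟩

theorem sw_Z0 {L : ℕ} {a b : Pt} (hab : SameT a b) (ha : Vis L a) (hb : Vis L b) (x : Pt) :
    sw L a b x ∈ Z0 ↔ x ∈ Z0 := by
  have key : ∀ x : Pt, x ∈ Z0 → sw L a b x ∈ Z0 := by
    intro x hx i
    by_cases haZ : a ∈ Z0
    · have hbZ : b ∈ Z0 := hab.mp haZ
      by_cases hi : 2 * i < L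
      · by_cases h1 : x ∈ cyl L a
        · rw [sw_left h1 hi]
          exact hbZ i
        · by_cases h2 : x ∈ cyl L b
          · rw [sw_right h2 hi]
            exact haZ i
          · rw [sw_other h1 h2]
            exact hx i
      · rw [sw_ge (not_lt.mp hi)]
        exact hx i
    · have hbZ : b ∉ Z0 := fun h => haZ (hab.mpr h)
      obtain ⟨j, hj, hj2⟩ := ha.resolve_left haZ
      obtain ⟨j', hj', hj2'⟩ := hb.resolve_left hbZ
      have h1 : x ∉ cyl L a := by
        intro h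
        have := h _ hj
        rw [hx j, hj2] at this
        exact absurd this (by simp)
      have h2 : x ∉ cyl L b := by
        intro h
        have := h _ hj'
        rw [hx j', hj2'] at this
        exact absurd this (by simp)
      rw [sw_other h1 h2]
      exact hx i
  constructor
  · intro h
    have := key _ h
    rwa [sw_sw] at this
  · exact key x

theorem swp_image_eq {L : ℕ} {a b : Pt} {u : Set Pt} (hu : Dep L u) (hab : a ∈ u ↔ b ∈ u) :
    swp L a b '' u = u := by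
  have key : ∀ x, x ∈ u → sw L a b x ∈ u := by
    intro x hx
    by_cases h1 : x ∈ cyl L a
    · have ha : a ∈ u := hu x a h1 hx
      exact hu b _ (fun i hi => (sw_left h1 hi).symm) (hab.mp ha)
    · by_cases h2 : x ∈ cyl L b
      · have hb : b ∈ u := hu x b h2 hx
        exact hu a _ (fun i hi => (sw_right h2 hi).symm) (hab.mpr hb)
      · rw [sw_other h1 h2]
        exact hx
  ext x
  rw [mem_swp_image]
  constructor
  · intro h
    have := key _ h
    rwa [sw_sw] at this
  · exact key x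

theorem disjoint_cyl {L : ℕ} {x y z : Pt} (h : ∃ i < L, x i ≠ y i) (hz : z ∈ cyl L x) :
    z ∉ cyl L y := by
  intro h2
  obtain ⟨i, hi, hne⟩ := h
  exact hne ((hz i hi).symm.trans (h2 i hi))

/-- The swap fixes cylinders different from the two exchanged ones. -/
theorem swp_cyl_other {L : ℕ} {a b x : Pt} (ha : ∃ i < L, x i ≠ a i) (hb : ∃ i < L, x i ≠ b i) :
    swp L a b '' cyl L x = cyl L x := by
  apply swp_image_eq (dep_cyl L x)
  constructor
  · intro h
    exact absurd (self_mem_cyl L a) (fun _ => disjoint_cyl ha h (self_mem_cyl L a))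
  · intro h
    exact absurd (self_mem_cyl L b) (fun _ => disjoint_cyl hb h (self_mem_cyl L b))

theorem cyl_subset_swp {L : ℕ} {a b : Pt} {u : Set Pt} (hu : Dep L u) (ha : a ∈ u) :
    cyl L b ⊆ swp L a b '' u := by
  intro y hy
  rw [mem_swp_image]
  exact hu a _ (fun i hi => (sw_right hy hi).symm) ha

end Pool.Agent.Lib.MP_5ed4ef_gt
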