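import Pool.Agent.Lib.MP_5ed4ef_gt.Cantor
import Pool.Agent.Lib.SymModel.RO
import Pool.Agent.Lib.SymModel.Sym

/-!
# The conditions, the group and the symmetric system
-/

set_option autoImplicit false

namespace Pool.Agent.Lib.MP_5ed4ef_gt

open Pool.Agent.Lib.SymModel

/-- The type of clopen sets. -/
abbrev Clp : Type := {u : Set Pt // IsClp u}

/-- A condition: finitely many clopen sets containing points of the right type. -/
@[ext]
structure Cond where
  /-- the coordinates -/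
  c : ℕ → Set Pt
  clp : ∀ k, IsClp (c k)
  fin : {k | c k ≠ Set.univ}.Finite
  ne : ∀ k, (c k ∩ Tk k).Nonempty

instance : PartialOrder Cond where
  le q p := ∀ k, q.c k ⊆ p.c k
  le_refl p k := subset_rfl
  le_trans p q r h1 h2 k := (h1 k).trans (h2 k)
  le_antisymm p q h1 h2 := Cond.ext (funext fun k => (h1 k).antisymm (h2 k))

theorem Cond.le_def {p q : Cond} : q ≤ p ↔ ∀ k, q.c k ⊆ p.c k := Iff.rfl

/-- The support. -/
noncomputable def Cond.supp (p : Cond) : Finset ℕ := p.fin.toFinset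

theorem Cond.notMem_supp {p : Cond} {k : ℕ} : k ∉ p.supp ↔ p.c k = Set.univ := by
  rw [Cond.supp, Set.Finite.mem_toFinset]
  simp

theorem zero_mem_Z0 : (fun _ => false : Pt) ∈ Z0 := fun _ => rfl

theorem Tk_nonempty (k : ℕ) : (Tk k).Nonempty := by
  rcases Nat.mod_two_eq_zero_or_one k with h | h
  · exact ⟨fun _ => false, ⟨fun _ => h, fun _ => zero_mem_Z0⟩⟩
  · refine ⟨fun _ => true, ⟨fun h2 => ?_, fun h2 => ?_⟩⟩
    · exact absurd (h2 0) (by simp)
    · omega

/-- The trivial condition. -/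
def Cond.one : Cond where
  c _ := Set.univ
  clp _ := isClp_univ
  fin := by simp
  ne k := by
    rw [Set.univ_inter]
    exact Tk_nonempty k

/-- Replace one coordinate. -/
noncomputable def Cond.upd (p : Cond) (k : ℕ) (u : Set Pt) (hu : IsClp u)
    (hne : (u ∩ Tk k).Nonempty) : Cond where
  c := Function.update p.c k u
  clp j := by
    by_cases h : j = k
    · subst h
      rwa [Function.update_self]
    · rw [Function.update_of_ne h]
      exact p.clp j
  fin := by
    refine (p.fin.union (Set.finite_singleton k)).subset ?_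
    intro j hj
    by_cases h : j = k
    · exact Or.inr h
    · refine Or.inl ?_
      change p.c j ≠ Set.univ
      change Function.update p.c k u j ≠ Set.univ at hj
      rwa [Function.update_of_ne h] at hj
  ne j := by
    by_cases h : j = k
    · subst h
      rwa [Function.update_self]
    · rw [Function.update_of_ne h]
      exact p.ne j

theorem Cond.upd_self (p : Cond) (k : ℕ) (u : Set Pt) (hu : IsClp u)
    (hne : (u ∩ Tk k).Nonempty) : (p.upd k u hu hne).c k = u := Function.update_self _ _ _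

theorem Cond.upd_ne (p : Cond) {k : ℕ} (u : Set Pt) (hu : IsClp u)
    (hne : (u ∩ Tk k).Nonempty) {j : ℕ} (hj : j ≠ k) : (p.upd k u hu hne).c j = p.c j :=
  Function.update_of_ne hj _ _

theorem Cond.upd_le (p : Cond) {k : ℕ} {u : Set Pt} (hu : IsClp u)
    (hne : (u ∩ Tk k).Nonempty) (h : u ⊆ p.c k) : p.upd k u hu hne ≤ p := by
  intro j
  by_cases hj : j = k
  · subst hj
    rw [Cond.upd_self]
    exact h
  · rw [Cond.upd_ne _ _ _ _ hj]

/-- The condition given by cylinders. -/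
def Cond.cylC (F : Finset ℕ) (x : ℕ → Pt) (hx : ∀ k ∈ F, x k ∈ Tk k) (L : ℕ) : Cond where
  c k := if k ∈ F then cyl L (x k) else Set.univ
  clp k := by
    split_ifs
    · exact isClp_cyl _ _
    · exact isClp_univ
  fin := by
    refine F.finite_toSet.subset ?_
    intro k hk
    by_contra h
    exact hk (if_neg h)
  ne k := by
    split_ifs with h
    · exact ⟨x k, self_mem_cyl _ _, hx k h⟩
    · rw [Set.univ_inter]
      exact Tk_nonempty k

theorem Cond.cylC_mem {F : Finset ℕ} {x : ℕ → Pt} {hx : ∀ k ∈ F, x k ∈ Tk k} {L k : ℕ}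
    (hk : k ∈ F) : (Cond.cylC F x hx L).c k = cyl L (x k) := if_pos hk

theorem Cond.cylC_le {F : Finset ℕ} {x : ℕ → Pt} {hx : ∀ k ∈ F, x k ∈ Tk k} {L : ℕ} {p : Cond}
    (h1 : ∀ k, k ∉ F → p.c k = Set.univ) (h2 : ∀ k ∈ F, x k ∈ p.c k)
    (h3 : ∀ k ∈ F, Dep L (p.c k)) : Cond.cylC F x hx L ≤ p := by
  intro k
  by_cases hk : k ∈ F
  · rw [Cond.cylC_mem hk]
    exact cyl_subset (h3 k hk) (h2 k hk)
  · rw [h1 k hk]
    exact Set.subset_univ _

theorem exists_points (p : Cond) (F : Finset ℕ) (A : Finset Pt) : ∃ x : ℕ → Pt,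
    (∀ k ∈ F, x k ∈ p.c k ∧ x k ∈ Tk k ∧ x k ∉ A) ∧
      ∀ k ∈ F, ∀ j ∈ F, x k = x j → k = j := by
  obtain ⟨x, h1, h2⟩ := exists_distinct F (fun k => p.c k ∩ Tk k)
    (fun k _ => infinite_Tk (p.clp k) (p.ne k)) A
  exact ⟨x, fun k hk => ⟨(h1 k hk).1.1, (h1 k hk).1.2, (h1 k hk).2⟩, h2⟩

/-! ### The group -/

/-- The group of the permutations of the Cantor set which preserve `Z0` and the clopen sets. -/
def Gam : Subgroup (Equiv.Perm Pt) where
  carrier := {g | (∀ u, IsClp u → IsClp (g '' u)) ∧ (∀ u, IsClp u → IsClp (g.symm '' u)) ∧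
    ∀ x, g x ∈ Z0 ↔ x ∈ Z0}
  one_mem' := by
    refine ⟨fun u hu => ?_, fun u hu => ?_, fun x => Iff.rfl⟩
    · have : ((1 : Equiv.Perm Pt) '' u) = u := by
        rw [Equiv.Perm.coe_one, Set.image_id]
      rw [this]
      exact hu
    · have : ((1 : Equiv.Perm Pt).symm '' u) = u := by
        change (id '' u) = u
        exact Set.image_id u
      rw [this]
      exact hu
  mul_mem' := by
    rintro g h ⟨g1, g2, g3⟩ ⟨h1, h2, h3⟩
    refine ⟨fun u hu => ?_, fun u hu => ?_, fun x => ?_⟩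
    · have : ((g * h : Equiv.Perm Pt) '' u) = g '' (h '' u) := by
        rw [Equiv.Perm.coe_mul, Set.image_comp]
      rw [this]
      exact g1 _ (h1 _ hu)
    · have : ((g * h : Equiv.Perm Pt).symm '' u) = h.symm '' (g.symm '' u) := by
        rw [← Set.image_comp]
        rfl
      rw [this]
      exact h2 _ (g2 _ hu)
    · rw [Equiv.Perm.mul_apply, g3, h3]
  inv_mem' := by
    rintro g ⟨g1, g2, g3⟩
    refine ⟨g2, g1, fun x => ?_⟩
    have := g3 (g.symm x)
    rw [Equiv.apply_symm_apply] at this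
    exact this.symm

theorem Gam.isClp (g : Gam) {u : Set Pt} (hu : IsClp u) : IsClp (g.1 '' u) := g.2.1 u hu

theorem Gam.mem_Z0 (g : Gam) (x : Pt) : g.1 x ∈ Z0 ↔ x ∈ Z0 := g.2.2.2 x

theorem Gam.mem_Tk (g : Gam) (k : ℕ) (x : Pt) : g.1 x ∈ Tk k ↔ x ∈ Tk k := by
  change (g.1 x ∈ Z0 ↔ _) ↔ (x ∈ Z0 ↔ _)
  rw [Gam.mem_Z0 g]

theorem Gam.one_image (u : Set Pt) : (1 : Gam).1 '' u = u := by
  change (1 : Equiv.Perm Pt) '' u = u
  rw [Equiv.Perm.coe_one, Set.image_id]

theorem Gam.mul_image (g h : Gam) (u : Set Pt) : (g * h).1 '' u = g.1 '' (h.1 '' u) := by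
  change ((g.1 * h.1 : Equiv.Perm Pt) '' u) = _
  rw [Equiv.Perm.coe_mul, Set.image_comp]

theorem Gam.inv_image_image (g : Gam) (u : Set Pt) : (g⁻¹).1 '' (g.1 '' u) = u := by
  rw [← Gam.mul_image, inv_mul_cancel, Gam.one_image]

theorem Gam.image_inv_image (g : Gam) (u : Set Pt) : g.1 '' ((g⁻¹).1 '' u) = u := by
  rw [← Gam.mul_image, mul_inv_cancel, Gam.one_image]

/-- The action on conditions. -/
def Cond.map (g : Gam) (p : Cond) : Cond where
  c k := g.1 '' p.c k
  clp k := Gam.isClp g (p.clp k)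
  fin := by
    refine p.fin.subset ?_
    intro k hk h
    apply hk
    rw [h, Set.image_univ, g.1.surjective.range_eq]
  ne k := by
    obtain ⟨x, hx, hxk⟩ := p.ne k
    exact ⟨g.1 x, ⟨x, hx, rfl⟩, (Gam.mem_Tk g k x).mpr hxk⟩

theorem Cond.map_c (g : Gam) (p : Cond) (k : ℕ) : (Cond.map g p).c k = g.1 '' p.c k := rfl

theorem Cond.map_one (p : Cond) : Cond.map 1 p = p :=
  Cond.ext (funext fun k => Gam.one_image (p.c k))

theorem Cond.map_mul (g h : Gam) (p : Cond) :
    Cond.map (g * h) p = Cond.map g (Cond.map h p) :=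
  Cond.ext (funext fun k => Gam.mul_image g h (p.c k))

theorem Cond.map_inv_map (g : Gam) (p : Cond) : Cond.map g⁻¹ (Cond.map g p) = p := by
  rw [← Cond.map_mul, inv_mul_cancel, Cond.map_one]

theorem Cond.map_map_inv (g : Gam) (p : Cond) : Cond.map g (Cond.map g⁻¹ p) = p := by
  rw [← Cond.map_mul, mul_inv_cancel, Cond.map_one]

theorem Cond.map_mono (g : Gam) {p q : Cond} (h : q ≤ p) : Cond.map g q ≤ Cond.map g p :=
  fun k => Set.image_mono (h k)

/-- The action as an order isomorphism. -/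
def actC (g : Gam) : Cond ≃o Cond where
  toFun := Cond.map g
  invFun := Cond.map g⁻¹
  left_inv := Cond.map_inv_map g
  right_inv := Cond.map_map_inv g
  map_rel_iff' := by
    intro p q
    refine ⟨fun h => ?_, fun h => Cond.map_mono g h⟩
    have h1 := Cond.map_mono g⁻¹ h
    change Cond.map g⁻¹ (Cond.map g p) ≤ Cond.map g⁻¹ (Cond.map g q) at h1
    rwa [Cond.map_inv_map, Cond.map_inv_map] at h1

theorem mem_act {g : Gam} {b : RO Cond} {p : Cond} :
    p ∈ RO.mapIso (actC g) b ↔ Cond.map g⁻¹ p ∈ b := Iff.rfl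

/-- The pointwise stabiliser of a finite set of clopen sets. -/
def fixG (E : Finset (Set Pt)) : Subgroup Gam where
  carrier := {g | ∀ e ∈ E, g.1 '' e = e}
  one_mem' := fun e _ => Gam.one_image e
  mul_mem' := by
    intro g h hg hh e he
    rw [Gam.mul_image, hh e he, hg e he]
  inv_mem' := by
    intro g hg e he
    have h1 := Gam.inv_image_image g e
    rwa [hg e he] at h1

theorem mem_fixG {E : Finset (Set Pt)} {g : Gam} : g ∈ fixG E ↔ ∀ e ∈ E, g.1 '' e = e := Iff.rfl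

/-- The symmetric system. -/
noncomputable abbrev sys : SymSys (RO Cond) where
  Γ := Gam
  act g := RO.mapIso (actC g)
  act_one b := by
    refine SetLike.ext fun p => ?_
    rw [mem_act, inv_one, Cond.map_one]
  act_mul g h b := by
    refine SetLike.ext fun p => ?_
    rw [mem_act, mem_act, mem_act, mul_inv_rev, Cond.map_mul]
  good H := ∃ E : Finset (Set Pt), (∀ e ∈ E, IsClp e) ∧ fixG E ≤ H
  good_top := ⟨∅, by simp, le_top⟩
  good_inf := by
    classical
    rintro H K ⟨E, hE, hH⟩ ⟨E', hE', hK⟩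
    refine ⟨E ∪ E', fun e he => ?_, le_inf ?_ ?_⟩
    · rcases Finset.mem_union.mp he with h | h
      · exact hE e h
      · exact hE' e h
    · exact fun g hg => hH fun e he => hg e (Finset.mem_union_left _ he)
    · exact fun g hg => hK fun e he => hg e (Finset.mem_union_right _ he)
  good_mono := by
    rintro H K hHK ⟨E, hE, hH⟩
    exact ⟨E, hE, hH.trans hHK⟩
  good_conj := by
    classical
    rintro g H ⟨E, hE, hH⟩
    refine ⟨E.image (fun e => g.1 '' e), fun e he => ?_, fun k hk => ?_⟩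
    · obtain ⟨e', he', rfl⟩ := Finset.mem_image.mp he
      exact Gam.isClp g (hE e' he')
    · rw [Subgroup.mem_map]
      refine ⟨g⁻¹ * k * g, hH fun e he => ?_, by simp [MulAut.conj_apply, mul_assoc]⟩
      have h1 := hk _ (Finset.mem_image_of_mem _ he)
      rw [Gam.mul_image, Gam.mul_image, h1, Gam.inv_image_image]

/-! ### Evaluations -/

/-- The Boolean value of the statement that the `k`-th generic point is in `u`. -/
def ev (k : ℕ) (u : Clp) : RO Cond where
  carrier := {p | p.c k ∩ Tk k ⊆ u.1}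
  reg p := by
    constructor
    · intro h q hq
      exact ⟨q, le_rfl, (Set.inter_subset_inter_left _ (hq k)).trans h⟩
    · intro h x hx
      by_contra hxu
      obtain ⟨r, hr, hru⟩ := h (p.upd k (p.c k ∩ u.1ᶜ) ((p.clp k).inter u.2.compl)
        ⟨x, ⟨hx.1, hxu⟩, hx.2⟩) (p.upd_le _ _ Set.inter_subset_left)
      obtain ⟨y, hy, hyk⟩ := r.ne k
      have h1 := hr k hy
      rw [Cond.upd_self] at h1
      exact h1.2 (hru ⟨hy, hyk⟩)

theorem mem_ev {k : ℕ} {u : Clp} {p : Cond} : p ∈ ev k u ↔ p.c k ∩ Tk k ⊆ u.1 := Iff.rfl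

theorem mem_ev_of_subset {k : ℕ} {u : Clp} {p : Cond} (h : p.c k ⊆ u.1) : p ∈ ev k u :=
  Set.inter_subset_left.trans h

theorem ev_mono (k : ℕ) {u v : Clp} (h : u.1 ⊆ v.1) : ev k u ≤ ev k v :=
  fun _ hp => Set.Subset.trans hp h

/-- The intersection of clopen sets. -/
def Clp.inf (u v : Clp) : Clp := ⟨u.1 ∩ v.1, u.2.inter v.2⟩

/-- The union of clopen sets. -/
def Clp.sup (u v : Clp) : Clp := ⟨u.1 ∪ v.1, u.2.union v.2⟩

/-- The complement of a clopen set. -/
def Clp.cpl (u : Clp) : Clp := ⟨u.1ᶜ, u.2.compl⟩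

/-- The whole space. -/
def Clp.top : Clp := ⟨Set.univ, isClp_univ⟩

/-- The empty set. -/
def Clp.bot : Clp := ⟨∅, isClp_empty⟩

/-- The action on clopen sets. -/
def Clp.map (g : Gam) (u : Clp) : Clp := ⟨g.1 '' u.1, Gam.isClp g u.2⟩

theorem Clp.map_one (u : Clp) : Clp.map 1 u = u := Subtype.ext (Gam.one_image u.1)

theorem Clp.map_mul (g h : Gam) (u : Clp) : Clp.map (g * h) u = Clp.map g (Clp.map h u) :=
  Subtype.ext (Gam.mul_image g h u.1)

theorem Clp.map_map_inv (g : Gam) (u : Clp) : Clp.map g (Clp.map g⁻¹ u) = u :=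
  Subtype.ext (Gam.image_inv_image g u.1)

theorem ev_inf (k : ℕ) (u v : Clp) : ev k (Clp.inf u v) = ev k u ⊓ ev k v := by
  refine SetLike.ext fun p => ?_
  rw [RO.mem_inf, mem_ev, mem_ev, mem_ev]
  exact Set.subset_inter_iff

theorem ev_cpl (k : ℕ) (u : Clp) : ev k (Clp.cpl u) = (ev k u)ᶜ := by
  refine SetLike.ext fun p => ?_
  rw [RO.mem_compl, mem_ev]
  constructor
  · intro h q hq hqu
    obtain ⟨x, hx, hxk⟩ := q.ne k
    exact h ⟨hq k hx, hxk⟩ (hqu ⟨hx, hxk⟩)
  · intro h x hx hxu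
    refine h (p.upd k (p.c k ∩ u.1) ((p.clp k).inter u.2) ⟨x, ⟨hx.1, hxu⟩, hx.2⟩)
      (p.upd_le _ _ Set.inter_subset_left) ?_
    apply mem_ev_of_subset
    rw [Cond.upd_self]
    exact Set.inter_subset_right

theorem ev_top (k : ℕ) : ev k Clp.top = ⊤ := by
  refine SetLike.ext fun p => ?_
  exact ⟨fun _ => trivial, fun _ => mem_ev_of_subset (Set.subset_univ _)⟩

theorem act_ev (g : Gam) (k : ℕ) (u : Clp) :
    RO.mapIso (actC g) (ev k u) = ev k (Clp.map g u) := by
  refine SetLike.ext fun p => ?_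
  rw [mem_act, mem_ev, mem_ev, Cond.map_c]
  have hmem : ∀ x : Pt, (g⁻¹).1 (g.1 x) = x := fun x => by
    change g.1.symm (g.1 x) = x
    rw [Equiv.symm_apply_apply]
  have hmem2 : ∀ x : Pt, g.1 ((g⁻¹).1 x) = x := fun x => by
    change g.1 (g.1.symm x) = x
    rw [Equiv.apply_symm_apply]
  constructor
  · intro h x hx
    refine ⟨(g⁻¹).1 x, h ⟨⟨x, hx.1, rfl⟩, (Gam.mem_Tk g⁻¹ k x).mpr hx.2⟩, hmem2 x⟩
  · rintro h _ ⟨⟨x, hx, rfl⟩, hxk⟩
    rw [Gam.mem_Tk g⁻¹] at hxk
    obtain ⟨y, hy, hyx⟩ := h ⟨hx, hxk⟩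
    rw [← hyx, hmem]
    exact hy

/-! ### Swaps as elements of the group -/

/-- Swaps of cylinders as elements of the group. -/
noncomputable def swG (L : ℕ) (a b : Pt) (hab : SameT a b) (ha : Vis L a) (hb : Vis L b) : Gam :=
  ⟨swp L a b, fun _ hu => isClp_swp L a b hu, fun _ hu => isClp_swp L a b hu,
    fun x => sw_Z0 hab ha hb x⟩

theorem swG_inv {L : ℕ} {a b : Pt} {hab : SameT a b} {ha : Vis L a} {hb : Vis L b} :
    (swG L a b hab ha hb)⁻¹ = swG L a b hab ha hb := Subtype.ext rfl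

theorem swG_image {L : ℕ} {a b : Pt} {hab : SameT a b} {ha : Vis L a} {hb : Vis L b}
    (u : Set Pt) : (swG L a b hab ha hb).1 '' u = swp L a b '' u := rfl

theorem swG_mem_fixG {L : ℕ} {a b : Pt} {hab : SameT a b} {ha : Vis L a} {hb : Vis L b}
    {E : Finset (Set Pt)} (hE : ∀ e ∈ E, Dep L e) (h : ∀ e ∈ E, (a ∈ e ↔ b ∈ e)) :
    swG L a b hab ha hb ∈ fixG E := fun e he => swp_image_eq (hE e he) (h e he)

/-! ### Homogeneity -/

/-- Invariance of an element of the algebra. -/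
def Inv (E : Finset (Set Pt)) (b : RO Cond) : Prop := ∀ g ∈ fixG E, ∀ p ∈ b, Cond.map g p ∈ b

theorem Inv.compl {E : Finset (Set Pt)} {b : RO Cond} (h : Inv E b) : Inv E bᶜ := by
  intro g hg p hp
  rw [RO.mem_compl] at hp ⊢
  intro q hq hqb
  refine hp (Cond.map g⁻¹ q) ?_ (h g⁻¹ (inv_mem hg) q hqb)
  have := Cond.map_mono g⁻¹ hq
  rwa [Cond.map_inv_map] at this

theorem homog {b : RO Cond} {E : Finset (Set Pt)} (hE : ∀ e ∈ E, IsClp e) (hb : Inv E b)
    {p : Cond} (hp : p ∈ b) {k : ℕ} {c0 : Set Pt} (hc0 : IsClp c0) (hsub : p.c k ⊆ c0)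
    (hns : ∀ e ∈ E, c0 ⊆ e ∨ c0 ⊆ eᶜ) (hne : (c0 ∩ Tk k).Nonempty) :
    p.upd k c0 hc0 hne ∈ b := by
  classical
  refine b.mem_of_dense fun r hr => ?_
  obtain ⟨y, hy, hyk⟩ := p.ne k
  set F : Finset ℕ := r.supp ∪ p.supp ∪ {k} with hF
  obtain ⟨x, hx, hinj⟩ := exists_points r F {y}
  obtain ⟨L, -, hL1, hL2, hL3⟩ := exists_level (insert y (F.image x))
    (E ∪ F.image r.c ∪ F.image p.c ∪ {c0}) (by
      intro u hu
      simp only [Finset.mem_union, Finset.mem_image, Finset.mem_singleton] at hu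
      rcases hu with ((hu | ⟨j, _, rfl⟩) | ⟨j, _, rfl⟩) | rfl
      · exact hE u hu
      · exact r.clp j
      · exact p.clp j
      · exact hc0) 0
  have hkF : k ∈ F := by simp [hF]
  have hdr : ∀ j ∈ F, Dep L (r.c j) := fun j hj => hL3 _ (by
    simp only [Finset.mem_union, Finset.mem_image]
    exact Or.inl (Or.inl (Or.inr ⟨j, hj, rfl⟩)))
  have hdp : ∀ j ∈ F, Dep L (p.c j) := fun j hj => hL3 _ (by
    simp only [Finset.mem_union, Finset.mem_image]
    exact Or.inl (Or.inr ⟨j, hj, rfl⟩))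
  have hdE : ∀ e ∈ E, Dep L e := fun e he => hL3 _ (by
    simp only [Finset.mem_union]
    exact Or.inl (Or.inl (Or.inl he)))
  have hxQ : ∀ j ∈ F, x j ∈ insert y (F.image x) := fun j hj =>
    Finset.mem_insert_of_mem (Finset.mem_image_of_mem _ hj)
  have hyQ : y ∈ insert y (F.image x) := Finset.mem_insert_self _ _
  let g : Gam := swG L (x k) y (sameT_of_Tk (hx k hkF).2.1 hyk) (hL2 _ (hxQ k hkF)) (hL2 _ hyQ)
  have hrk : x k ∈ c0 := by
    have := hr k (hx k hkF).1
    rwa [Cond.upd_self] at this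
  have hgE : g ∈ fixG E := by
    refine swG_mem_fixG hdE fun e he => ?_
    rcases hns e he with h | h
    · exact ⟨fun _ => h (hsub hy), fun _ => h hrk⟩
    · exact ⟨fun h2 => absurd h2 (h hrk), fun h2 => absurd h2 (h (hsub hy))⟩
  let s : Cond := Cond.cylC F x (fun j hj => (hx j hj).2.1) L
  have hsr : s ≤ r := Cond.cylC_le (fun j hj => Cond.notMem_supp.mp fun h => hj (by
      rw [hF]
      exact Finset.mem_union_left _ (Finset.mem_union_left _ h)))
    (fun j hj => (hx j hj).1) hdr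
  refine ⟨s, hsr, ?_⟩
  have h1 : Cond.map g s ≤ p := by
    intro j
    rw [Cond.map_c]
    by_cases hj : j ∈ F
    · rw [Cond.cylC_mem hj]
      by_cases hjk : j = k
      · subst hjk
        rintro _ ⟨z, hz, rfl⟩
        exact hdp j hj y _ (fun i hi => (sw_left hz hi).symm) hy
      · rw [swG_image, swp_cyl_other]
        · refine cyl_subset (hdp j hj) ?_
          have := hr j (hx j hj).1
          rwa [Cond.upd_ne _ _ _ _ hjk] at this
        · exact hL1 _ (hxQ j hj) _ (hxQ k hkF) fun h => hjk (hinj j hj k hkF h)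
        · exact hL1 _ (hxQ j hj) _ hyQ fun h => (hx j hj).2.2 (by rw [h]; simp)
    · have : p.c j = Set.univ := Cond.notMem_supp.mp fun h => hj (by
        rw [hF]
        exact Finset.mem_union_left _ (Finset.mem_union_right _ h))
      rw [this]
      exact Set.subset_univ _
  have h2 := hb g hgE _ (b.down hp h1)
  have h3 : Cond.map g (Cond.map g s) = s := by
    have h4 : g = g⁻¹ := swG_inv.symm
    nth_rw 1 [h4]
    exact Cond.map_inv_map g s
  rwa [h3] at h2

end Pool.Agent.Lib.MP_5ed4ef_gt
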