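import Pool.Agent.Lib.MP_5ed4ef_gt.Cond

/-!
# The combinatorial core
-/

set_option autoImplicit false

namespace Pool.Agent.Lib.MP_5ed4ef_gt

open Pool.Agent.Lib.SymModel

/-- The point with given first coordinates. -/
def pt (L : ℕ) (w : Fin L → Bool) (b : Bool) : Pt :=
  fun i => if h : i < L then w ⟨i, h⟩ else if i = 2 * L then b else false

theorem pt_lt {L : ℕ} {w : Fin L → Bool} {b : Bool} {i : ℕ} (h : i < L) :
    pt L w b i = w ⟨i, h⟩ := dif_pos h

theorem exists_reps (L : ℕ) : ∃ Q : Finset Pt, ∀ y : Pt, ∃ z ∈ Q,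
    (∀ i < L, z i = y i) ∧ SameT z y := by
  classical
  refine ⟨Finset.univ.image fun wb : (Fin L → Bool) × Bool => pt L wb.1 wb.2, fun y => ?_⟩
  by_cases hy : y ∈ Z0
  · refine ⟨pt L (fun i => y i) false, Finset.mem_image.mpr ⟨(fun i => y i, false), by simp, rfl⟩,
      fun i hi => pt_lt hi, ⟨fun _ => hy, fun _ i => ?_⟩⟩
    by_cases hi : 2 * i < L
    · rw [pt_lt hi]
      exact hy i
    · unfold pt
      rw [dif_neg hi, ite_self]
  · refine ⟨pt L (fun i => y i) true, Finset.mem_image.mpr ⟨(fun i => y i, true), by simp, rfl⟩,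
      fun i hi => pt_lt hi, ⟨fun h => ?_, fun h => absurd h hy⟩⟩
    have h1 := h L
    unfold pt at h1
    rw [dif_neg (by omega), if_pos rfl] at h1
    exact absurd h1 (by simp)

theorem exists_trunc (L : ℕ) : ∃ Q : Finset Pt, (∀ y ∈ Q, Vis L y) ∧
    ∀ z : Pt, ∃ y ∈ Q, z ∈ cyl L y := by
  classical
  refine ⟨Finset.univ.image fun w : Fin L → Bool => pt L w false, fun y hy => ?_, fun z => ?_⟩
  · obtain ⟨w, _, rfl⟩ := Finset.mem_image.mp hy
    by_cases h : ∃ i, 2 * i < L ∧ pt L w false (2 * i) = true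
    · exact Or.inr h
    · refine Or.inl fun i => ?_
      push Not at h
      by_cases hi : 2 * i < L
      · simpa using h i hi
      · unfold pt
        rw [dif_neg hi, ite_self]
  · refine ⟨pt L (fun i => z i) false, Finset.mem_image.mpr ⟨fun i => z i, by simp, rfl⟩,
      fun i hi => ?_⟩
    rw [pt_lt hi]

theorem exists_new (F : Finset ℕ) (y : Pt) : ∃ k, k ∉ F ∧ y ∈ Tk k := by
  classical
  obtain ⟨n, hn⟩ := F.exists_notMem
  have hb : ∃ N : ℕ, ∀ k ∈ F, k < N := ⟨F.sup id + 1, fun k hk =>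
    Nat.lt_succ_of_le (Finset.le_sup (f := id) hk)⟩
  obtain ⟨N, hN⟩ := hb
  by_cases hy : y ∈ Z0
  · refine ⟨2 * N, fun h => ?_, ⟨fun _ => by omega, fun _ => hy⟩⟩
    have := hN _ h
    omega
  · refine ⟨2 * N + 1, fun h => ?_, ⟨fun h => absurd h hy, fun h => by omega⟩⟩
    have := hN _ h
    omega

theorem exists_reps_cond (L : ℕ) (q : Cond) (Q : Finset Pt) : ∃ q1 ≤ q, ∃ κ : Pt → ℕ,
    ∀ y ∈ Q, y ∈ Tk (κ y) ∧ q1.c (κ y) ⊆ cyl L y := by
  classical
  induction Q using Finset.induction_on with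
  | empty => exact ⟨q, le_rfl, fun _ => 0, by simp⟩
  | insert a Q ha ih =>
    obtain ⟨q1, hq1, κ, hκ⟩ := ih
    obtain ⟨k, hk, hak⟩ := exists_new q1.supp a
    have hu : q1.c k = Set.univ := Cond.notMem_supp.mp hk
    refine ⟨q1.upd k (cyl L a) (isClp_cyl _ _) ⟨a, self_mem_cyl _ _, hak⟩,
      (q1.upd_le _ _ (by rw [hu]; exact Set.subset_univ _)).trans hq1, Function.update κ a k,
      fun y hy => ?_⟩
    by_cases hya : y = a
    · subst hya
      rw [Function.update_self, Cond.upd_self]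
      exact ⟨hak, subset_rfl⟩
    · rw [Function.update_of_ne hya]
      obtain ⟨h1, h2⟩ := hκ y ((Finset.mem_insert.mp hy).resolve_left hya)
      refine ⟨h1, Set.Subset.trans ?_ h2⟩
      exact (q1.upd_le (isClp_cyl _ _) ⟨a, self_mem_cyl _ _, hak⟩
        (by rw [hu]; exact Set.subset_univ _)) (κ y)

/-- Equivariance of a family. -/
def EqI (E : Finset (Set Pt)) (I : Clp → RO Cond) : Prop :=
  ∀ g ∈ fixG E, ∀ u, ∀ p ∈ I u, Cond.map g p ∈ I (Clp.map g u)

/-- The compactness of the space of the generic points. -/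
theorem core1 {I : Clp → RO Cond} {E : Finset (Set Pt)} (hE : ∀ e ∈ E, IsClp e)
    (hI : EqI E I) {p : Cond}
    (hdn : ∀ u v : Clp, u.1 ⊆ v.1 → ∀ q ≤ p, q ∈ I v → q ∈ I u)
    (hjn : ∀ u v : Clp, ∀ q ≤ p, q ∈ I u → q ∈ I v → q ∈ I (Clp.sup u v))
    (hcv : ∀ k, ∀ q ≤ p, ∃ r ≤ q, ∃ u, r ∈ I u ∧ r ∈ ev k u) : p ∈ I Clp.top := by
  classical
  have hcover : ∀ F : Finset ℕ, ∀ q ≤ p, ∃ t ≤ q, ∃ u, t ∈ I u ∧ ∀ k ∈ F, t ∈ ev k u := by
    intro F
    induction F using Finset.induction_on with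
    | empty =>
      intro q hq
      obtain ⟨r, hr, u, hu, _⟩ := hcv 0 q hq
      exact ⟨r, hr, u, hu, by simp⟩
    | insert a F ha ih =>
      intro q hq
      obtain ⟨t, ht, u, hu, hF⟩ := ih q hq
      obtain ⟨r, hr, v, hv, hav⟩ := hcv a t (ht.trans hq)
      refine ⟨r, hr.trans ht, Clp.sup u v, hjn u v r (hr.trans (ht.trans hq))
        ((I u).down hu hr) hv, fun k hk => ?_⟩
      rcases Finset.mem_insert.mp hk with rfl | hk
      · exact ev_mono k (v := Clp.sup u v) Set.subset_union_right r hav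
      · exact ev_mono k (u := u) (v := Clp.sup u v) Set.subset_union_left r
          ((ev k u).down (hF k hk) hr)
  refine (I Clp.top).mem_of_dense fun q hq => ?_
  obtain ⟨L0, -, -, -, hL0⟩ := exists_level ∅ E hE 0
  obtain ⟨Q0, hQ0⟩ := exists_reps L0
  obtain ⟨q1, hq1, κ, hκ⟩ := exists_reps_cond L0 q Q0
  obtain ⟨t, ht, u, htu, hκu⟩ := hcover (Q0.image κ) q1 (hq1.trans hq)
  obtain ⟨t2, ht2, u2, htu2, hsu2⟩ := hcover t.supp t (ht.trans (hq1.trans hq))
  set F : Finset ℕ := t2.supp ∪ t.supp with hF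
  obtain ⟨x, hx, hinj⟩ := exists_points t2 F ∅
  -- the auxiliary points
  have hz : ∀ y : Pt, ∃ z : Pt, y ∈ Q0 → (z ∈ t.c (κ y) ∧ z ∈ Tk (κ y) ∧ z ∉ F.image x) := by
    intro y
    obtain ⟨z, hz, hzF⟩ := (infinite_Tk (t.clp (κ y)) (t.ne (κ y))).exists_notMem_finset
      (F.image x)
    exact ⟨z, fun _ => ⟨hz.1, hz.2, hzF⟩⟩
  choose z hz using hz
  obtain ⟨L, hL0L, hL1, hL2, hL3⟩ := exists_level (F.image x ∪ Q0.image z)
    (E ∪ F.image t2.c ∪ F.image t.c ∪ {u.1, u2.1}) (by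
      intro v hv
      simp only [Finset.mem_union, Finset.mem_image, Finset.mem_insert, Finset.mem_singleton] at hv
      rcases hv with ((hv | ⟨j, _, rfl⟩) | ⟨j, _, rfl⟩) | rfl | rfl
      · exact hE v hv
      · exact t2.clp j
      · exact t.clp j
      · exact u.2
      · exact u2.2) L0
  have hxQ : ∀ j ∈ F, x j ∈ F.image x ∪ Q0.image z := fun j hj =>
    Finset.mem_union_left _ (Finset.mem_image_of_mem _ hj)
  have hzQ : ∀ y ∈ Q0, z y ∈ F.image x ∪ Q0.image z := fun y hy =>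
    Finset.mem_union_right _ (Finset.mem_image_of_mem _ hy)
  have hdt2 : ∀ j ∈ F, Dep L (t2.c j) := fun j hj => hL3 _ (by
    simp only [Finset.mem_union, Finset.mem_image]
    exact Or.inl (Or.inl (Or.inr ⟨j, hj, rfl⟩)))
  have hdt : ∀ j ∈ F, Dep L (t.c j) := fun j hj => hL3 _ (by
    simp only [Finset.mem_union, Finset.mem_image]
    exact Or.inl (Or.inr ⟨j, hj, rfl⟩))
  have hdu : Dep L u.1 := hL3 _ (by simp)
  have hdu2 : Dep L u2.1 := hL3 _ (by simp)
  have hdE : ∀ e ∈ E, Dep L e := fun e he => hL3 _ (by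
    simp only [Finset.mem_union]
    exact Or.inl (Or.inl (Or.inl he)))
  let s : Cond := Cond.cylC F x (fun j hj => (hx j hj).2.1) L
  have hst2 : s ≤ t2 := Cond.cylC_le (fun j hj => Cond.notMem_supp.mp fun h => hj (by
      rw [hF]
      exact Finset.mem_union_left _ h)) (fun j hj => (hx j hj).1) hdt2
  have hsp : s ≤ p := hst2.trans (ht2.trans (ht.trans (hq1.trans hq)))
  refine ⟨s, hst2.trans (ht2.trans (ht.trans hq1)), ?_⟩
  obtain ⟨Q, hQvis, hQ⟩ := exists_trunc L
  -- every cylinder is in the ideal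
  have key : ∀ y ∈ Q, s ∈ I ⟨cyl L y, isClp_cyl L y⟩ := by
    intro y hy
    by_cases hcase : ∃ j ∈ t.supp, ∀ i < L, y i = x j i
    · obtain ⟨j, hj, hyj⟩ := hcase
      have hjF : j ∈ F := by
        rw [hF]
        exact Finset.mem_union_right _ hj
      have h1 : x j ∈ u2.1 := hsu2 j hj ⟨(hx j hjF).1, (hx j hjF).2.1⟩
      refine hdn _ u2 ?_ s hsp ((I u2).down htu2 hst2)
      refine cyl_subset hdu2 (hdu2 _ _ (fun i hi => (hyj i hi).symm) h1)
    · push Not at hcase
      obtain ⟨y', hy', hyy', hty'⟩ := hQ0 y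
      obtain ⟨hk1, hk2⟩ := hκ y' hy'
      obtain ⟨hz1, hz2, hz3⟩ := hz y' hy'
      have hsame : SameT (z y') y := (sameT_of_Tk hz2 hk1).trans hty'
      let g : Gam := swG L (z y') y hsame (hL2 _ (hzQ y' hy')) (hQvis y hy)
      have hzcyl : z y' ∈ cyl L0 y' := hk2 (ht (κ y') hz1)
      have hgE : g ∈ fixG E := by
        refine swG_mem_fixG hdE fun e he => ?_
        refine (hL0 e he).iff fun i hi => ?_
        rw [hzcyl i hi, hyy' i hi]
      have hgs : Cond.map g s ≤ t := by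
        intro j
        by_cases hj : j ∈ t.supp
        · have hjF : j ∈ F := by
            rw [hF]
            exact Finset.mem_union_right _ hj
          rw [Cond.map_c, Cond.cylC_mem hjF, swG_image, swp_cyl_other]
          · exact cyl_subset (hdt j hjF) (ht2 j (hx j hjF).1)
          · refine hL1 _ (hxQ j hjF) _ (hzQ y' hy') fun h => hz3 ?_
            rw [← h]
            exact Finset.mem_image_of_mem _ hjF
          · obtain ⟨i, hi, hne⟩ := hcase j hj
            exact ⟨i, hi, fun h => hne h.symm⟩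
        · rw [Cond.notMem_supp.mp hj]
          exact Set.subset_univ _
      have h1 : Cond.map g s ∈ I u := (I u).down htu hgs
      have h2 := hI g hgE u _ h1
      have h3 : Cond.map g (Cond.map g s) = s := by
        have h4 : g = g⁻¹ := swG_inv.symm
        nth_rw 1 [h4]
        exact Cond.map_inv_map g s
      rw [h3] at h2
      refine hdn _ _ ?_ s hsp h2
      have h5 : z y' ∈ u.1 := hκu (κ y') (Finset.mem_image_of_mem _ hy') ⟨hz1, hz2⟩
      exact cyl_subset_swp hdu h5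
  -- their union
  have hun : ∀ Q' : Finset Pt, Q' ⊆ Q → ∃ v : Clp, (∀ a, a ∈ v.1 ↔ ∃ y ∈ Q', a ∈ cyl L y) ∧
      s ∈ I v := by
    intro Q'
    induction Q' using Finset.induction_on with
    | empty =>
      intro _
      refine ⟨Clp.bot, fun a => ?_, ?_⟩
      · simp [Clp.bot]
      · refine hdn Clp.bot u2 (Set.empty_subset _) s hsp ((I u2).down htu2 hst2)
    | insert a Q' ha ih =>
      intro hsub
      obtain ⟨v, hv1, hv2⟩ := ih fun y hy => hsub (Finset.mem_insert_of_mem hy)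
      refine ⟨Clp.sup ⟨cyl L a, isClp_cyl L a⟩ v, fun b => ?_,
        hjn _ _ s hsp (key a (hsub (Finset.mem_insert_self _ _))) hv2⟩
      change b ∈ cyl L a ∪ v.1 ↔ _
      rw [Set.mem_union, hv1]
      simp
  obtain ⟨v, hv1, hv2⟩ := hun Q subset_rfl
  have : v = Clp.top := by
    refine Subtype.ext (Set.eq_univ_of_forall fun a => ?_)
    rw [hv1]
    exact hQ a
  rwa [this] at hv2

end Pool.Agent.Lib.MP_5ed4ef_gt
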