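import Pool.Agent.Lib.MP_5ed4ef_gt.Core

/-!
# The combinatorial core: clopen subsets of the open part, and injections into traces
-/

set_option autoImplicit false

namespace Pool.Agent.Lib.MP_5ed4ef_gt

open Pool.Agent.Lib.SymModel

theorem exists_odd_reps (L : ℕ) : ∃ Q : Finset Pt, (∀ y ∈ Q, y ∉ Z0) ∧
    ∀ z : Pt, ∃ y ∈ Q, z ∈ cyl L y := by
  classical
  refine ⟨Finset.univ.image fun w : Fin L → Bool => pt L w true, fun y hy h => ?_, fun z => ?_⟩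
  · obtain ⟨w, _, rfl⟩ := Finset.mem_image.mp hy
    have h1 := h L
    unfold pt at h1
    rw [dif_neg (by omega), if_pos rfl] at h1
    exact absurd h1 (by simp)
  · refine ⟨pt L (fun i => z i) true, Finset.mem_image.mpr ⟨fun i => z i, by simp, rfl⟩,
      fun i hi => ?_⟩
    rw [pt_lt hi]

theorem odd_of_notMem {k : ℕ} {y : Pt} (h : y ∈ Tk k) (hy : y ∉ Z0) : k % 2 = 1 := by
  have h1 : y ∈ Z0 ↔ k % 2 = 0 := h
  have : ¬ k % 2 = 0 := fun h2 => hy (h1.mpr h2)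
  omega

theorem notMem_of_odd {k : ℕ} {y : Pt} (h : y ∈ Tk k) (hk : k % 2 = 1) : y ∉ Z0 := by
  have h1 : y ∈ Z0 ↔ k % 2 = 0 := h
  intro h2
  have := h1.mp h2
  omega

theorem Tk_of_odd {k : ℕ} {y : Pt} (hy : y ∉ Z0) (hk : k % 2 = 1) : y ∈ Tk k :=
  ⟨fun h => absurd h hy, fun h => by omega⟩

theorem mem_ev_himp {t : Cond} {j : ℕ} {u : Clp} {b : RO Cond}
    (h : ∀ s ≤ t, s.c j ⊆ u.1 → s ∈ b) : t ∈ ev j u ⇨ b := by
  rw [RO.mem_himp]
  intro q hq hqu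
  refine b.mem_of_dense fun r hr => ?_
  obtain ⟨x, hx, hxj⟩ := r.ne j
  refine ⟨r.upd j (r.c j ∩ u.1) ((r.clp j).inter u.2) ⟨x, ⟨hx, hqu ⟨hr j hx, hxj⟩⟩, hxj⟩,
    r.upd_le _ _ Set.inter_subset_left, h _ ((r.upd_le _ _ Set.inter_subset_left).trans
      (hr.trans hq)) ?_⟩
  rw [Cond.upd_self]
  exact Set.inter_subset_right

/-- The value at a new odd index is decided by the cylinder. -/
theorem claimA {E : Finset (Set Pt)} (hE : ∀ e ∈ E, IsClp e) {L0 : ℕ}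
    (hL0 : ∀ e ∈ E, Dep L0 e) {ψ : ℕ → RO Cond} (hψ : ∀ j, Inv E (ψ j)) {t : Cond} {y : Pt} {m : ℕ}
    (hm : m % 2 = 1) (hty : t.c m ⊆ cyl L0 y) {u : Clp} (htu : t ∈ ev m u)
    (hi : ∀ i, i % 2 = 1 → t ∈ ev i u ⇨ ψ i) {j : ℕ} (hj : j % 2 = 1) (hjt : j ∉ t.supp) :
    t ∈ ev j ⟨cyl L0 y, isClp_cyl L0 y⟩ ⇨ ψ j := by
  apply mem_ev_himp
  intro s hs hsj
  obtain ⟨x, hx, hxm⟩ := t.ne m
  have hxZ : x ∉ Z0 := notMem_of_odd hxm hm
  have hxj : x ∈ Tk j := Tk_of_odd hxZ hj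
  have hxu : x ∈ u.1 := htu ⟨hx, hxm⟩
  have hxy : x ∈ cyl L0 y := hty hx
  obtain ⟨Lu, hLu⟩ := u.2
  set L := max L0 Lu with hL
  have huniv : t.c j = Set.univ := Cond.notMem_supp.mp hjt
  set t' : Cond := t.upd j (cyl L x) (isClp_cyl L x) ⟨x, self_mem_cyl _ _, hxj⟩ with ht'
  have h1 : t' ≤ t := t.upd_le _ _ (by rw [huniv]; exact Set.subset_univ _)
  have h2 : t' ∈ ev j u := by
    apply mem_ev_of_subset
    rw [ht', Cond.upd_self]
    exact cyl_subset (hLu.mono (le_max_right _ _)) hxu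
  have h3 : t' ∈ ψ j := (RO.mem_himp.mp (hi j hj)) t' h1 h2
  have h4 := homog hE (hψ j) h3 (k := j) (c0 := cyl L0 y) (isClp_cyl L0 y) (by
      rw [ht', Cond.upd_self]
      intro z hz i hi
      rw [hz i (lt_of_lt_of_le hi (le_max_left _ _)), hxy i hi]) (fun e he => by
      by_cases h : y ∈ e
      · exact Or.inl (cyl_subset (hL0 e he) h)
      · exact Or.inr (cyl_subset (hL0 e he).compl h)) ⟨x, hxy, hxj⟩
  refine (ψ j).down h4 fun i => ?_
  by_cases hij : i = j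
  · subst hij
    rw [Cond.upd_self]
    exact hsj
  · rw [Cond.upd_ne _ _ _ _ hij, ht', Cond.upd_ne _ _ _ _ hij]
    exact hs i

theorem stepC {φ ψ : ℕ → RO Cond} {w : Clp} {p t : Cond} (htp : t ≤ p)
    (hdisj : ∀ k q, q ∈ φ k → q ∉ ψ k)
    (hop : ∀ j, j % 2 = 1 → ∀ q ≤ p, q ∈ ψ j → ∃ r ≤ q, ∃ u, r ∈ ev j u ∧
      ∀ i, i % 2 = 1 → r ∈ ev i u ⇨ ψ i)
    (hB : ∀ j, j % 2 = 1 → j ∉ t.supp → t ∈ ev j w ⇨ φ j) {j : ℕ} (hj : j % 2 = 1) {s : Cond}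
    (hs : s ≤ t) (hsw : s ∈ ev j w) : s ∉ ψ j := by
  classical
  intro hsψ
  obtain ⟨r, hr, u, hru, hri⟩ := hop j hj s (hs.trans htp) hsψ
  obtain ⟨x, hx, hxj⟩ := r.ne j
  have hxu : x ∈ u.1 := hru ⟨hx, hxj⟩
  have hxw : x ∈ w.1 := hsw ⟨hr j hx, hxj⟩
  obtain ⟨k, hk, hxk⟩ := exists_new (r.supp ∪ t.supp) x
  rw [Finset.mem_union, not_or] at hk
  have hkodd : k % 2 = 1 := odd_of_notMem hxk (notMem_of_odd hxj hj)
  have huniv : r.c k = Set.univ := Cond.notMem_supp.mp hk.1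
  have hle : r.upd k (u.1 ∩ w.1) (u.2.inter w.2) ⟨x, ⟨hxu, hxw⟩, hxk⟩ ≤ r :=
    r.upd_le _ _ (by rw [huniv]; exact Set.subset_univ _)
  refine hdisj k _ (RO.mem_himp.mp (hB k hkodd hk.2) _ (hle.trans (hr.trans hs)) ?_)
    (RO.mem_himp.mp (hri k hkodd) _ hle ?_)
  · apply mem_ev_of_subset
    rw [Cond.upd_self]
    exact Set.inter_subset_right
  · apply mem_ev_of_subset
    rw [Cond.upd_self]
    exact Set.inter_subset_left

/-- Clopen subsets of the open part are traces of clopen sets. -/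
theorem core2 {φ : ℕ → RO Cond} {E : Finset (Set Pt)} (hE : ∀ e ∈ E, IsClp e)
    (hφ : ∀ j, Inv E (φ j)) {p : Cond}
    (hop : ∀ j, j % 2 = 1 → ∀ q ≤ p, q ∈ φ j → ∃ r ≤ q, ∃ u, r ∈ ev j u ∧
      ∀ i, i % 2 = 1 → r ∈ ev i u ⇨ φ i)
    (hom : ∀ j, j % 2 = 1 → ∀ q ≤ p, q ∈ (φ j)ᶜ → ∃ r ≤ q, ∃ u, r ∈ ev j u ∧
      ∀ i, i % 2 = 1 → r ∈ ev i u ⇨ (φ i)ᶜ) {q : Cond} (hq : q ≤ p) :
    ∃ r ≤ q, ∃ w, ∀ j, j % 2 = 1 → r ∈ ev j w ⇨ φ j ∧ r ∈ ev j (Clp.cpl w) ⇨ (φ j)ᶜ := by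
  classical
  obtain ⟨L0, -, -, -, hL0⟩ := exists_level ∅ E hE 0
  obtain ⟨Q, hQodd, hQ⟩ := exists_odd_reps L0
  obtain ⟨q1, hq1, κ, hκ⟩ := exists_reps_cond L0 q Q
  have hκodd : ∀ y ∈ Q, κ y % 2 = 1 := fun y hy => odd_of_notMem (hκ y hy).1 (hQodd y hy)
  have hdec : ∀ Q' : Finset Pt, Q' ⊆ Q → ∃ t ≤ q1, ∃ (σ : Pt → Prop) (U : Pt → Clp), ∀ y ∈ Q',
      t ∈ ev (κ y) (U y) ∧ ((σ y ∧ ∀ i, i % 2 = 1 → t ∈ ev i (U y) ⇨ φ i) ∨
        (¬ σ y ∧ ∀ i, i % 2 = 1 → t ∈ ev i (U y) ⇨ (φ i)ᶜ)) := by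
    intro Q'
    induction Q' using Finset.induction_on with
    | empty => exact fun _ => ⟨q1, le_rfl, fun _ => True, fun _ => Clp.top, by simp⟩
    | insert a Q' ha ih =>
      intro hsub
      obtain ⟨t, ht, σ, U, hσ⟩ := ih fun y hy => hsub (Finset.mem_insert_of_mem hy)
      have haodd := hκodd a (hsub (Finset.mem_insert_self _ _))
      have hdich : ∃ r ≤ t, ∃ u, r ∈ ev (κ a) u ∧ ((∀ i, i % 2 = 1 → r ∈ ev i u ⇨ φ i) ∨
          (∀ i, i % 2 = 1 → r ∈ ev i u ⇨ (φ i)ᶜ)) := by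
        by_cases h : ∃ t' ≤ t, t' ∈ φ (κ a)
        · obtain ⟨t', ht', h'⟩ := h
          obtain ⟨r, hr, u, h1, h2⟩ := hop _ haodd t' (ht'.trans (ht.trans (hq1.trans hq))) h'
          exact ⟨r, hr.trans ht', u, h1, Or.inl h2⟩
        · push Not at h
          obtain ⟨r, hr, u, h1, h2⟩ := hom _ haodd t (ht.trans (hq1.trans hq)) h
          exact ⟨r, hr, u, h1, Or.inr h2⟩
      obtain ⟨r, hr, u, h1, h2⟩ := hdich
      refine ⟨r, hr.trans ht, Function.update σ a (∀ i, i % 2 = 1 → r ∈ ev i u ⇨ φ i),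
        Function.update U a u, fun y hy => ?_⟩
      by_cases hya : y = a
      · subst hya
        rw [Function.update_self, Function.update_self]
        refine ⟨h1, ?_⟩
        by_cases h3 : ∀ i, i % 2 = 1 → r ∈ ev i u ⇨ φ i
        · exact Or.inl ⟨h3, h3⟩
        · exact Or.inr ⟨h3, h2.resolve_left h3⟩
      · rw [Function.update_of_ne hya, Function.update_of_ne hya]
        obtain ⟨h3, h4⟩ := hσ y ((Finset.mem_insert.mp hy).resolve_left hya)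
        refine ⟨(ev _ _).down h3 hr, ?_⟩
        rcases h4 with ⟨h4, h5⟩ | ⟨h4, h5⟩
        · exact Or.inl ⟨h4, fun i hi => (_ : RO Cond).down (h5 i hi) hr⟩
        · exact Or.inr ⟨h4, fun i hi => (_ : RO Cond).down (h5 i hi) hr⟩
  obtain ⟨t, ht, σ, U, hσ⟩ := hdec Q subset_rfl
  have hun : ∀ Q' : Finset Pt, ∃ v : Clp, ∀ a, a ∈ v.1 ↔ ∃ y ∈ Q', σ y ∧ a ∈ cyl L0 y := by
    intro Q'
    induction Q' using Finset.induction_on with
    | empty =>
      refine ⟨Clp.bot, fun a => ?_⟩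
      simp [Clp.bot]
    | insert a Q' ha ih =>
      obtain ⟨v, hv⟩ := ih
      by_cases hσa : σ a
      · refine ⟨Clp.sup ⟨cyl L0 a, isClp_cyl L0 a⟩ v, fun b => ?_⟩
        change b ∈ cyl L0 a ∪ v.1 ↔ _
        rw [Set.mem_union, hv]
        simp [hσa]
      · refine ⟨v, fun b => ?_⟩
        rw [hv]
        simp [hσa]
  obtain ⟨w, hw⟩ := hun Q
  have htp : t ≤ p := ht.trans (hq1.trans hq)
  -- new indices
  have hB : ∀ j, j % 2 = 1 → j ∉ t.supp → t ∈ ev j w ⇨ φ j := by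
    intro j hj hjt
    apply mem_ev_himp
    intro s hs hsj
    refine (φ j).mem_of_dense fun r hr => ?_
    obtain ⟨x, hx, hxj⟩ := r.ne j
    obtain ⟨y, hy, hσy, hxy⟩ := (hw x).mp (hsj (hr j hx))
    obtain ⟨h1, h2⟩ := hσ y hy
    have h3 := (h2.resolve_right fun h => h.1 hσy).2
    have h4 := claimA hE hL0 hφ (hκodd y hy) (Set.Subset.trans (ht _) (hκ y hy).2) h1 h3 hj hjt
    have hle : r.upd j (r.c j ∩ cyl L0 y) ((r.clp j).inter (isClp_cyl _ _)) ⟨x, ⟨hx, hxy⟩, hxj⟩ ≤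
      r := r.upd_le _ _ Set.inter_subset_left
    refine ⟨_, hle, RO.mem_himp.mp h4 _ (hle.trans (hr.trans hs)) ?_⟩
    apply mem_ev_of_subset
    rw [Cond.upd_self]
    exact Set.inter_subset_right
  have hB' : ∀ j, j % 2 = 1 → j ∉ t.supp → t ∈ ev j (Clp.cpl w) ⇨ (φ j)ᶜ := by
    intro j hj hjt
    apply mem_ev_himp
    intro s hs hsj
    refine ((φ j)ᶜ).mem_of_dense fun r hr => ?_
    obtain ⟨x, hx, hxj⟩ := r.ne j
    obtain ⟨y, hy, hxy⟩ := hQ x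
    have hσy : ¬ σ y := fun h => hsj (hr j hx) ((hw x).mpr ⟨y, hy, h, hxy⟩)
    obtain ⟨h1, h2⟩ := hσ y hy
    have h3 := (h2.resolve_left fun h => hσy h.1).2
    have h4 := claimA hE hL0 (fun j => (hφ j).compl) (hκodd y hy)
      (Set.Subset.trans (ht _) (hκ y hy).2) h1 h3 hj hjt
    have hle : r.upd j (r.c j ∩ cyl L0 y) ((r.clp j).inter (isClp_cyl _ _)) ⟨x, ⟨hx, hxy⟩, hxj⟩ ≤
      r := r.upd_le _ _ Set.inter_subset_left
    refine ⟨_, hle, RO.mem_himp.mp h4 _ (hle.trans (hr.trans hs)) ?_⟩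
    apply mem_ev_of_subset
    rw [Cond.upd_self]
    exact Set.inter_subset_right
  refine ⟨t, ht.trans hq1, w, fun j hj => ⟨?_, ?_⟩⟩
  · rw [RO.mem_himp]
    intro s hs hsw
    by_contra hcon
    have h1 : ∃ s1 ≤ s, s1 ∈ (φ j)ᶜ := by
      by_contra h2
      push Not at h2
      apply hcon
      refine (φ j).mem_of_dense fun s1 hs1 => ?_
      have h3 := h2 s1 hs1
      rw [RO.mem_compl] at h3
      push Not at h3
      exact h3
    obtain ⟨s1, hs1, h1⟩ := h1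
    exact stepC htp (fun k q hq hq' => (RO.mem_compl.mp hq') q le_rfl hq) hom hB hj
      (hs1.trans hs) ((ev j w).down hsw hs1) h1
  · rw [RO.mem_himp]
    intro s hs hsw
    rw [RO.mem_compl]
    intro s1 hs1 h1
    exact stepC (φ := fun k => (φ k)ᶜ) htp (fun k q hq hq' => (RO.mem_compl.mp hq) q le_rfl hq')
      hop hB' hj (hs1.trans hs) ((ev j _).down hsw hs1) h1

/-- There is no injection of the natural numbers into the traces on `Z0`. -/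
theorem core3 {ρ : ℕ → Clp → RO Cond} {E : Finset (Set Pt)} (hE : ∀ e ∈ E, IsClp e)
    (hρ : ∀ n, EqI E (ρ n)) {p : Cond} (htot : ∀ n, ∀ q ≤ p, ∃ r ≤ q, ∃ u, r ∈ ρ n u)
    (hfun : ∀ n u v, ∀ q ≤ p, q ∈ ρ n u → q ∈ ρ n v → u.1 ∩ Z0 = v.1 ∩ Z0)
    (hinj : ∀ n m u v, ∀ q ≤ p, q ∈ ρ n u → q ∈ ρ m v → u.1 ∩ Z0 = v.1 ∩ Z0 → n = m) : False := by
  classical
  have claim : ∀ n u, ∀ q ≤ p, q ∈ ρ n u → ∀ y ∈ u.1 ∩ Z0, ∀ z ∈ Z0,
      (∀ e ∈ E, (y ∈ e ↔ z ∈ e)) → z ∈ u.1 := by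
    intro n u q hq hqu y hy z hz hyz
    by_contra hzu
    set F := q.supp with hF
    obtain ⟨x, hx, hinj'⟩ := exists_points q F ∅
    obtain ⟨L1, -, -, -, hL1⟩ := exists_level ∅ (E ∪ {u.1}) (by
      intro v hv
      rcases Finset.mem_union.mp hv with hv | hv
      · exact hE v hv
      · rw [Finset.mem_singleton.mp hv]
        exact u.2) 0
    have hdE1 : ∀ e ∈ E, Dep L1 e := fun e he => hL1 e (Finset.mem_union_left _ he)
    have hdu1 : Dep L1 u.1 := hL1 _ (Finset.mem_union_right _ (Finset.mem_singleton_self _))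
    obtain ⟨y', hy', hy'F⟩ := (infinite_type (isClp_cyl L1 y)
      (self_mem_cyl L1 y)).exists_notMem_finset (F.image x)
    obtain ⟨z', hz', hz'F⟩ := (infinite_type (isClp_cyl L1 z)
      (self_mem_cyl L1 z)).exists_notMem_finset (F.image x)
    have hy'Z : y' ∈ Z0 := hy'.2.mp hy.2
    have hz'Z : z' ∈ Z0 := hz'.2.mp hz
    have hy'u : y' ∈ u.1 := (hdu1.iff hy'.1).mpr hy.1
    have hz'u : z' ∉ u.1 := fun h => hzu ((hdu1.iff hz'.1).mp h)
    obtain ⟨L, -, hL2, hL3, hL4⟩ := exists_level (F.image x ∪ {y', z'})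
      (E ∪ {u.1} ∪ F.image q.c) (by
      intro v hv
      simp only [Finset.mem_union, Finset.mem_singleton, Finset.mem_image] at hv
      rcases hv with (hv | rfl) | ⟨j, _, rfl⟩
      · exact hE v hv
      · exact u.2
      · exact q.clp j) 0
    have hyQ : y' ∈ F.image x ∪ {y', z'} := by simp
    have hzQ : z' ∈ F.image x ∪ {y', z'} := by simp
    have hxQ : ∀ j ∈ F, x j ∈ F.image x ∪ {y', z'} := fun j hj =>
      Finset.mem_union_left _ (Finset.mem_image_of_mem _ hj)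
    let g : Gam := swG L y' z' ⟨fun _ => hz'Z, fun _ => hy'Z⟩ (hL3 _ hyQ) (hL3 _ hzQ)
    have hgE : g ∈ fixG E := by
      refine swG_mem_fixG (fun e he => hL4 e (by simp [he])) fun e he => ?_
      rw [(hdE1 e he).iff hy'.1, (hdE1 e he).iff hz'.1]
      exact hyz e he
    let s : Cond := Cond.cylC F x (fun j hj => (hx j hj).2.1) L
    have hsq : s ≤ q := Cond.cylC_le (fun j hj => Cond.notMem_supp.mp hj)
      (fun j hj => (hx j hj).1) (fun j hj => hL4 _ (by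
        simp only [Finset.mem_union, Finset.mem_image]
        exact Or.inr ⟨j, hj, rfl⟩))
    have hsg : s ≤ Cond.map g s := by
      intro j
      rw [Cond.map_c]
      by_cases hj : j ∈ F
      · rw [Cond.cylC_mem hj, swG_image, swp_cyl_other]
        · exact hL2 _ (hxQ j hj) _ hyQ fun h => hy'F (by
            rw [← h]
            exact Finset.mem_image_of_mem _ hj)
        · exact hL2 _ (hxQ j hj) _ hzQ fun h => hz'F (by
            rw [← h]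
            exact Finset.mem_image_of_mem _ hj)
      · have : s.c j = Set.univ := if_neg hj
        rw [this, Set.image_univ, g.1.surjective.range_eq]
    have h1 : s ∈ ρ n u := (ρ n u).down hqu hsq
    have h2 : s ∈ ρ n (Clp.map g u) := (ρ n _).down (hρ n g hgE u s h1) hsg
    have h3 := hfun n _ _ s (hsq.trans hq) h1 h2
    have h4 : z' ∈ (Clp.map g u).1 :=
      cyl_subset_swp (hL4 _ (by simp)) hy'u (self_mem_cyl L z')
    have h5 : z' ∈ u.1 ∩ Z0 := by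
      rw [h3]
      exact ⟨h4, hz'Z⟩
    exact hz'u h5.1
  have hmany : ∀ N : ℕ, ∃ r ≤ p, ∃ u : ℕ → Clp, ∀ n < N, r ∈ ρ n (u n) := by
    intro N
    induction N with
    | zero => exact ⟨p, le_rfl, fun _ => Clp.top, by simp⟩
    | succ N ih =>
      obtain ⟨r, hr, u, hu⟩ := ih
      obtain ⟨r', hr', v, hv⟩ := htot N r hr
      refine ⟨r', hr'.trans hr, Function.update u N v, fun n hn => ?_⟩
      by_cases hnN : n = N
      · subst hnN
        rwa [Function.update_self]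
      · rw [Function.update_of_ne hnN]
        exact (ρ n _).down (hu n (by omega)) hr'
  let pat : Clp → Set ({e // e ∈ E} → Prop) := fun u =>
    {π | ∃ y ∈ u.1 ∩ Z0, ∀ e : {e // e ∈ E}, π e ↔ y ∈ e.1}
  obtain ⟨r, hr, u, hu⟩ := hmany (Fintype.card (Set ({e // e ∈ E} → Prop)) + 1)
  obtain ⟨n, m, hnm, hpat⟩ := Fintype.exists_ne_map_eq_of_card_lt
    (fun n : Fin (Fintype.card (Set ({e // e ∈ E} → Prop)) + 1) => pat (u n)) (by simp)
  have hsub : ∀ n m : Fin (Fintype.card (Set ({e // e ∈ E} → Prop)) + 1),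
      pat (u n) = pat (u m) → (u n).1 ∩ Z0 ⊆ (u m).1 ∩ Z0 := by
    intro n m h z hz
    have h1 : (fun e : {e // e ∈ E} => z ∈ e.1) ∈ pat (u n) := ⟨z, hz, fun e => Iff.rfl⟩
    rw [h] at h1
    obtain ⟨y, hy, hye⟩ := h1
    exact ⟨claim m (u m) r hr (hu m m.2) y hy z hz.2 fun e he => (hye ⟨e, he⟩).symm, hz.2⟩
  exact hnm (Fin.ext (hinj n m (u n) (u m) r hr (hu n n.2) (hu m m.2)
    ((hsub n m hpat).antisymm (hsub m n hpat.symm))))

end Pool.Agent.Lib.MP_5ed4ef_gt
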