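import Pool.Agent.Lib.MP_5db68c_lc.Nat

/-!
# Remainders of locally compact spaces inside models of ZF: definitions

All notions are *internal* to a structure `(M, ∈)`: they quantify over the elements of `M` only and
all functions are required to belong to `M` (`FunIn`). The notions `ModelZF`, `El`, `FunIn`,
`IsOmega`, `FiniteIn`, `IsTopology`, `IsCompactIn`, `IsHausdorffIn` are those of
`Pool.Agent.Lib.MP_5db68c_lc.Defs`.
-/

set_option autoImplicit false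

universe u

namespace Pool.Agent.Lib.MP_5ed4ef_gt

open Pool.Agent.MP_5db68c_lc

variable {M : Type u} [Membership M M]

/-- `A` is a subset of `X` and `s` is the subspace topology on `A` induced by the topology `t`
of `X`. -/
structure IsSubspace (X t A s : M) : Prop where
  subset : ∀ x : M, x ∈ A → x ∈ X
  topology : ∀ V : M, V ∈ s ↔ ∃ U : M, U ∈ t ∧ ∀ x : M, x ∈ V ↔ x ∈ U ∧ x ∈ A

/-- `(X, t)` is locally compact: for every point `x` of an open set `U` there are an open set `V`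
and a compact set `A` with `x ∈ V ⊆ A ⊆ U`. (So every point has a compact neighbourhood; for
Hausdorff spaces the two forms are equivalent, and this is the formally strongest one.) -/
def IsLocallyCompactIn (X t : M) : Prop :=
  ∀ x U : M, U ∈ t → x ∈ U → ∃ V A s : M, V ∈ t ∧ x ∈ V ∧ (∀ y : M, y ∈ V → y ∈ A) ∧
    (∀ y : M, y ∈ A → y ∈ U) ∧ IsSubspace X t A s ∧ IsCompactIn A s

/-- The spaces `(X, t)` and `(Y, s)` are homeomorphic (in `M`). -/
def Homeo (X t Y s : M) : Prop :=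
  ∃ f : El X → El Y, FunIn (fun x => (f x).1) ∧ Function.Bijective f ∧
    ∀ U V : M, (∀ x : M, x ∈ U → x ∈ X) →
      (∀ y : M, y ∈ V ↔ ∃ x : El X, x.1 ∈ U ∧ (f x).1 = y) → (U ∈ t ↔ V ∈ s)

/-- `((K, τ), h)` is a Hausdorff compactification of `(X, t)` (in `M`): `(K, τ)` is a compact
Hausdorff space and `h` is a homeomorphic embedding of `X` onto a dense subspace of `K`. -/
structure IsCompactification (X t K τ : M) (h : El X → El K) : Prop where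
  top : IsTopology K τ
  compact : IsCompactIn K τ
  hausdorff : IsHausdorffIn K τ
  fun_in : FunIn (fun x => (h x).1)
  injective : Function.Injective h
  embedding : ∀ U : M, U ∈ t ↔ (∀ x : M, x ∈ U → x ∈ X) ∧
    ∃ V : M, V ∈ τ ∧ ∀ x : El X, x.1 ∈ U ↔ (h x).1 ∈ V
  dense : ∀ V : M, V ∈ τ → (∃ y : M, y ∈ V) → ∃ x : El X, (h x).1 ∈ V

/-- `(Y, s)` is a remainder of `(X, t)` (in `M`): it is homeomorphic to the subspace `K \ h[X]` of
`K` for some Hausdorff compactification `(K, h)` of `X`. -/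
def IsRemainder (Y s X t : M) : Prop :=
  ∃ (K τ : M) (h : El X → El K), IsCompactification X t K τ h ∧
    ∃ T σ : M, (∀ y : M, y ∈ T ↔ y ∈ K ∧ ∀ x : El X, (h x).1 ≠ y) ∧ IsSubspace K τ T σ ∧
      Homeo T σ Y s

/-- `Y` is denumerable in `M`: some bijection belonging to `M` maps `ω` onto `Y`. -/
def Denumerable (Y : M) : Prop :=
  ∃ w : M, IsOmega w ∧ ∃ f : El w → El Y, FunIn (fun x => (f x).1) ∧ Function.Bijective f

/-- `(X, t)` has a denumerable remainder (in `M`). -/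
def HasDenumerableRemainder (X t : M) : Prop :=
  ∃ Y s : M, IsTopology Y s ∧ IsRemainder Y s X t ∧ Denumerable Y

/-- `(Y, s)` is the one-point compactification `ℕ(∞)` of the discrete space of natural numbers
of `M`, the point at infinity being the set `ω` itself: `Y = ω ∪ {ω}`, and a subset `U` of `Y` is
open iff `ω ∉ U` or `ω \ U` is finite. -/
def IsNInf (Y s : M) : Prop :=
  ∃ w : M, IsOmega w ∧ (∀ y : M, y ∈ Y ↔ y ∈ w ∨ y = w) ∧
    ∀ U : M, U ∈ s ↔ (∀ x : M, x ∈ U → x ∈ Y) ∧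
      (w ∈ U → ∃ F : M, (∀ x : M, x ∈ F ↔ x ∈ w ∧ x ∉ U) ∧ FiniteIn F)

/-- The properties of the base `B` of the topology on `W = ω`, with `W` the disjoint union of `X`
and `R`, that are used in the proof. (This structure is used in the proof only.) -/
structure Good (W X R B : M) : Prop where
  omega : IsOmega W
  mem_W : ∀ k : M, k ∈ W ↔ k ∈ X ∨ k ∈ R
  disj : ∀ k : M, k ∈ X → k ∉ R
  denum : ∃ f : El W → El R, FunIn (fun x => (f x).1) ∧ Function.Bijective f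
  sub : ∀ D : M, D ∈ B → ∀ k : M, k ∈ D → k ∈ W
  whole : W ∈ B
  compl : ∀ D D' : M, D ∈ B → (∀ k : M, k ∈ D' ↔ k ∈ W ∧ k ∉ D) → D' ∈ B
  inter : ∀ D D' D'' : M, D ∈ B → D' ∈ B → (∀ k : M, k ∈ D'' ↔ k ∈ D ∧ k ∈ D') → D'' ∈ B
  sep : ∀ k l : M, k ∈ W → l ∈ W → k ≠ l → ∃ D : M, D ∈ B ∧ k ∈ D ∧ l ∉ D
  dense : ∀ D : M, D ∈ B → (∃ k : M, k ∈ D) → ∃ k : M, k ∈ X ∧ k ∈ D
  open_X : ∀ k : M, k ∈ X → ∃ D : M, D ∈ B ∧ k ∈ D ∧ ∀ l : M, l ∈ R → l ∉ D
  core1 : ∀ I : M, (∀ D : M, D ∈ I → D ∈ B) →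
    (∀ D D' : M, D ∈ I → D' ∈ B → (∀ k : M, k ∈ D' → k ∈ D) → D' ∈ I) →
    (∀ D D' D'' : M, D ∈ I → D' ∈ I → (∀ k : M, k ∈ D'' ↔ k ∈ D ∨ k ∈ D') → D'' ∈ I) →
    (∀ k : M, k ∈ W → ∃ D : M, D ∈ I ∧ k ∈ D) → W ∈ I
  core2 : ∀ C : M,
    (∀ k : M, k ∈ X → k ∈ C → ∃ D : M, D ∈ B ∧ k ∈ D ∧ ∀ l : M, l ∈ X → l ∈ D → l ∈ C) →
    (∀ k : M, k ∈ X → k ∉ C → ∃ D : M, D ∈ B ∧ k ∈ D ∧ ∀ l : M, l ∈ X → l ∈ D → l ∉ C) →
    ∃ D : M, D ∈ B ∧ ∀ k : M, k ∈ X → (k ∈ C ↔ k ∈ D)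
  core3 : ∀ P : M → M → Prop, D2 P → (∀ n : M, n ∈ W → ∃ D : M, D ∈ B ∧ P n D) →
    (∀ n D D' : M, n ∈ W → D ∈ B → D' ∈ B → P n D → P n D' → ∀ k : M, k ∈ R → (k ∈ D ↔ k ∈ D')) →
    (∀ n m D D' : M, n ∈ W → m ∈ W → D ∈ B → D' ∈ B → P n D → P m D' →
      (∀ k : M, k ∈ R → (k ∈ D ↔ k ∈ D')) → n = m) → False

end Pool.Agent.Lib.MP_5ed4ef_gt
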