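import Pool.Agent.Lib.MP_5ed4ef_gt.Names

/-!
# The forced statements
-/

set_option autoImplicit false

namespace Pool.Agent.Lib.MP_5ed4ef_gt

open Pool.Agent.Lib.SymModel Pool.Agent.MPa4e7db Pool.Agent.MP_5db68c_lc

theorem mem_down {b : RO Cond} {p q : Cond} (h : p ∈ b) (hq : q ≤ p) : q ∈ b := b.down h hq

/-! ### Simple facts -/

/-- `∃ D ∈ B, k ∈ D ∧ l ∉ D`. -/
def Fsep : Fml := fex (.and (.mem 0 3) (.and (.mem 1 0) (.neg (.mem 2 0))))

theorem force_sep {k l : ℕ} (h : k ≠ l) (p : Cond) :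
    p ∈ val Fsep (push (nN k) (push (nN l) fun _ => bN)) := by
  classical
  unfold Fsep
  rw [mem_val_ex]
  intro q _
  obtain ⟨x, hx, hinj⟩ := exists_points q (q.supp ∪ {k, l}) ∅
  have hk : k ∈ q.supp ∪ {k, l} := by simp
  have hl : l ∈ q.supp ∪ {k, l} := by simp
  obtain ⟨L, -, h1, -, h3⟩ := exists_level ((q.supp ∪ {k, l}).image x)
    ((q.supp ∪ {k, l}).image q.c) (by
      intro u hu
      obtain ⟨j, _, rfl⟩ := Finset.mem_image.mp hu
      exact q.clp j) 0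
  set s : Cond := Cond.cylC (q.supp ∪ {k, l}) x (fun j hj => (hx j hj).2.1) L with hs
  refine ⟨s, Cond.cylC_le (fun j hj => Cond.notMem_supp.mp fun h => hj (Finset.mem_union_left _ h))
      (fun j hj => (hx j hj).1) (fun j hj => h3 _ (Finset.mem_image_of_mem _ hj)),
    dN ⟨cyl L (x k), isClp_cyl _ _⟩, mem_val_and.mpr ⟨dN_mem_bN _ _, mem_val_and.mpr ⟨?_, ?_⟩⟩⟩
  · change s ∈ mN (nN k) (dN ⟨cyl L (x k), isClp_cyl _ _⟩)
    rw [mN_nN_dN]
    apply mem_ev_of_subset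
    rw [hs, Cond.cylC_mem hk]
  · change s ∈ (mN (nN l) (dN ⟨cyl L (x k), isClp_cyl _ _⟩))ᶜ
    rw [mN_nN_dN, ← ev_cpl]
    apply mem_ev_of_subset
    rw [hs, Cond.cylC_mem hl]
    intro y hy
    exact disjoint_cyl (h1 _ (Finset.mem_image_of_mem _ hl) _ (Finset.mem_image_of_mem _ hk)
      fun h2 => h (hinj k hk l hl h2.symm)) hy

/-- `∃ k ∈ X, k ∈ D`. -/
def Fdense : Fml := fex (.and (.mem 0 2) (.mem 0 1))

theorem force_dense {u : Clp} (hu : u.1.Nonempty) (p : Cond) :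
    p ∈ val Fdense (push (dN u) fun _ => pN 1) := by
  unfold Fdense
  rw [mem_val_ex]
  intro q _
  obtain ⟨x, hx⟩ := hu
  obtain ⟨y, hy, hyZ⟩ := exists_notMem_Z0 u.2 hx
  obtain ⟨k, hk, hyk⟩ := exists_new q.supp y
  have huniv : q.c k = Set.univ := Cond.notMem_supp.mp hk
  refine ⟨q.upd k u.1 u.2 ⟨y, hy, hyk⟩, q.upd_le _ _ (by rw [huniv]; exact Set.subset_univ _),
    nN k, mem_val_and.mpr ⟨nN_mem_pN _ (odd_of_notMem hyk hyZ), ?_⟩⟩
  change _ ∈ mN (nN k) (dN u)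
  rw [mN_nN_dN]
  apply mem_ev_of_subset
  exact (Cond.upd_self _ _ _ _ _).subset

/-- `∃ D ∈ B, k ∈ D ∧ ∀ l ∈ R, l ∉ D`. -/
def Fopen : Fml :=
  fex (.and (.mem 0 2) (.and (.mem 1 0) (.all (fimp (.mem 0 4) (.neg (.mem 0 1))))))

theorem force_open {k : ℕ} (hk : k % 2 = 1) (p : Cond) :
    p ∈ val Fopen (push (nN k) (push bN fun _ => pN 0)) := by
  classical
  unfold Fopen
  rw [mem_val_ex]
  intro q _
  obtain ⟨x, hx, hxk⟩ := q.ne k
  have hxZ : x ∉ Z0 := notMem_of_odd hxk hk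
  obtain ⟨L, -, -, h2, -⟩ := exists_level {x} ∅ (by simp) 0
  have hvis := h2 x (Finset.mem_singleton_self _)
  obtain ⟨i, hi, hi2⟩ := hvis.resolve_left hxZ
  have hle : q.upd k (q.c k ∩ cyl L x) ((q.clp k).inter (isClp_cyl _ _))
    ⟨x, ⟨hx, self_mem_cyl _ _⟩, hxk⟩ ≤ q := q.upd_le _ _ Set.inter_subset_left
  refine ⟨_, hle, dN ⟨cyl L x, isClp_cyl _ _⟩, mem_val_and.mpr ⟨dN_mem_bN _ _,
    mem_val_and.mpr ⟨?_, ?_⟩⟩⟩
  · change _ ∈ mN (nN k) (dN ⟨cyl L x, isClp_cyl _ _⟩)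
    rw [mN_nN_dN]
    apply mem_ev_of_subset
    exact (Cond.upd_self _ _ _ _ _).subset.trans Set.inter_subset_right
  · rw [mem_val_all]
    intro t
    rw [mem_val_imp]
    intro r hr hrt
    rw [mem_val_neg]
    intro s hs hst
    have h1 : r ∈ mN t (pN 0) := hrt
    have h2 : s ∈ mN t (dN ⟨cyl L x, isClp_cyl _ _⟩) := hst
    obtain ⟨s1, hs1, l, hl, h3⟩ := (mem_mN_pN.mp h1) s hs
    have h4 : s1 ∈ mN (nN l) (dN ⟨cyl L x, isClp_cyl _ _⟩) :=
      mem_mN_congr (mem_down h2 hs1) h3 (mem_eN_self _ _)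
    rw [mN_nN_dN] at h4
    obtain ⟨y, hy, hyl⟩ := s1.ne l
    have hyZ : y ∈ Z0 := hyl.mpr hl
    have h5 : y ∈ cyl L x := h4 ⟨hy, hyl⟩
    have h6 := h5 _ hi
    rw [hyZ i, hi2] at h6
    exact absurd h6 (by simp)

/-! ### Compactness -/

/-- The ideal is closed downwards. -/
def F1dn : Fml := .all (.all (fimp (.mem 1 2) (fimp (.mem 0 3)
  (fimp (.all (fimp (.mem 0 1) (.mem 0 2))) (.mem 0 2)))))

/-- The ideal is closed under unions. -/
def F1jn : Fml := .all (.all (.all (fimp (.mem 2 3) (fimp (.mem 1 3)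
  (fimp (.all (fiff (.mem 0 1) (for' (.mem 0 3) (.mem 0 2)))) (.mem 0 3))))))

/-- The ideal covers the space. -/
def F1cv : Fml := .all (fimp (.mem 0 3) (fex (.and (.mem 0 3) (.and (.mem 0 2) (.mem 1 0)))))

theorem exists_support (J : NS sys) : ∃ E : Finset (Set Pt), (∀ e ∈ E, IsClp e) ∧
    fixG E ≤ J.sym := J.good_sym

theorem eN_smul_of_mem {J : NS sys} {g : Gam} (hg : g ∈ J.sym) : eN (NS.smul g J) J = ⊤ :=
  NS.mem_sym.mp hg

theorem force_core1 {J : NS sys} {p : Cond}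
    (hdn : p ∈ val F1dn (push J (push bN fun _ => oN)))
    (hjn : p ∈ val F1jn (push J (push bN fun _ => oN)))
    (hcv : p ∈ val F1cv (push J (push bN fun _ => oN))) : p ∈ mN (dN Clp.top) J := by
  obtain ⟨E, hE, hEJ⟩ := exists_support J
  refine core1 (I := fun u => mN (dN u) J) hE ?_ ?_ ?_ ?_
  · intro g hg u q hq
    have h1 := mem_act_map (g := g) hq
    have h2 : sys.act g (mN (dN u) J) = mN (dN (Clp.map g u)) J := by
      rw [← mN_smul, smul_dN]
      exact mN_eq_of_eN_top (eqB_refl _) (eN_smul_of_mem (hEJ hg))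
    rw [h2] at h1
    exact h1
  · intro u v huv q hq hqv
    unfold F1dn at hdn
    have h1 := mem_val_all.mp (mem_val_all.mp hdn (dN v)) (dN u)
    have h2 := mem_val_imp.mp h1 q hq hqv
    have h3 := mem_val_imp.mp h2 q le_rfl (dN_mem_bN q u)
    refine mem_val_imp.mp h3 q le_rfl ?_
    rw [mem_val_all]
    intro t
    rw [mem_val_imp]
    intro r _ hrt
    exact subset_of_forces huv hrt
  · intro u v q hq hqu hqv
    unfold F1jn at hjn
    have h1 := mem_val_all.mp (mem_val_all.mp (mem_val_all.mp hjn (dN u)) (dN v))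
      (dN (Clp.sup u v))
    have h2 := mem_val_imp.mp h1 q hq hqu
    have h3 := mem_val_imp.mp h2 q le_rfl hqv
    refine mem_val_imp.mp h3 q le_rfl ?_
    rw [mem_val_all]
    intro t
    rw [mem_val_iff]
    intro r _
    rw [mem_val_or]
    exact mem_mN_sup
  · intro k q hq
    unfold F1cv at hcv
    have h1 := mem_val_all.mp hcv (nN k)
    have h2 := mem_val_imp.mp h1 q hq (nN_mem_oN q k)
    rw [mem_val_ex] at h2
    obtain ⟨r, hr, t, ht⟩ := h2 q le_rfl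
    obtain ⟨h3, h4⟩ := mem_val_and.mp ht
    obtain ⟨h5, h6⟩ := mem_val_and.mp h4
    have h3' : r ∈ mN t bN := h3
    have h5' : r ∈ mN t J := h5
    have h6' : r ∈ mN (nN k) t := h6
    obtain ⟨s, hs, u, hu⟩ := mem_mN_bN.mp h3' r le_rfl
    refine ⟨s, hs.trans hr, u, ?_, ?_⟩
    · exact mem_mN_congr (mem_down h5' hs) hu (mem_eN_self _ _)
    · rw [← mN_nN_dN]
      exact mem_mN_congr (mem_down h6' hs) (mem_eN_self _ _) hu

/-! ### Clopen subsets of the open part -/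

/-- `C` is open. -/
def F2op : Fml := .all (fimp (.mem 0 3) (fimp (.mem 0 1) (fex (.and (.mem 0 3) (.and (.mem 1 0)
  (.all (fimp (.mem 0 5) (fimp (.mem 0 1) (.mem 0 3)))))))))

/-- `C` is closed. -/
def F2om : Fml := .all (fimp (.mem 0 3) (fimp (.neg (.mem 0 1)) (fex (.and (.mem 0 3)
  (.and (.mem 1 0) (.all (fimp (.mem 0 5) (fimp (.mem 0 1) (.neg (.mem 0 3))))))))))

/-- `C` is the trace of some element of the base. -/
def F2c : Fml := fex (.and (.mem 0 2) (.all (fimp (.mem 0 4) (fiff (.mem 0 2) (.mem 0 1)))))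

theorem force_core2 {C : NS sys} {p : Cond}
    (hop : p ∈ val F2op (push C (push bN fun _ => pN 1)))
    (hom : p ∈ val F2om (push C (push bN fun _ => pN 1))) :
    p ∈ val F2c (push C (push bN fun _ => pN 1)) := by
  obtain ⟨E, hE, hEC⟩ := exists_support C
  have hφ : ∀ j, Inv E (mN (nN j) C) := by
    intro j g hg q hq
    have h1 := mem_act_map (g := g) hq
    have h2 : sys.act g (mN (nN j) C) = mN (nN j) C := by
      rw [← mN_smul, smul_nN]
      exact mN_eq_of_eN_top (eqB_refl _) (eN_smul_of_mem (hEC hg))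
    rw [h2] at h1
    exact h1
  unfold F2c
  rw [mem_val_ex]
  intro q hq
  obtain ⟨r, hr, w, hw⟩ := core2 (φ := fun j => mN (nN j) C) hE hφ (p := p) (by
    intro j hj q hq hqj
    unfold F2op at hop
    have h1 := mem_val_imp.mp (mem_val_all.mp hop (nN j)) q hq (nN_mem_pN q hj)
    have h2 := mem_val_imp.mp h1 q le_rfl hqj
    rw [mem_val_ex] at h2
    obtain ⟨r, hr, t, ht⟩ := h2 q le_rfl
    obtain ⟨h3, h4⟩ := mem_val_and.mp ht
    obtain ⟨h5, h6⟩ := mem_val_and.mp h4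
    have h3' : r ∈ mN t bN := h3
    have h5' : r ∈ mN (nN j) t := h5
    obtain ⟨s, hs, u, hu⟩ := mem_mN_bN.mp h3' r le_rfl
    refine ⟨s, hs.trans hr, u, ?_, fun i hi => ?_⟩
    · rw [← mN_nN_dN]
      exact mem_mN_congr (mem_down h5' hs) (mem_eN_self _ _) hu
    · rw [RO.mem_himp]
      intro s1 hs1 hs1u
      rw [← mN_nN_dN] at hs1u
      have h7 := mem_val_imp.mp (mem_val_all.mp h6 (nN i)) s1 (hs1.trans hs) (nN_mem_pN s1 hi)
      exact mem_val_imp.mp h7 s1 le_rfl (mem_mN_congr hs1u (mem_eN_self _ _)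
        (mem_eN_symm (mem_down hu hs1)))) (by
    intro j hj q hq hqj
    unfold F2om at hom
    have h1 := mem_val_imp.mp (mem_val_all.mp hom (nN j)) q hq (nN_mem_pN q hj)
    have h2 := mem_val_imp.mp h1 q le_rfl hqj
    rw [mem_val_ex] at h2
    obtain ⟨r, hr, t, ht⟩ := h2 q le_rfl
    obtain ⟨h3, h4⟩ := mem_val_and.mp ht
    obtain ⟨h5, h6⟩ := mem_val_and.mp h4
    have h3' : r ∈ mN t bN := h3
    have h5' : r ∈ mN (nN j) t := h5
    obtain ⟨s, hs, u, hu⟩ := mem_mN_bN.mp h3' r le_rfl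
    refine ⟨s, hs.trans hr, u, ?_, fun i hi => ?_⟩
    · rw [← mN_nN_dN]
      exact mem_mN_congr (mem_down h5' hs) (mem_eN_self _ _) hu
    · rw [RO.mem_himp]
      intro s1 hs1 hs1u
      rw [← mN_nN_dN] at hs1u
      have h7 := mem_val_imp.mp (mem_val_all.mp h6 (nN i)) s1 (hs1.trans hs) (nN_mem_pN s1 hi)
      exact mem_val_imp.mp h7 s1 le_rfl (mem_mN_congr hs1u (mem_eN_self _ _)
        (mem_eN_symm (mem_down hu hs1)))) hq
  refine ⟨r, hr, dN w, mem_val_and.mpr ⟨dN_mem_bN _ _, ?_⟩⟩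
  rw [mem_val_all]
  intro t
  rw [mem_val_imp]
  intro s hs hst
  rw [mem_val_iff]
  intro s1 hs1
  change s1 ∈ mN t C ↔ s1 ∈ mN t (dN w)
  have hst' : s1 ∈ mN t (pN 1) := mem_down hst hs1
  rw [mem_mN_pN] at hst'
  constructor
  · intro h
    refine (mN t (dN w)).mem_of_dense fun s2 hs2 => ?_
    obtain ⟨s3, hs3, k, hk, h3⟩ := hst' s2 hs2
    refine ⟨s3, hs3, mem_mN_congr (x := nN k) ?_ (mem_eN_symm h3) (mem_eN_self _ _)⟩
    rw [mN_nN_dN]
    have h4 : s3 ∈ mN (nN k) C :=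
      mem_mN_congr (mem_down h (hs3.trans hs2)) h3 (mem_eN_self _ _)
    -- otherwise the complement would be forced somewhere below
    refine (ev k w).mem_of_dense fun s4 hs4 => ?_
    by_contra hcon
    push Not at hcon
    have h5 : s4 ∈ ev k (Clp.cpl w) := by
      rw [ev_cpl, RO.mem_compl]
      exact hcon
    have hle : s4 ≤ r := hs4.trans (hs3.trans (hs2.trans (hs1.trans hs)))
    exact RO.mem_compl.mp (RO.mem_himp.mp (hw k hk).2 s4 hle h5) s4 le_rfl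
      (mem_down h4 hs4)
  · intro h
    refine (mN t C).mem_of_dense fun s2 hs2 => ?_
    obtain ⟨s3, hs3, k, hk, h3⟩ := hst' s2 hs2
    refine ⟨s3, hs3, mem_mN_congr (x := nN k) ?_ (mem_eN_symm h3) (mem_eN_self _ _)⟩
    have h4 : s3 ∈ mN (nN k) (dN w) :=
      mem_mN_congr (mem_down h (hs3.trans hs2)) h3 (mem_eN_self _ _)
    rw [mN_nN_dN] at h4
    exact RO.mem_himp.mp (hw k hk).1 s3 (hs3.trans (hs2.trans (hs1.trans hs))) h4

end Pool.Agent.Lib.MP_5ed4ef_gt
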