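import Pool.Agent.Lib.MP_5ed4ef_gt.Force

/-!
# No definable injection of the natural numbers into the traces: the forced statement
-/

set_option autoImplicit false

namespace Pool.Agent.Lib.MP_5ed4ef_gt

open Pool.Agent.Lib.SymModel Pool.Agent.MPa4e7db Pool.Agent.MP_5db68c_lc

/-- A renaming of variables. -/
def rn (a b s : ℕ) (i : ℕ) : ℕ := if i % 2 = 1 then i / 2 + s else if i = 2 then b else a

/-- The assignment of `n`, `D` and the parameters `c`. -/
def envJ {A : Type*} (n D : A) (c : ℕ → A) : ℕ → A :=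
  fun i => if i % 2 = 1 then c (i / 2) else if i = 2 then D else n

theorem env_rn {A : Type*} (v : ℕ → A) (a b s : ℕ) (c : ℕ → A) (h : ∀ i, v (i + s) = c i) :
    v ∘ rn a b s = envJ (v a) (v b) c := by
  funext i
  simp only [Function.comp, rn, envJ]
  split_ifs
  · exact h _
  · rfl
  · rfl

/-- Totality. -/
def F3tot (φ : Fml) : Fml :=
  .all (fimp (.mem 0 2) (fex (.and (.mem 0 2) (φ.rename (rn 1 0 5)))))

/-- The traces of the values are unique. -/
def F3fun (φ : Fml) : Fml :=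
  .all (.all (.all (fimp (.mem 2 4) (fimp (.mem 1 3) (fimp (.mem 0 3)
    (fimp (φ.rename (rn 2 1 6)) (fimp (φ.rename (rn 2 0 6))
      (.all (fimp (.mem 0 6) (fiff (.mem 0 2) (.mem 0 1)))))))))))

/-- The traces of different values are different. -/
def F3inj (φ : Fml) : Fml :=
  .all (.all (.all (.all (fimp (.mem 3 5) (fimp (.mem 2 5) (fimp (.mem 1 4) (fimp (.mem 0 4)
    (fimp (φ.rename (rn 3 1 7)) (fimp (φ.rename (rn 2 0 7))
      (fimp (.all (fimp (.mem 0 7) (fiff (.mem 0 2) (.mem 0 1)))) (.eq 3 2)))))))))))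

theorem trace_subset {q : Cond} {u v : Clp}
    (h : ∀ k, k % 2 = 0 → ∀ r ≤ q, r ∈ ev k u → r ∈ ev k v) : u.1 ∩ Z0 ⊆ v.1 ∩ Z0 := by
  rintro z ⟨hz, hzZ⟩
  refine ⟨?_, hzZ⟩
  by_contra hzv
  obtain ⟨k, hk, hzk⟩ := exists_new q.supp z
  have huniv : q.c k = Set.univ := Cond.notMem_supp.mp hk
  have h1 := h k (hzk.mp hzZ) (q.upd k (u.1 ∩ v.1ᶜ) (u.2.inter v.2.compl) ⟨z, ⟨hz, hzv⟩, hzk⟩)
    (q.upd_le _ _ (by rw [huniv]; exact Set.subset_univ _))
    (mem_ev_of_subset ((Cond.upd_self _ _ _ _ _).subset.trans Set.inter_subset_left))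
  exact hzv (h1 ⟨(Cond.upd_self _ _ _ _ _).symm.subset ⟨hz, hzv⟩, hzk⟩)

theorem ev_le_of_trace {k : ℕ} (hk : k % 2 = 0) {u v : Clp} (h : u.1 ∩ Z0 ⊆ v.1 ∩ Z0) :
    ev k u ≤ ev k v := by
  intro p hp x hx
  have hxZ : x ∈ Z0 := (hx.2 : x ∈ Z0 ↔ k % 2 = 0).mpr hk
  exact (h ⟨hp hx, hxZ⟩).1

theorem mN_of_trace {q : Cond} {t : NS sys} (ht : q ∈ mN t (pN 0)) {u v : Clp}
    (h : u.1 ∩ Z0 ⊆ v.1 ∩ Z0) (hu : q ∈ mN t (dN u)) : q ∈ mN t (dN v) := by
  refine (mN t (dN v)).mem_of_dense fun r hr => ?_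
  obtain ⟨s, hs, k, hk, hsk⟩ := mem_mN_pN.mp ht r hr
  refine ⟨s, hs, mem_mN_congr (x := nN k) ?_ (mem_eN_symm hsk) (mem_eN_self _ _)⟩
  rw [mN_nN_dN]
  have h1 : s ∈ mN (nN k) (dN u) :=
    mem_mN_congr (mem_down hu (hs.trans hr)) hsk (mem_eN_self _ _)
  rw [mN_nN_dN] at h1
  exact ev_le_of_trace hk h s h1

theorem force_core3 {φ : Fml} {c : ℕ → NS sys} {p : Cond}
    (htot : p ∈ val (F3tot φ) (push bN (push oN (push (pN 0) c))))
    (hfun : p ∈ val (F3fun φ) (push bN (push oN (push (pN 0) c))))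
    (hinj : p ∈ val (F3inj φ) (push bN (push oN (push (pN 0) c)))) : False := by
  obtain ⟨H, ⟨E, hE, hEH⟩, hH⟩ := good_sym_lt c (bd φ)
  -- the formula at names
  have hval5 : ∀ (n D : NS sys), val (φ.rename (rn 1 0 5))
      (push D (push n (push bN (push oN (push (pN 0) c))))) = val φ (envJ n D c) := by
    intro n D
    rw [val_rename, env_rn _ 1 0 5 c (fun i => rfl)]
    rfl
  have hval6 : ∀ (n D D' : NS sys), val (φ.rename (rn 2 1 6))
      (push D' (push D (push n (push bN (push oN (push (pN 0) c)))))) = val φ (envJ n D c) := by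
    intro n D D'
    rw [val_rename, env_rn _ 2 1 6 c (fun i => rfl)]
    rfl
  have hval6' : ∀ (n D D' : NS sys), val (φ.rename (rn 2 0 6))
      (push D' (push D (push n (push bN (push oN (push (pN 0) c)))))) = val φ (envJ n D' c) := by
    intro n D D'
    rw [val_rename, env_rn _ 2 0 6 c (fun i => rfl)]
    rfl
  have hval7 : ∀ (n m D D' : NS sys), val (φ.rename (rn 3 1 7))
      (push D' (push D (push m (push n (push bN (push oN (push (pN 0) c))))))) =
        val φ (envJ n D c) := by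
    intro n m D D'
    rw [val_rename, env_rn _ 3 1 7 c (fun i => rfl)]
    rfl
  have hval7' : ∀ (n m D D' : NS sys), val (φ.rename (rn 2 0 7))
      (push D' (push D (push m (push n (push bN (push oN (push (pN 0) c))))))) =
        val φ (envJ m D' c) := by
    intro n m D D'
    rw [val_rename, env_rn _ 2 0 7 c (fun i => rfl)]
    rfl
  refine core3 (ρ := fun n u => val φ (envJ (nN n) (dN u) c)) hE ?_ (p := p) ?_ ?_ ?_
  · intro n g hg u q hq
    have h1 := mem_act_map (g := g) hq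
    rw [← val_smul] at h1
    refine mem_val_congr h1 fun i hi => ?_
    have hi2 : i / 2 < bd φ := by omega
    unfold envJ
    split_ifs
    · have h2 : eN (NS.smul g (c (i / 2))) (c (i / 2)) = ⊤ := NS.mem_sym.mp (hH g (hEH hg) _ hi2)
      rw [h2]
      exact RO.mem_top _
    · rw [smul_dN]
      exact mem_eN_self _ _
    · rw [smul_nN]
      exact mem_eN_self _ _
  · intro n q hq
    unfold F3tot at htot
    have h2 := mem_val_imp.mp (mem_val_all.mp htot (nN n)) q hq (nN_mem_oN q n)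
    rw [mem_val_ex] at h2
    obtain ⟨r, hr, t, ht⟩ := h2 q le_rfl
    obtain ⟨h3, h4⟩ := mem_val_and.mp ht
    have h3' : r ∈ mN t bN := h3
    rw [hval5] at h4
    obtain ⟨s, hs, u, hu⟩ := mem_mN_bN.mp h3' r le_rfl
    refine ⟨s, hs.trans hr, u, mem_val_congr (mem_down h4 hs) fun i _ => ?_⟩
    unfold envJ
    split_ifs
    · exact mem_eN_self _ _
    · exact hu
    · exact mem_eN_self _ _
  · intro n u v q hq hqu hqv
    unfold F3fun at hfun
    have h1 := mem_val_all.mp (mem_val_all.mp (mem_val_all.mp hfun (nN n)) (dN u)) (dN v)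
    have h2 := mem_val_imp.mp h1 q hq (nN_mem_oN q n)
    have h3 := mem_val_imp.mp h2 q le_rfl (dN_mem_bN q u)
    have h4 := mem_val_imp.mp h3 q le_rfl (dN_mem_bN q v)
    have h5 := mem_val_imp.mp h4 q le_rfl (by rw [hval6]; exact hqu)
    have h6 := mem_val_imp.mp h5 q le_rfl (by rw [hval6']; exact hqv)
    have h7 : ∀ k, k % 2 = 0 → ∀ r ≤ q, (r ∈ ev k u ↔ r ∈ ev k v) := by
      intro k hk r hr
      have h8 := mem_val_imp.mp (mem_val_all.mp h6 (nN k)) r hr (nN_mem_pN r hk)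
      have h9 := mem_val_iff.mp h8 r le_rfl
      have h10 : r ∈ mN (nN k) (dN u) ↔ r ∈ mN (nN k) (dN v) := h9
      rwa [mN_nN_dN, mN_nN_dN] at h10
    exact (trace_subset fun k hk r hr => (h7 k hk r hr).mp).antisymm
      (trace_subset fun k hk r hr => (h7 k hk r hr).mpr)
  · intro n m u v q hq hqu hqv huv
    unfold F3inj at hinj
    have h1 := mem_val_all.mp (mem_val_all.mp (mem_val_all.mp (mem_val_all.mp hinj (nN n))
      (nN m)) (dN u)) (dN v)
    have h2 := mem_val_imp.mp h1 q hq (nN_mem_oN q n)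
    have h3 := mem_val_imp.mp h2 q le_rfl (nN_mem_oN q m)
    have h4 := mem_val_imp.mp h3 q le_rfl (dN_mem_bN q u)
    have h5 := mem_val_imp.mp h4 q le_rfl (dN_mem_bN q v)
    have h6 := mem_val_imp.mp h5 q le_rfl (by rw [hval7]; exact hqu)
    have h7 := mem_val_imp.mp h6 q le_rfl (by rw [hval7']; exact hqv)
    have h8 := mem_val_imp.mp h7 q le_rfl (by
      rw [mem_val_all]
      intro t
      rw [mem_val_imp]
      intro r _ hrt
      rw [mem_val_iff]
      intro s hs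
      have hst : s ∈ mN t (pN 0) := mem_down hrt hs
      exact ⟨mN_of_trace hst huv.subset, mN_of_trace hst huv.symm.subset⟩)
    by_contra hnm
    exact notMem_eN_nN hnm h8

end Pool.Agent.Lib.MP_5ed4ef_gt
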