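import Pool.Agent.Lib.MP_5ed4ef_gt.Mod

/-!
# The properties of the base in the two-valued model
-/

set_option autoImplicit false

namespace Pool.Agent.Lib.MP_5ed4ef_gt

open Pool.Agent.Lib.SymModel Pool.Agent.MPa4e7db Pool.Agent.MP_5db68c_lc

namespace Pack

variable {G : GenData sys} (P : Pack G)

theorem sep {k l : ℕ} (h : k ≠ l) : ∃ D : G.Mdl, D ∈ P.B ∧ P.n k ∈ D ∧ P.n l ∉ D := by
  have h1 := (G.sat_iff Fsep (push (P.iN k) (push (P.iN l) fun _ => P.iB))).mpr (by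
    have h2 : (fun i => G.e ((push (P.iN k) (push (P.iN l) fun _ => P.iB)) i)) =
        push (nN k) (push (nN l) fun _ => bN) := by
      funext i
      rcases i with _ | _ | i
      · exact P.hN k
      · exact P.hN l
      · exact P.hB
    rw [h2]
    exact GenData.Tr_of_forall fun p => force_sep h p)
  rw [Fsep, Sat_ex] at h1
  obtain ⟨D, h1⟩ := h1
  rw [Sat_and, Sat_and, Sat_neg] at h1
  exact ⟨D, h1.1, h1.2.1, h1.2.2⟩

theorem dense {u : Clp} (h : u.1.Nonempty) : ∃ k : G.Mdl, k ∈ P.X ∧ k ∈ P.D u := by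
  have h1 := (G.sat_iff Fdense (push (P.iD u) fun _ => P.iX)).mpr (by
    have h2 : (fun i => G.e ((push (P.iD u) fun _ => P.iX) i)) = push (dN u) fun _ => pN 1 := by
      funext i
      rcases i with _ | i
      · exact P.hD u
      · exact P.hX
    rw [h2]
    exact GenData.Tr_of_forall fun p => force_dense h p)
  rw [Fdense, Sat_ex] at h1
  obtain ⟨D, h1⟩ := h1
  rw [Sat_and] at h1
  exact ⟨D, h1.1, h1.2⟩

theorem open_X {k : ℕ} (h : k % 2 = 1) :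
    ∃ D : G.Mdl, D ∈ P.B ∧ P.n k ∈ D ∧ ∀ l : G.Mdl, l ∈ P.R → l ∉ D := by
  have h1 := (G.sat_iff Fopen (push (P.iN k) (push P.iB fun _ => P.iR))).mpr (by
    have h2 : (fun i => G.e ((push (P.iN k) (push P.iB fun _ => P.iR)) i)) =
        push (nN k) (push bN fun _ => pN 0) := by
      funext i
      rcases i with _ | _ | i
      · exact P.hN k
      · exact P.hB
      · exact P.hR
    rw [h2]
    exact GenData.Tr_of_forall fun p => force_open h p)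
  rw [Fopen, Sat_ex] at h1
  obtain ⟨D, h1⟩ := h1
  rw [Sat_and, Sat_and, Sat_all] at h1
  refine ⟨D, h1.1, h1.2.1, fun l hl => ?_⟩
  have h2 := h1.2.2 l
  rw [Sat_imp] at h2
  exact h2 hl

theorem D_ext {u : Clp} {x : G.Mdl}
    (h : ∀ k : G.Mdl, k ∈ x ↔ ∃ j, k = P.n j ∧ G.Tr (ev j u)) : x = P.D u :=
  ext' fun k => by rw [h, P.mem_D]

theorem W_eq : P.W = P.D Clp.top := by
  apply P.D_ext
  intro k
  rw [P.mem_W]
  refine exists_congr fun j => ⟨fun h => ⟨h, ?_⟩, fun h => h.1⟩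
  rw [ev_top]
  exact G.Tr_top

theorem n_mem_D {k : ℕ} {u : Clp} : P.n k ∈ P.D u ↔ G.Tr (ev k u) := by
  rw [P.mem_D]
  constructor
  · rintro ⟨j, hj, h⟩
    rw [P.n_inj hj]
    exact h
  · intro h
    exact ⟨k, rfl, h⟩

theorem core1 (I : G.Mdl) (hsub : ∀ D : G.Mdl, D ∈ I → D ∈ P.B)
    (hdn : ∀ D D' : G.Mdl, D ∈ I → D' ∈ P.B → (∀ k : G.Mdl, k ∈ D' → k ∈ D) → D' ∈ I)
    (hjn : ∀ D D' D'' : G.Mdl, D ∈ I → D' ∈ I → (∀ k : G.Mdl, k ∈ D'' ↔ k ∈ D ∨ k ∈ D') → D'' ∈ I)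
    (hcv : ∀ k : G.Mdl, k ∈ P.W → ∃ D : G.Mdl, D ∈ I ∧ k ∈ D) : P.W ∈ I := by
  obtain ⟨a, rfl⟩ := G.cls_surj I
  have henv : (fun i => G.e ((push a (push P.iB fun _ => P.io)) i)) =
      push (G.e a) (push bN fun _ => oN) := by
    funext i
    rcases i with _ | _ | i
    · rfl
    · exact P.hB
    · exact P.ho
  have h1 := (G.sat_iff F1dn (push a (push P.iB fun _ => P.io))).mp (by
    rw [F1dn, Sat_all]
    intro D
    rw [Sat_all]
    intro D'
    rw [Sat_imp]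
    intro h1
    rw [Sat_imp]
    intro h2
    rw [Sat_imp, Sat_all]
    intro h3
    refine hdn D D' h1 h2 fun k hk => ?_
    have h4 := h3 k
    rw [Sat_imp] at h4
    exact h4 hk)
  have h2 := (G.sat_iff F1jn (push a (push P.iB fun _ => P.io))).mp (by
    rw [F1jn, Sat_all]
    intro D
    rw [Sat_all]
    intro D'
    rw [Sat_all]
    intro D''
    rw [Sat_imp]
    intro h1
    rw [Sat_imp]
    intro h2
    rw [Sat_imp, Sat_all]
    intro h3
    refine hjn D D' D'' h1 h2 fun k => ?_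
    have h4 := h3 k
    rw [Sat_iff, Sat_or] at h4
    exact h4)
  have h3 := (G.sat_iff F1cv (push a (push P.iB fun _ => P.io))).mp (by
    rw [F1cv, Sat_all]
    intro k
    rw [Sat_imp]
    intro h1
    rw [Sat_ex]
    obtain ⟨D, hD, hk⟩ := hcv k h1
    refine ⟨D, ?_⟩
    rw [Sat_and, Sat_and]
    exact ⟨hsub D hD, hD, hk⟩)
  rw [henv] at h1 h2 h3
  have h4 := G.Tr_inf.mpr ⟨h1, G.Tr_inf.mpr ⟨h2, h3⟩⟩
  have h5 : G.Tr (mN (dN Clp.top) (G.e a)) := GenData.Tr_of_imp h4 fun p hp =>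
    force_core1 hp.1 hp.2.1 hp.2.2
  rw [P.W_eq]
  change G.Tr (mN (G.e (P.iD Clp.top)) (G.e a))
  rw [P.hD]
  exact h5

theorem core2 (C : G.Mdl)
    (hop : ∀ k : G.Mdl, k ∈ P.X → k ∈ C →
      ∃ D : G.Mdl, D ∈ P.B ∧ k ∈ D ∧ ∀ l : G.Mdl, l ∈ P.X → l ∈ D → l ∈ C)
    (hom : ∀ k : G.Mdl, k ∈ P.X → k ∉ C →
      ∃ D : G.Mdl, D ∈ P.B ∧ k ∈ D ∧ ∀ l : G.Mdl, l ∈ P.X → l ∈ D → l ∉ C) :
    ∃ D : G.Mdl, D ∈ P.B ∧ ∀ k : G.Mdl, k ∈ P.X → (k ∈ C ↔ k ∈ D) := by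
  obtain ⟨a, rfl⟩ := G.cls_surj C
  have henv : (fun i => G.e ((push a (push P.iB fun _ => P.iX)) i)) =
      push (G.e a) (push bN fun _ => pN 1) := by
    funext i
    rcases i with _ | _ | i
    · rfl
    · exact P.hB
    · exact P.hX
  have h1 := (G.sat_iff F2op (push a (push P.iB fun _ => P.iX))).mp (by
    rw [F2op, Sat_all]
    intro k
    rw [Sat_imp]
    intro h1
    rw [Sat_imp]
    intro h2
    rw [Sat_ex]
    obtain ⟨D, hD, hk, h3⟩ := hop k h1 h2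
    refine ⟨D, ?_⟩
    rw [Sat_and, Sat_and, Sat_all]
    refine ⟨hD, hk, fun l => ?_⟩
    rw [Sat_imp]
    intro h4
    rw [Sat_imp]
    intro h5
    exact h3 l h4 h5)
  have h2 := (G.sat_iff F2om (push a (push P.iB fun _ => P.iX))).mp (by
    rw [F2om, Sat_all]
    intro k
    rw [Sat_imp]
    intro h1
    rw [Sat_imp]
    intro h2
    rw [Sat_ex]
    obtain ⟨D, hD, hk, h3⟩ := hom k h1 h2
    refine ⟨D, ?_⟩
    rw [Sat_and, Sat_and, Sat_all]
    refine ⟨hD, hk, fun l => ?_⟩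
    rw [Sat_imp]
    intro h4
    rw [Sat_imp]
    intro h5
    exact h3 l h4 h5)
  have h3 := (G.sat_iff F2c (push a (push P.iB fun _ => P.iX))).mpr (by
    rw [henv] at h1 h2 ⊢
    exact GenData.Tr_of_imp (G.Tr_inf.mpr ⟨h1, h2⟩) fun p hp => force_core2 hp.1 hp.2)
  rw [F2c, Sat_ex] at h3
  obtain ⟨D, h3⟩ := h3
  rw [Sat_and, Sat_all] at h3
  refine ⟨D, h3.1, fun k hk => ?_⟩
  have h4 := h3.2 k
  rw [Sat_imp, Sat_iff] at h4
  exact h4 hk

theorem core3 (Q : G.Mdl → G.Mdl → Prop) (hQ : D2 Q)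
    (htot : ∀ n : G.Mdl, n ∈ P.W → ∃ D : G.Mdl, D ∈ P.B ∧ Q n D)
    (hfun : ∀ n D D' : G.Mdl, n ∈ P.W → D ∈ P.B → D' ∈ P.B → Q n D → Q n D' →
      ∀ k : G.Mdl, k ∈ P.R → (k ∈ D ↔ k ∈ D'))
    (hinj : ∀ n m D D' : G.Mdl, n ∈ P.W → m ∈ P.W → D ∈ P.B → D' ∈ P.B → Q n D → Q m D' →
      (∀ k : G.Mdl, k ∈ P.R → (k ∈ D ↔ k ∈ D')) → n = m) : False := by
  obtain ⟨φ, c, hφ⟩ := hQ.out
  have hQφ : ∀ n D : G.Mdl, Q n D ↔ Sat φ (envJ n D c) := by
    intro n D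
    have h1 := hφ (fun i => if i = 1 then D else n)
    have h2 : join (fun i => if i = 1 then D else n) c = envJ n D c := by
      funext i
      unfold join envJ
      by_cases hi : i % 2 = 1
      · rw [if_neg (by omega), if_pos hi]
      · rw [if_pos (by omega), if_neg hi]
        by_cases hi2 : i = 2
        · rw [if_pos hi2]
          exact if_pos (by omega)
        · rw [if_neg hi2]
          exact if_neg (by omega)
    rw [h2] at h1
    exact h1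
  have hc : ∀ i, G.cls (G.rep (c i)) = c i := fun i => G.cls_rep (c i)
  set v : ℕ → ℕ := push P.iB (push P.io (push P.iR fun i => G.rep (c i))) with hv
  have hcls : (fun i => G.cls (v i)) = push P.B (push P.W (push P.R c)) := by
    funext i
    rcases i with _ | _ | _ | i
    · rfl
    · rfl
    · rfl
    · exact hc i
  have henv : (fun i => G.e (v i)) =
      push bN (push oN (push (pN 0) fun i => G.e (G.rep (c i)))) := by
    funext i
    rcases i with _ | _ | _ | i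
    · exact P.hB
    · exact P.ho
    · exact P.hR
    · rfl
  have h1 := (G.sat_iff (F3tot φ) v).mp (by
    rw [hcls, F3tot, Sat_all]
    intro n
    rw [Sat_imp]
    intro h1
    rw [Sat_ex]
    obtain ⟨D, hD, hnD⟩ := htot n h1
    refine ⟨D, ?_⟩
    rw [Sat_and]
    refine ⟨hD, ?_⟩
    rw [sat_rename, env_rn _ 1 0 5 c (fun i => rfl)]
    exact (hQφ n D).mp hnD)
  have h2 := (G.sat_iff (F3fun φ) v).mp (by
    rw [hcls, F3fun, Sat_all]
    intro n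
    rw [Sat_all]
    intro D
    rw [Sat_all]
    intro D'
    rw [Sat_imp]
    intro h1
    rw [Sat_imp]
    intro h2
    rw [Sat_imp]
    intro h3
    rw [Sat_imp, sat_rename, env_rn _ 2 1 6 c (fun i => rfl)]
    intro h4
    rw [Sat_imp, sat_rename, env_rn _ 2 0 6 c (fun i => rfl)]
    intro h5
    rw [Sat_all]
    intro k
    rw [Sat_imp]
    intro h6
    rw [Sat_iff]
    exact hfun n D D' h1 h2 h3 ((hQφ n D).mpr h4) ((hQφ n D').mpr h5) k h6)
  have h3 := (G.sat_iff (F3inj φ) v).mp (by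
    rw [hcls, F3inj, Sat_all]
    intro n
    rw [Sat_all]
    intro m
    rw [Sat_all]
    intro D
    rw [Sat_all]
    intro D'
    rw [Sat_imp]
    intro h1
    rw [Sat_imp]
    intro h2
    rw [Sat_imp]
    intro h3
    rw [Sat_imp]
    intro h4
    rw [Sat_imp, sat_rename, env_rn _ 3 1 7 c (fun i => rfl)]
    intro h5
    rw [Sat_imp, sat_rename, env_rn _ 2 0 7 c (fun i => rfl)]
    intro h6
    rw [Sat_imp, Sat_all]
    intro h7
    refine hinj n m D D' h1 h2 h3 h4 ((hQφ n D).mpr h5) ((hQφ m D').mpr h6) fun k hk => ?_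
    have h8 := h7 k
    rw [Sat_imp, Sat_iff] at h8
    exact h8 hk)
  rw [henv] at h1 h2 h3
  obtain ⟨m, hm⟩ := G.Tr_inf.mpr ⟨h1, G.Tr_inf.mpr ⟨h2, h3⟩⟩
  obtain ⟨p, hp⟩ := RO.ne_bot_iff.mp (G.ne_bot m)
  have h4 := hm p hp
  exact force_core3 h4.1 h4.2.1 h4.2.2

/-- The model has the required properties. -/
theorem good : Good P.W P.X P.R P.B where
  omega := P.isOmega_W
  mem_W k := by
    rw [P.mem_W, P.mem_X, P.mem_R]
    constructor
    · rintro ⟨j, rfl⟩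
      rcases Nat.mod_two_eq_zero_or_one j with h | h
      · exact Or.inr ⟨j, h, rfl⟩
      · exact Or.inl ⟨j, h, rfl⟩
    · rintro (⟨j, _, rfl⟩ | ⟨j, _, rfl⟩)
      · exact ⟨j, rfl⟩
      · exact ⟨j, rfl⟩
  disj k := by
    rw [P.mem_X, P.mem_R]
    rintro ⟨j, hj, rfl⟩ ⟨i, hi, hij⟩
    have := P.n_inj hij
    omega
  denum := denum_aux P.isOmega_W P.n P.notMem_n_zero P.mem_n_succ (fun x => P.mem_W) P.n_inj
    (fun x => P.mem_R)
  sub D hD k hk := by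
    obtain ⟨u, rfl⟩ := P.mem_B.mp hD
    obtain ⟨j, rfl, _⟩ := P.mem_D.mp hk
    exact P.mem_W.mpr ⟨j, rfl⟩
  whole := by
    rw [P.W_eq]
    exact P.mem_B.mpr ⟨_, rfl⟩
  compl D D' hD h := by
    obtain ⟨u, rfl⟩ := P.mem_B.mp hD
    refine P.mem_B.mpr ⟨Clp.cpl u, P.D_ext fun k => ?_⟩
    rw [h, P.mem_W]
    constructor
    · rintro ⟨⟨j, rfl⟩, h2⟩
      exact ⟨j, rfl, (P.Tr_cpl j u).mpr fun h3 => h2 (P.n_mem_D.mpr h3)⟩
    · rintro ⟨j, rfl, h2⟩
      exact ⟨⟨j, rfl⟩, fun h3 => (P.Tr_cpl j u).mp h2 (P.n_mem_D.mp h3)⟩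
  inter D D' D'' hD hD' h := by
    obtain ⟨u, rfl⟩ := P.mem_B.mp hD
    obtain ⟨v, rfl⟩ := P.mem_B.mp hD'
    refine P.mem_B.mpr ⟨Clp.inf u v, P.D_ext fun k => ?_⟩
    rw [h]
    constructor
    · rintro ⟨h1, h2⟩
      obtain ⟨j, rfl, h3⟩ := P.mem_D.mp h1
      refine ⟨j, rfl, ?_⟩
      rw [ev_inf]
      exact G.Tr_inf.mpr ⟨h3, P.n_mem_D.mp h2⟩
    · rintro ⟨j, rfl, h2⟩
      rw [ev_inf] at h2
      have h3 := G.Tr_inf.mp h2
      exact ⟨P.n_mem_D.mpr h3.1, P.n_mem_D.mpr h3.2⟩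
  sep k l hk hl hkl := by
    obtain ⟨i, rfl⟩ := P.mem_W.mp hk
    obtain ⟨j, rfl⟩ := P.mem_W.mp hl
    exact P.sep fun h => hkl (by rw [h])
  dense D hD h := by
    obtain ⟨u, rfl⟩ := P.mem_B.mp hD
    obtain ⟨k, hk⟩ := h
    obtain ⟨j, rfl, hj⟩ := P.mem_D.mp hk
    refine P.dense ?_
    by_contra hcon
    have hu : u = Clp.bot := Subtype.ext (Set.not_nonempty_iff_eq_empty.mp hcon)
    obtain ⟨m, hm⟩ := hj
    obtain ⟨p, hp⟩ := RO.ne_bot_iff.mp (G.ne_bot m)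
    obtain ⟨x, hx, hxj⟩ := p.ne j
    have h1 : x ∈ u.1 := hm p hp ⟨hx, hxj⟩
    rw [hu] at h1
    exact h1
  open_X k hk := by
    obtain ⟨j, hj, rfl⟩ := P.mem_X.mp hk
    exact P.open_X hj
  core1 := P.core1
  core2 := P.core2
  core3 := P.core3

end Pack

/-- There is a two-valued model of ZF with the required properties. -/
theorem exists_good : ∃ (M : Type) (_ : Membership M M), IsZF M ∧
    ∃ W X R B : M, Good W X R B := by
  obtain ⟨G, ⟨P⟩⟩ := exists_pack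
  exact ⟨G.Mdl, inferInstance, inferInstance, P.W, P.X, P.R, P.B, P.good⟩

end Pool.Agent.Lib.MP_5ed4ef_gt
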