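import Pool.Agent.Lib.MP_5ed4ef_gt.Force3
import Pool.Agent.Lib.MP_5ed4ef_gt.Defs

/-!
# The two-valued model
-/

set_option autoImplicit false

namespace Pool.Agent.Lib.MP_5ed4ef_gt

open Pool.Agent.Lib.SymModel Pool.Agent.MPa4e7db Pool.Agent.MP_5db68c_lc

/-! ### Countability -/

instance : Countable Clp := by
  have hs : Function.Surjective (fun a : Σ L : ℕ, Set (Fin L → Bool) =>
      (⟨{x : Pt | (fun i : Fin a.1 => x i) ∈ a.2}, a.1, fun x y hxy hx => by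
        have : (fun i : Fin a.1 => x i) = fun i : Fin a.1 => y i :=
          funext fun i => hxy i i.2
        have hx' : (fun i : Fin a.1 => x i) ∈ a.2 := hx
        rw [this] at hx'
        exact hx'⟩ : Clp)) := by
    rintro ⟨u, L, hL⟩
    refine ⟨⟨L, {w | pt L w false ∈ u}⟩, Subtype.ext (Set.ext fun x => ?_)⟩
    change pt L (fun i : Fin L => x i) false ∈ u ↔ x ∈ u
    exact hL.iff fun i hi => pt_lt hi
  exact hs.countable

instance : Countable Cond := by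
  classical
  have hinj : Function.Injective (fun p : Cond =>
      (p.supp.image fun k => ((k, ⟨p.c k, p.clp k⟩) : ℕ × Clp))) := by
    intro p q h
    refine Cond.ext (funext fun k => ?_)
    have key : ∀ p q : Cond, (p.supp.image fun k => ((k, ⟨p.c k, p.clp k⟩) : ℕ × Clp)) =
        (q.supp.image fun k => ((k, ⟨q.c k, q.clp k⟩) : ℕ × Clp)) → ∀ k ∈ p.supp,
        p.c k = q.c k := by
      intro p q h k hk
      have h1 : ((k, ⟨p.c k, p.clp k⟩) : ℕ × Clp) ∈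
          (q.supp.image fun k => ((k, ⟨q.c k, q.clp k⟩) : ℕ × Clp)) := by
        rw [← h]
        exact Finset.mem_image_of_mem _ hk
      obtain ⟨j, _, hj⟩ := Finset.mem_image.mp h1
      rw [Prod.mk.injEq, Subtype.mk.injEq] at hj
      rw [← hj.2, hj.1]
    by_cases hp : k ∈ p.supp
    · exact key p q h k hp
    · by_cases hq : k ∈ q.supp
      · exact (key q p h.symm k hq).symm
      · rw [Cond.notMem_supp.mp hp, Cond.notMem_supp.mp hq]
  exact hinj.countable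

/-! ### The elements of the model -/

/-- Indices of the names. -/
structure Pack (G : GenData sys) where
  /-- index of `ω` -/
  io : ℕ
  /-- index of the base -/
  iB : ℕ
  /-- index of the set of the odd numbers -/
  iX : ℕ
  /-- index of the set of the even numbers -/
  iR : ℕ
  /-- indices of the numbers -/
  iN : ℕ → ℕ
  /-- indices of the elements of the base -/
  iD : Clp → ℕ
  ho : G.e io = oN
  hB : G.e iB = bN
  hX : G.e iX = pN 1
  hR : G.e iR = pN 0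
  hN : ∀ k, G.e (iN k) = nN k
  hD : ∀ u, G.e (iD u) = dN u

theorem exists_pack : ∃ G : GenData sys, Nonempty (Pack G) := by
  classical
  let S0 : Set (NS sys) := {oN, bN, pN 1, pN 0} ∪ Set.range (fun k : ℕ => (nN k : NS sys)) ∪
    Set.range dN
  have hS0 : S0.Countable :=
    (((Set.toFinite _).countable).union (Set.countable_range _)).union (Set.countable_range _)
  obtain ⟨f, hf⟩ := hS0.exists_eq_range ⟨oN, Or.inl (Or.inl (by simp))⟩
  have hone : RO.prin Cond.one ≠ ⊥ := RO.ne_bot_iff.mpr ⟨_, RO.self_mem_prin _⟩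
  obtain ⟨G, -, hG⟩ := exists_genData (S := sys) (Set.range RO.prin) (Set.countable_range _) (by
    intro b hb
    obtain ⟨p, hp⟩ := RO.ne_bot_iff.mp hb
    exact ⟨RO.prin p, ⟨p, rfl⟩, RO.ne_bot_iff.mpr ⟨_, RO.self_mem_prin _⟩,
      RO.prin_le_iff.mpr hp⟩) (RO.prin Cond.one) hone f
  have hall : ∀ x ∈ S0, ∃ m, G.e m = x := by
    intro x hx
    rw [hf] at hx
    obtain ⟨n, rfl⟩ := hx
    exact hG n
  obtain ⟨io, ho⟩ := hall oN (Or.inl (Or.inl (by simp)))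
  obtain ⟨iB, hB⟩ := hall bN (Or.inl (Or.inl (by simp)))
  obtain ⟨iX, hX⟩ := hall (pN 1) (Or.inl (Or.inl (by simp)))
  obtain ⟨iR, hR⟩ := hall (pN 0) (Or.inl (Or.inl (by simp)))
  choose iN hN using fun k : ℕ => hall (nN k) (Or.inl (Or.inr ⟨k, rfl⟩))
  choose iD hD using fun u : Clp => hall (dN u) (Or.inr ⟨u, rfl⟩)
  exact ⟨G, ⟨⟨io, iB, iX, iR, iN, iD, ho, hB, hX, hR, hN, hD⟩⟩⟩

instance (G : GenData sys) : IsZF G.Mdl := ⟨G.modelZF⟩

theorem GenData.of_mem {G : GenData sys} {a b : ℕ} {ι : Type} {x : ι → BName (RO Cond)}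
    {w : ι → RO Cond} (hb : (G.e b).1 = BName.mk ι x w) (h : G.cls a ∈ G.cls b) :
    ∃ i, G.Tr (w i) ∧ G.Tr (eqB (G.e a).1 (x i)) := by
  obtain ⟨m, hm⟩ := h
  have h' := G.elt a b m hm
  rw [hb] at h'
  obtain ⟨j, m', hj⟩ := h'
  exact ⟨j, ⟨m', hj.trans inf_le_left⟩, ⟨m', hj.trans inf_le_right⟩⟩

theorem GenData.Tr_of_forall {G : GenData sys} {b : RO Cond} (h : ∀ p, p ∈ b) : G.Tr b :=
  ⟨0, fun p _ => h p⟩

theorem GenData.Tr_of_imp {G : GenData sys} {a b : RO Cond} (ha : G.Tr a)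
    (h : ∀ p, p ∈ a → p ∈ b) : G.Tr b := ha.mono h

namespace Pack

variable {G : GenData sys} (P : Pack G)

/-- The natural numbers. -/
noncomputable def n (k : ℕ) : G.Mdl := G.cls (P.iN k)

/-- The elements of the base. -/
noncomputable def D (u : Clp) : G.Mdl := G.cls (P.iD u)

/-- `ω`. -/
noncomputable def W : G.Mdl := G.cls P.io

/-- The base. -/
noncomputable def B : G.Mdl := G.cls P.iB

/-- The odd numbers. -/
noncomputable def X : G.Mdl := G.cls P.iX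

/-- The even numbers. -/
noncomputable def R : G.Mdl := G.cls P.iR

theorem mem_W {x : G.Mdl} : x ∈ P.W ↔ ∃ k, x = P.n k := by
  constructor
  · intro h
    obtain ⟨a, rfl⟩ := G.cls_surj x
    obtain ⟨i, _, hi⟩ := GenData.of_mem (ι := ULift ℕ) (x := fun m => natN m.down)
      (w := fun _ => ⊤) (by rw [P.ho]; rfl) h
    refine ⟨i.down, G.cls_eq.mpr ?_⟩
    rw [P.hN]
    exact hi
  · rintro ⟨k, rfl⟩
    change G.Tr (mN (G.e (P.iN k)) (G.e P.io))
    rw [P.hN, P.ho]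
    exact GenData.Tr_of_forall fun p => nN_mem_oN p k

theorem mem_D {x : G.Mdl} {u : Clp} : x ∈ P.D u ↔ ∃ k, x = P.n k ∧ G.Tr (ev k u) := by
  constructor
  · intro h
    obtain ⟨a, rfl⟩ := G.cls_surj x
    obtain ⟨i, hu, hi⟩ := GenData.of_mem (ι := ULift ℕ) (x := fun m => natN m.down)
      (w := fun m => ev m.down u) (by rw [P.hD]; rfl) h
    refine ⟨i.down, G.cls_eq.mpr ?_, hu⟩
    rw [P.hN]
    exact hi
  · rintro ⟨k, rfl, h⟩
    change G.Tr (mN (G.e (P.iN k)) (G.e (P.iD u)))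
    rw [P.hN, P.hD, mN_nN_dN]
    exact h

theorem mem_B {x : G.Mdl} : x ∈ P.B ↔ ∃ u, x = P.D u := by
  constructor
  · intro h
    obtain ⟨a, rfl⟩ := G.cls_surj x
    obtain ⟨u, _, hi⟩ := GenData.of_mem (ι := Clp) (x := fun u => (dN u).1)
      (w := fun _ => ⊤) (by rw [P.hB]; rfl) h
    refine ⟨u, G.cls_eq.mpr ?_⟩
    rw [P.hD]
    exact hi
  · rintro ⟨u, rfl⟩
    change G.Tr (mN (G.e (P.iD u)) (G.e P.iB))
    rw [P.hD, P.hB]
    exact GenData.Tr_of_forall fun p => dN_mem_bN p u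

theorem mem_par {i b : ℕ} (hi : G.e i = pN b) {x : G.Mdl} :
    x ∈ G.cls i ↔ ∃ k, k % 2 = b ∧ x = P.n k := by
  constructor
  · intro h
    obtain ⟨a, rfl⟩ := G.cls_surj x
    obtain ⟨j, hu, hj⟩ := GenData.of_mem (ι := ULift ℕ) (x := fun m => natN m.down)
      (w := fun m => if m.down % 2 = b then ⊤ else ⊥) (by rw [hi]; rfl) h
    refine ⟨j.down, ?_, G.cls_eq.mpr ?_⟩
    · by_contra h2
      rw [if_neg h2] at hu
      exact G.not_Tr_bot hu
    · rw [P.hN]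
      exact hj
  · rintro ⟨k, hk, rfl⟩
    change G.Tr (mN (G.e (P.iN k)) (G.e i))
    rw [P.hN, hi]
    exact GenData.Tr_of_forall fun p => nN_mem_pN p hk

theorem mem_X {x : G.Mdl} : x ∈ P.X ↔ ∃ k, k % 2 = 1 ∧ x = P.n k := P.mem_par P.hX

theorem mem_R {x : G.Mdl} : x ∈ P.R ↔ ∃ k, k % 2 = 0 ∧ x = P.n k := P.mem_par P.hR

theorem n_inj : Function.Injective P.n := by
  intro k l h
  by_contra hkl
  have h1 : G.Tr (eN (G.e (P.iN k)) (G.e (P.iN l))) := G.cls_eq.mp h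
  rw [P.hN, P.hN] at h1
  have h2 : eN (nN k : NS sys) (nN l) = ⊥ := eqB_natN_ne hkl
  rw [h2] at h1
  exact G.not_Tr_bot h1

theorem notMem_n_zero (x : G.Mdl) : x ∉ P.n 0 := by
  obtain ⟨a, rfl⟩ := G.cls_surj x
  intro h
  have h1 : G.Tr (mN (G.e a) (G.e (P.iN 0))) := h
  rw [P.hN] at h1
  have h2 : mN (G.e a) (nN 0) = ⊥ := memB_emptyN _
  rw [h2] at h1
  exact G.not_Tr_bot h1

theorem mem_n_succ (k : ℕ) (x : G.Mdl) : x ∈ P.n (k + 1) ↔ x ∈ P.n k ∨ x = P.n k := by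
  obtain ⟨a, rfl⟩ := G.cls_surj x
  have h1 := G.sat_iff (for' (.mem 0 1) (.eq 0 1)) (push a fun _ => P.iN k)
  rw [Sat_or, val_or] at h1
  have h2 : val (.mem 0 1) (fun i => G.e ((push a fun _ => P.iN k) i)) ⊔
      val (.eq 0 1) (fun i => G.e ((push a fun _ => P.iN k) i)) =
      mN (G.e a) (G.e (P.iN (k + 1))) := by
    rw [P.hN, mN_nN_succ, ← P.hN]
    rfl
  rw [h2] at h1
  exact h1.symm

include P in
theorem Tr_cpl (k : ℕ) (u : Clp) : G.Tr (ev k (Clp.cpl u)) ↔ ¬ G.Tr (ev k u) := by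
  have h1 := G.sat_iff (.neg (.mem 0 1)) (push (P.iN k) fun _ => P.iD u)
  have h2 := G.sat_iff (.mem 0 1) (push (P.iN k) fun _ => P.iD u)
  rw [Sat_neg, h2] at h1
  have h3 : val (.mem 0 1) (fun i => G.e ((push (P.iN k) fun _ => P.iD u) i)) = ev k u := by
    rw [← mN_nN_dN, ← P.hN, ← P.hD]
    rfl
  rw [val_neg, h3] at h1
  rw [ev_cpl]
  exact h1.symm

theorem isOmega_W : IsOmega P.W := by
  refine ⟨⟨⟨P.n 0, P.mem_W.mpr ⟨0, rfl⟩, P.notMem_n_zero⟩, fun x hx => ?_⟩, fun w' hw' x hx => ?_⟩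
  · obtain ⟨k, rfl⟩ := P.mem_W.mp hx
    exact ⟨P.n (k + 1), P.mem_W.mpr ⟨k + 1, rfl⟩, P.mem_n_succ k⟩
  · obtain ⟨k, rfl⟩ := P.mem_W.mp hx
    clear hx
    induction k with
    | zero =>
      obtain ⟨e, he, hex⟩ := hw'.1
      have : e = P.n 0 := ext' fun x =>
        ⟨fun h => (hex x h).elim, fun h => (P.notMem_n_zero x h).elim⟩
      rwa [this] at he
    | succ k ih =>
      obtain ⟨s, hs, hsx⟩ := hw'.2 _ ih
      have : s = P.n (k + 1) := ext' fun x => by rw [hsx, P.mem_n_succ]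
      rwa [this] at hs

end Pack

/-- The even numbers are denumerable. -/
theorem denum_aux {M : Type} [Membership M M] [hM : IsZF M] {W R : M} (hW : IsOmega W)
    (n : ℕ → M) (hn0 : ∀ x, x ∉ n 0) (hns : ∀ k x, x ∈ n (k + 1) ↔ x ∈ n k ∨ x = n k)
    (hmem : ∀ x, x ∈ W ↔ ∃ k, x = n k) (hinj : Function.Injective n)
    (hR : ∀ x, x ∈ R ↔ ∃ k, k % 2 = 0 ∧ x = n k) :
    ∃ f : El W → El R, FunIn (fun x => (f x).1) ∧ Function.Bijective f := by
  have hWo : W = om M := hW.unique isOmega_om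
  subst hWo
  obtain ⟨s, hs, hs0, hss⟩ := exists_rec (M := M) (Γ := N M) N.zero (fun m => N.succ (N.succ m))
    inferInstance
  have hz : ∀ h : n 0 ∈ om M, (⟨n 0, h⟩ : N M) = N.zero := by
    intro h
    exact Subtype.ext (ext' fun x =>
      ⟨fun h => (hn0 x h).elim, fun h => (N.not_mem_zero x h).elim⟩)
  have hsu : ∀ (k : ℕ) (h : n k ∈ om M) (h' : n (k + 1) ∈ om M),
      (⟨n (k + 1), h'⟩ : N M) = N.succ ⟨n k, h⟩ := by
    intro k h h'
    exact Subtype.ext (ext' fun x => by rw [N.mem_succ, hns])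
  have hno : ∀ k, n k ∈ om M := fun k => (hmem _).mpr ⟨k, rfl⟩
  have hsk : ∀ k, (s ⟨n k, hno k⟩).1 = n (2 * k) := by
    intro k
    have : s ⟨n k, hno k⟩ = ⟨n (2 * k), hno (2 * k)⟩ := by
      induction k with
      | zero =>
        rw [hz (hno 0), hs0]
      | succ k ih =>
        rw [hsu k (hno k) (hno (k + 1)), hss, ih, ← hsu (2 * k) _ (hno (2 * k + 1)),
          ← hsu (2 * k + 1) _ (hno (2 * k + 1 + 1))]
        rfl
    rw [this]
  have hsR : ∀ x : El (om M), (s x).1 ∈ R := by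
    rintro ⟨x, hx⟩
    obtain ⟨k, rfl⟩ := (hmem x).mp hx
    rw [hR]
    exact ⟨2 * k, by omega, hsk k⟩
  have hfun : FunIn (fun x => (s x).1) := FunIn.of_DF hs
  refine ⟨fun x => ⟨(s x).1, hsR x⟩, hfun, ?_, ?_⟩
  · rintro ⟨x, hx⟩ ⟨y, hy⟩ hxy
    obtain ⟨k, rfl⟩ := (hmem x).mp hx
    obtain ⟨l, rfl⟩ := (hmem y).mp hy
    have h1 : (s ⟨n k, hx⟩).1 = (s ⟨n l, hy⟩).1 := by
      have := congrArg Subtype.val hxy
      exact this
    rw [hsk, hsk] at h1
    have h2 := hinj h1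
    have h3 : k = l := by omega
    subst h3
    rfl
  · rintro ⟨y, hy⟩
    obtain ⟨k, hk, rfl⟩ := (hR y).mp hy
    refine ⟨⟨n (k / 2), hno _⟩, Subtype.ext ?_⟩
    change (s ⟨n (k / 2), hno _⟩).1 = n k
    rw [hsk]
    congr 1
    omega

end Pool.Agent.Lib.MP_5ed4ef_gt
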