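import Pool.Agent.Lib.MP_5ed4ef_gt.Core2
import Pool.Agent.Lib.SymModel.Model

/-!
# The names of the sets of the construction, and forcing in terms of conditions
-/

set_option autoImplicit false

namespace Pool.Agent.Lib.MP_5ed4ef_gt

open Pool.Agent.Lib.SymModel Pool.Agent.MPa4e7db Pool.Agent.MP_5db68c_lc

/-! ### The names -/

theorem act_sys (g : Gam) (b : RO Cond) : sys.act g b = RO.mapIso (actC g) b := rfl

theorem mem_act_map {g : Gam} {b : RO Cond} {p : Cond} (h : p ∈ b) :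
    Cond.map g p ∈ sys.act g b := by
  rw [act_sys, mem_act, Cond.map_inv_map]
  exact h

theorem smulN_setN (g : Gam) (x : ℕ → RO Cond) :
    smulN sys g (setN x) = setN (fun k => sys.act g (x k)) := by
  rw [setN, smulN_mk]
  rw [setN]
  congr 1
  funext n
  exact smulN_natN (S := sys) g n.down

theorem smulN_D (g : Gam) (u : Clp) :
    smulN sys g (setN fun k => ev k u) = setN fun k => ev k (Clp.map g u) := by
  rw [smulN_setN]
  congr 1
  funext k
  exact act_ev g k u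

theorem fixG_le_symG {x : BName (RO Cond)} {E : Finset (Set Pt)}
    (h : ∀ g ∈ fixG E, smulN sys g x = x) : fixG E ≤ symG sys x := by
  intro g hg
  rw [mem_symG, h g hg, eqB_refl]

/-- The name of `D_u`. -/
noncomputable def dN (u : Clp) : NS sys := ⟨setN fun k => ev k u, by
  rw [setN]
  refine ⟨⟨{u.1}, by simp [u.2], ?_⟩, fun n => HS_natN (S := sys) n.down⟩
  refine fixG_le_symG fun g hg => ?_
  have h1 : Clp.map g u = u := Subtype.ext (hg u.1 (Finset.mem_singleton_self _))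
  have h2 := smulN_D g u
  rw [h1, setN] at h2
  exact h2⟩

theorem dN_val (u : Clp) : (dN u).1 = setN fun k => ev k u := rfl

theorem smul_dN (g : Gam) (u : Clp) : NS.smul (S := sys) g (dN u) = dN (Clp.map g u) :=
  Subtype.ext (smulN_D g u)

theorem smul_nN (g : Gam) (n : ℕ) : NS.smul (S := sys) g (nN n) = nN n :=
  Subtype.ext (smulN_natN (S := sys) g n)

theorem mN_dN (t : NS sys) (u : Clp) : mN t (dN u) = ⨆ k, ev k u ⊓ eN t (nN k) :=
  memB_setN t.1 (fun k => ev k u)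

theorem mN_nN_dN (k : ℕ) (u : Clp) : mN (nN k) (dN u) = ev k u :=
  memB_natN_setN k (fun k => ev k u)

theorem memB_bN (t : NS sys) : memB t.1 (BName.mk Clp (fun u => (dN u).1) (fun _ => ⊤)) =
    ⨆ u : Clp, eN t (dN u) := by
  rw [memB_mk]
  simp only [top_inf_eq]
  rfl

/-- The name of the base. -/
noncomputable def bN : NS sys := ⟨BName.mk Clp (fun u => (dN u).1) (fun _ => ⊤),
  HS_of_inv (fun u => (dN u).2) (H := ⊤) sys.good_top (by
      intro g _ t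
      rw [memB_bN, memB_bN, map_iSup]
      apply le_antisymm
      · refine iSup_le fun u => le_iSup_of_le (Clp.map g u) ?_
        rw [← eN_smul, NS.smul_inv_smul, smul_dN]
      · refine iSup_le fun u => le_iSup_of_le (Clp.map g⁻¹ u) ?_
        rw [← eN_smul, NS.smul_inv_smul, smul_dN, Clp.map_map_inv])⟩

theorem mN_bN (t : NS sys) : mN t bN = ⨆ u : Clp, eN t (dN u) := memB_bN t

/-- The name of the set of the natural numbers of a given parity. -/
noncomputable def pN (b : ℕ) : NS sys := ⟨setN fun k => if k % 2 = b then ⊤ else ⊥, by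
  rw [setN]
  refine ⟨good_of_fixed (S := sys) fun g => ?_, fun n => HS_natN (S := sys) n.down⟩
  have h2 := smulN_setN g fun k => if k % 2 = b then ⊤ else ⊥
  rw [setN] at h2
  rw [h2, setN]
  congr 1
  funext k
  split_ifs
  · exact map_top _
  · exact map_bot _⟩

theorem mN_pN (t : NS sys) (b : ℕ) :
    mN t (pN b) = ⨆ k, (if k % 2 = b then ⊤ else ⊥) ⊓ eN t (nN k) :=
  memB_setN t.1 (fun k => if k % 2 = b then ⊤ else ⊥)

theorem mN_nN_pN (k b : ℕ) : mN (nN k) (pN b) = if k % 2 = b then ⊤ else ⊥ :=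
  memB_natN_setN k (fun k => if k % 2 = b then ⊤ else ⊥)

/-! ### Forcing -/

theorem mem_val_neg {p : Cond} {φ : Fml} {v : ℕ → NS sys} :
    p ∈ val (.neg φ) v ↔ ∀ q ≤ p, q ∉ val φ v := by
  rw [val_neg, RO.mem_compl]

theorem mem_val_and {p : Cond} {φ ψ : Fml} {v : ℕ → NS sys} :
    p ∈ val (.and φ ψ) v ↔ p ∈ val φ v ∧ p ∈ val ψ v := by
  rw [val_and, RO.mem_inf]

theorem mem_val_all {p : Cond} {φ : Fml} {v : ℕ → NS sys} :
    p ∈ val (.all φ) v ↔ ∀ x : NS sys, p ∈ val φ (push x v) := by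
  rw [val_all, RO.mem_iInf]

theorem mem_val_imp {p : Cond} {φ ψ : Fml} {v : ℕ → NS sys} :
    p ∈ val (fimp φ ψ) v ↔ ∀ q ≤ p, q ∈ val φ v → q ∈ val ψ v := by
  rw [val_imp, RO.mem_himp]

theorem mem_val_ex {p : Cond} {φ : Fml} {v : ℕ → NS sys} :
    p ∈ val (fex φ) v ↔ ∀ q ≤ p, ∃ r ≤ q, ∃ x : NS sys, r ∈ val φ (push x v) := by
  rw [val_ex, RO.mem_iSup]

theorem mem_val_or {p : Cond} {φ ψ : Fml} {v : ℕ → NS sys} :
    p ∈ val (for' φ ψ) v ↔ ∀ q ≤ p, ∃ r ≤ q, r ∈ val φ v ∨ r ∈ val ψ v := by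
  rw [val_or, RO.mem_sup]

theorem mem_val_iff {p : Cond} {φ ψ : Fml} {v : ℕ → NS sys} :
    p ∈ val (fiff φ ψ) v ↔ ∀ q ≤ p, (q ∈ val φ v ↔ q ∈ val ψ v) := by
  rw [fiff, mem_val_and, mem_val_imp, mem_val_imp]
  constructor
  · rintro ⟨h1, h2⟩ q hq
    exact ⟨h1 q hq, h2 q hq⟩
  · intro h
    exact ⟨fun q hq => (h q hq).mp, fun q hq => (h q hq).mpr⟩

theorem mem_val_mem {p : Cond} {i j : ℕ} {v : ℕ → NS sys} :
    p ∈ val (.mem i j) v ↔ p ∈ mN (v i) (v j) := Iff.rfl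

theorem mem_val_eq {p : Cond} {i j : ℕ} {v : ℕ → NS sys} :
    p ∈ val (.eq i j) v ↔ p ∈ eN (v i) (v j) := Iff.rfl

/-- Membership in `D_u`. -/
theorem mem_mN_dN {p : Cond} {t : NS sys} {u : Clp} :
    p ∈ mN t (dN u) ↔ ∀ q ≤ p, ∃ r ≤ q, ∃ k, r ∈ ev k u ∧ r ∈ eN t (nN k) := by
  rw [mN_dN, RO.mem_iSup]
  rfl

theorem mem_mN_bN {p : Cond} {t : NS sys} :
    p ∈ mN t bN ↔ ∀ q ≤ p, ∃ r ≤ q, ∃ u : Clp, r ∈ eN t (dN u) := by
  rw [mN_bN, RO.mem_iSup]

theorem mem_mN_pN {p : Cond} {t : NS sys} {b : ℕ} :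
    p ∈ mN t (pN b) ↔ ∀ q ≤ p, ∃ r ≤ q, ∃ k, k % 2 = b ∧ r ∈ eN t (nN k) := by
  rw [mN_pN, RO.mem_iSup]
  refine forall_congr' fun q => imp_congr_right fun _ => exists_congr fun r =>
    and_congr_right fun _ => exists_congr fun k => ?_
  rw [RO.mem_inf]
  by_cases h : k % 2 = b
  · rw [if_pos h]
    exact ⟨fun h2 => ⟨h, h2.2⟩, fun h2 => ⟨trivial, h2.2⟩⟩
  · rw [if_neg h]
    exact ⟨fun h2 => (RO.notMem_bot r h2.1).elim, fun h2 => absurd h2.1 h⟩

theorem mem_mN_oN {p : Cond} {t : NS sys} :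
    p ∈ mN t oN ↔ ∀ q ≤ p, ∃ r ≤ q, ∃ k, r ∈ eN t (nN k) := by
  rw [mN_oN, RO.mem_iSup]

theorem dN_mem_bN (p : Cond) (u : Clp) : p ∈ mN (dN u) bN := by
  rw [mem_mN_bN]
  intro q _
  refine ⟨q, le_rfl, u, ?_⟩
  have : eN (dN u) (dN u) = ⊤ := eqB_refl _
  rw [this]
  exact RO.mem_top q

theorem nN_mem_oN (p : Cond) (k : ℕ) : p ∈ mN (nN k : NS sys) oN := by
  rw [mem_mN_oN]
  intro q _
  refine ⟨q, le_rfl, k, ?_⟩
  have : eN (nN k : NS sys) (nN k) = ⊤ := eqB_refl _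
  rw [this]
  exact RO.mem_top q

theorem nN_mem_pN (p : Cond) {k b : ℕ} (h : k % 2 = b) : p ∈ mN (nN k) (pN b) := by
  rw [mN_nN_pN, if_pos h]
  exact RO.mem_top p

theorem mem_eN_symm {p : Cond} {x y : NS sys} (h : p ∈ eN x y) : p ∈ eN y x := by
  have : eN y x = eN x y := eqB_symm _ _
  rw [this]
  exact h

theorem mem_mN_congr {p : Cond} {x x' y y' : NS sys} (h : p ∈ mN x y) (h1 : p ∈ eN x x')
    (h2 : p ∈ eN y y') : p ∈ mN x' y' := by
  rw [← RO.prin_le_iff] at h h1 h2 ⊢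
  exact memB_congr_left h1 (memB_congr_right h2 h)

theorem mem_val_congr {p : Cond} {φ : Fml} {v w : ℕ → NS sys} (h : p ∈ val φ v)
    (h1 : ∀ i < bd φ, p ∈ eN (v i) (w i)) : p ∈ val φ w := by
  rw [← RO.prin_le_iff] at h ⊢
  exact val_congr φ (fun i hi => RO.prin_le_iff.mpr (h1 i hi)) h

theorem mem_eN_self (p : Cond) (x : NS sys) : p ∈ eN x x := by
  have : eN x x = ⊤ := eqB_refl _
  rw [this]
  exact RO.mem_top p

theorem notMem_eN_nN {p : Cond} {k l : ℕ} (h : k ≠ l) : p ∉ eN (nN k : NS sys) (nN l) := by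
  have : eN (nN k : NS sys) (nN l) = ⊥ := eqB_natN_ne h
  rw [this]
  exact RO.notMem_bot p

/-! ### Generic facts about the names -/

theorem subset_of_forces {p : Cond} {u v : Clp} (h : u.1 ⊆ v.1) {t : NS sys}
    (ht : p ∈ mN t (dN u)) : p ∈ mN t (dN v) := by
  rw [mem_mN_dN] at ht ⊢
  intro q hq
  obtain ⟨r, hr, k, h1, h2⟩ := ht q hq
  exact ⟨r, hr, k, ev_mono k h r h1, h2⟩

theorem mem_mN_sup {p : Cond} {u v : Clp} {t : NS sys} :
    p ∈ mN t (dN (Clp.sup u v)) ↔ ∀ q ≤ p, ∃ r ≤ q, r ∈ mN t (dN u) ∨ r ∈ mN t (dN v) := by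
  have hev : ∀ k : ℕ, ∀ r : Cond, r ∈ ev k (Clp.sup u v) → ∃ s ≤ r, s ∈ ev k u ∨ s ∈ ev k v := by
    intro k r hr
    by_cases h : ∃ s ≤ r, s ∈ ev k u
    · obtain ⟨s, hs, h⟩ := h
      exact ⟨s, hs, Or.inl h⟩
    · push Not at h
      have h1 : r ∈ ev k (Clp.cpl u) := by
        rw [ev_cpl, RO.mem_compl]
        exact h
      refine ⟨r, le_rfl, Or.inr fun x hx => ?_⟩
      exact (hr hx).resolve_left (h1 hx)
  constructor
  · intro h q hq
    rw [mem_mN_dN] at h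
    obtain ⟨r, hr, k, h1, h2⟩ := h q hq
    obtain ⟨s, hs, h3⟩ := hev k r h1
    refine ⟨s, hs.trans hr, ?_⟩
    have h4 : s ∈ eN t (nN k) := (eN t (nN k)).down h2 hs
    rcases h3 with h3 | h3
    · exact Or.inl (mem_mN_congr (by rw [mN_nN_dN]; exact h3) (mem_eN_symm h4) (mem_eN_self _ _))
    · exact Or.inr (mem_mN_congr (by rw [mN_nN_dN]; exact h3) (mem_eN_symm h4) (mem_eN_self _ _))
  · intro h
    refine (mN t (dN (Clp.sup u v))).mem_of_dense fun q hq => ?_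
    obtain ⟨r, hr, h1⟩ := h q hq
    refine ⟨r, hr, ?_⟩
    rcases h1 with h1 | h1
    · exact subset_of_forces Set.subset_union_left h1
    · exact subset_of_forces Set.subset_union_right h1

end Pool.Agent.Lib.MP_5ed4ef_gt
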