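import Pool.Agent.Lib.MP_5ed4ef_gt.Defs
import Pool.Agent.Lib.MP_5db68c_lc.Topo

/-!
# No `ℕ(∞)` remainder for a good base
-/

set_option autoImplicit false

universe u

set_option synthInstance.maxSize 100000
set_option synthInstance.maxHeartbeats 400000

namespace Pool.Agent.Lib.MP_5ed4ef_gt

open Pool.Agent.MP_5db68c_lc

variable {M : Type u} [Membership M M] [hM : IsZF M]

/-! ## Open sets -/

/-- A definable subset of `K` all of whose points are interior is open. -/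
theorem open_of_nhds {K τ : M} (ht : IsTopology K τ) (P : El K → Prop) (hP : DP M P)
    (h : ∀ y : El K, P y → ∃ V : M, V ∈ τ ∧ y.1 ∈ V ∧ ∀ z : El K, z.1 ∈ V → P z) :
    ∃ U : M, U ∈ τ ∧ ∀ y : El K, y.1 ∈ U ↔ P y := by
  have hP' := @hP.lift₁
  obtain ⟨U, hU⟩ := exists_el_subset P hP
  refine ⟨U, ?_, fun y => ?_⟩
  · obtain ⟨s, hs⟩ := exists_el_subset (a := τ) (fun V : El τ => ∀ z : El K, z.1 ∈ V.1 → P z)
      inferInstance
    refine ht.sUnion s U (fun V hV => ((hs V).1 hV).1) (fun x => ?_)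
    constructor
    · intro hx
      obtain ⟨hxK, hPx⟩ := (hU x).1 hx
      obtain ⟨V, hV, hxV, hVP⟩ := h ⟨x, hxK⟩ hPx
      exact ⟨V, (hs V).2 ⟨hV, hVP⟩, hxV⟩
    · rintro ⟨V, hV, hxV⟩
      obtain ⟨hVt, hVP⟩ := (hs V).1 hV
      have hxK := ht.subset V hVt x hxV
      exact (hU x).2 ⟨hxK, hVP ⟨x, hxK⟩ hxV⟩
  · rw [hU]
    exact ⟨fun h => h.2, fun h => ⟨y.2, h⟩⟩

theorem open_inter {K τ : M} (ht : IsTopology K τ) {U V : M} (hU : U ∈ τ) (hV : V ∈ τ) :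
    ∃ W : M, W ∈ τ ∧ ∀ y : M, y ∈ W ↔ y ∈ U ∧ y ∈ V := by
  obtain ⟨W, hW⟩ := exists_sep (P := fun x : M => x ∈ V) (by unfold D1; infer_instance) U
  exact ⟨W, ht.inter U V W hU hV hW, hW⟩

theorem open_union {K τ : M} (ht : IsTopology K τ) {U V : M} (hU : U ∈ τ) (hV : V ∈ τ) :
    ∃ W : M, W ∈ τ ∧ ∀ y : M, y ∈ W ↔ y ∈ U ∨ y ∈ V := by
  obtain ⟨s, hs⟩ := hM.zf.pairing U V
  obtain ⟨W, hW⟩ := hM.zf.union s
  refine ⟨W, ht.sUnion s W ?_ ?_, fun y => ?_⟩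
  · intro A hA
    rcases (hs A).1 hA with rfl | rfl <;> assumption
  · intro x
    rw [hW]
  · rw [hW]
    constructor
    · rintro ⟨A, hA, hy⟩
      rcases (hs A).1 hA with rfl | rfl
      · exact Or.inl hy
      · exact Or.inr hy
    · rintro (hy | hy)
      · exact ⟨U, (hs U).2 (Or.inl rfl), hy⟩
      · exact ⟨V, (hs V).2 (Or.inr rfl), hy⟩

theorem open_empty {K τ : M} (ht : IsTopology K τ) : ∃ W : M, W ∈ τ ∧ ∀ y : M, y ∉ W := by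
  obtain ⟨W, hW, h⟩ := open_of_nhds ht (fun _ => False) inferInstance (fun _ h => h.elim)
  exact ⟨W, hW, fun y hy => (h ⟨y, ht.subset W hW y hy⟩).1 hy⟩

/-- Compactness for directed families of open sets. -/
theorem directed_compact {K τ : M} (hc : IsCompactIn K τ) (Q : El τ → Prop) (hQ : DP M Q)
    (hne : ∃ U, Q U)
    (hdir : ∀ U V, Q U → Q V → ∃ W, Q W ∧ (∀ x : M, x ∈ U.1 → x ∈ W.1) ∧
      ∀ x : M, x ∈ V.1 → x ∈ W.1)
    (hcov : ∀ y : El K, ∃ U, Q U ∧ y.1 ∈ U.1) : ∃ U, Q U ∧ ∀ y : El K, y.1 ∈ U.1 := by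
  obtain ⟨c, hcm⟩ := exists_el_subset Q hQ
  obtain ⟨c', hsub, hfin, hcov'⟩ := hc c (fun U hU => ((hcm U).1 hU).1) (by
    intro x hx
    obtain ⟨U, hU, hxU⟩ := hcov ⟨x, hx⟩
    exact ⟨U.1, (hcm U.1).2 ⟨U.2, hU⟩, hxU⟩)
  obtain ⟨W, hW, hWc⟩ := finite_directed c c' hsub hfin
    (by obtain ⟨U, hU⟩ := hne; exact ⟨U.1, (hcm U.1).2 ⟨U.2, hU⟩⟩) (by
      intro U V hU hV
      obtain ⟨h1, h2⟩ := (hcm U).1 hU
      obtain ⟨h3, h4⟩ := (hcm V).1 hV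
      obtain ⟨W, hW, h5, h6⟩ := hdir ⟨U, h1⟩ ⟨V, h3⟩ h2 h4
      exact ⟨W.1, (hcm W.1).2 ⟨W.2, hW⟩, h5, h6⟩)
  obtain ⟨h1, h2⟩ := (hcm W).1 hW
  refine ⟨⟨W, h1⟩, h2, fun y => ?_⟩
  obtain ⟨U, hU, hyU⟩ := hcov' y.1 y.2
  exact hWc U hU y.1 hyU

/-- A binary predicate on `M` definable in the typed sense is definable. -/
theorem D2_of_DP {P : M → M → Prop} (hP : DP M (fun p : M × M => P p.1 p.2)) : D2 P := by
  obtain ⟨G, hG, h⟩ := DP.iff₂.1 hP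
  exact Dfb.congr hG (fun v => h (v 0) (v 1))

/-! ## The base -/

namespace Good

variable {W X R B : M}

theorem exists_compl (h : Good W X R B) {D : M} (hD : D ∈ B) :
    ∃ D' : M, D' ∈ B ∧ ∀ k : M, k ∈ D' ↔ k ∈ W ∧ k ∉ D := by
  obtain ⟨D', hD'⟩ := exists_sep (P := fun x : M => x ∉ D) (by unfold D1; infer_instance) W
  exact ⟨D', h.compl D D' hD hD', hD'⟩

theorem exists_inter (h : Good W X R B) {D D' : M} (hD : D ∈ B) (hD' : D' ∈ B) :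
    ∃ D'' : M, D'' ∈ B ∧ ∀ k : M, k ∈ D'' ↔ k ∈ D ∧ k ∈ D' := by
  obtain ⟨D'', hD''⟩ := exists_sep (P := fun x : M => x ∈ D') (by unfold D1; infer_instance) D
  exact ⟨D'', h.inter D D' D'' hD hD' hD'', hD''⟩

theorem exists_diff (h : Good W X R B) {D D' : M} (hD : D ∈ B) (hD' : D' ∈ B) :
    ∃ D'' : M, D'' ∈ B ∧ ∀ k : M, k ∈ D'' ↔ k ∈ D ∧ k ∉ D' := by
  obtain ⟨C, hC, hC'⟩ := h.exists_compl hD'
  obtain ⟨E, hE, hE'⟩ := h.exists_inter hD hC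
  refine ⟨E, hE, fun k => ?_⟩
  rw [hE', hC']
  exact ⟨fun h => ⟨h.1, h.2.2⟩, fun h1 => ⟨h1.1, h.sub D hD k h1.1, h1.2⟩⟩

theorem exists_union (h : Good W X R B) {D D' : M} (hD : D ∈ B) (hD' : D' ∈ B) :
    ∃ D'' : M, D'' ∈ B ∧ ∀ k : M, k ∈ D'' ↔ k ∈ D ∨ k ∈ D' := by
  obtain ⟨C, hC, hC'⟩ := h.exists_compl hD
  obtain ⟨E, hE, hE'⟩ := h.exists_diff hC hD'
  obtain ⟨F, hF, hF'⟩ := h.exists_compl hE
  refine ⟨F, hF, fun k => ?_⟩
  rw [hF', hE', hC']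
  constructor
  · rintro ⟨h1, h2⟩
    by_contra h3
    push Not at h3
    exact h2 ⟨⟨h1, h3.1⟩, h3.2⟩
  · rintro (h1 | h1)
    · exact ⟨h.sub D hD k h1, fun h2 => h2.1.2 h1⟩
    · exact ⟨h.sub D' hD' k h1, fun h2 => h2.2 h1⟩

end Good

/-! ## Compactifications -/

section Comp

variable {W X R B t K τ : M} {e : El X → El K}

/-- Every member of the base contained in `X` has a clopen image. -/
theorem image_clopen (h : Good W X R B)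
    (ht : ∀ U : M, U ∈ t ↔ (∀ k : M, k ∈ U → k ∈ X) ∧ ∀ k : M, k ∈ U → ∃ D : M, D ∈ B ∧ k ∈ D ∧
      ∀ l : M, l ∈ X → l ∈ D → l ∈ U)
    (hK : IsCompactification X t K τ e) {D : M} (hD : D ∈ B) (hDR : ∀ l : M, l ∈ R → l ∉ D) :
    ∃ E E' : M, E ∈ τ ∧ E' ∈ τ ∧ (∀ y : El K, y.1 ∈ E ↔ ∃ x : El X, x.1 ∈ D ∧ e x = y) ∧
      ∀ y : El K, y.1 ∈ E' ↔ ¬ ∃ x : El X, x.1 ∈ D ∧ e x = y := by
  have he0 : DF M e := FunIn.DF hK.fun_in
  have he := @he0.lift₁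
  have hDX : ∀ k : M, k ∈ D → k ∈ X := by
    intro k hk
    rcases (h.mem_W k).1 (h.sub D hD k hk) with h1 | h1
    · exact h1
    · exact (hDR k h1 hk).elim
  -- the complement of the image is open
  obtain ⟨E', hE', hE'm⟩ := open_of_nhds hK.top (fun y => ¬ ∃ x : El X, x.1 ∈ D ∧ e x = y)
    inferInstance (by
      intro y hy
      obtain ⟨I, hI⟩ := exists_el_subset (a := B) (fun D' : El B => ∃ V : El τ, y.1 ∈ V.1 ∧
        ∀ x : El X, x.1 ∈ D'.1 → x.1 ∈ D → (e x).1 ∉ V.1) inferInstance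
      have hW : W ∈ I := by
        refine h.core1 I (fun D' hD' => ((hI D').1 hD').1) ?_ ?_ ?_
        · intro D1 D2 h1 h2 h3
          obtain ⟨h4, V, hV, h5⟩ := (hI D1).1 h1
          exact (hI D2).2 ⟨h2, V, hV, fun x hx hxD => h5 x (h3 _ hx) hxD⟩
        · intro D1 D2 D3 h1 h2 h3
          obtain ⟨h4, V, hV, h5⟩ := (hI D1).1 h1
          obtain ⟨h6, V', hV', h7⟩ := (hI D2).1 h2
          obtain ⟨V'', hV'', h8⟩ := open_inter hK.top V.2 V'.2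
          obtain ⟨D4, hD4, hD4'⟩ := h.exists_union h4 h6
          have hD34 : D3 = D4 := ext' fun k => by rw [h3, hD4']
          refine (hI D3).2 ⟨hD34 ▸ hD4, ⟨V'', hV''⟩, (h8 _).2 ⟨hV, hV'⟩, fun x hx hxD hxV => ?_⟩
          rcases (h3 _).1 hx with hx | hx
          · exact h5 x hx hxD ((h8 _).1 hxV).1
          · exact h7 x hx hxD ((h8 _).1 hxV).2
        · intro k hk
          by_cases hkD : k ∈ D
          · have hkX := hDX k hkD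
            have hne : (e ⟨k, hkX⟩).1 ≠ y.1 := by
              intro h1
              exact hy ⟨⟨k, hkX⟩, hkD, Subtype.ext h1⟩
            obtain ⟨U, V, hU, hV, h1, h2, h3⟩ := hK.hausdorff _ _ (e ⟨k, hkX⟩).2 y.2 hne
            obtain ⟨Z, hZ⟩ := exists_el_subset (a := X) (fun x => (e x).1 ∈ U) inferInstance
            have hZt : Z ∈ t := by
              rw [hK.embedding]
              refine ⟨fun x hx => ((hZ x).1 hx).1, U, hU, fun x => ?_⟩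
              rw [hZ]
              exact ⟨fun h => h.2, fun h => ⟨x.2, h⟩⟩
            obtain ⟨D', hD', hkD', h4⟩ := ((ht Z).1 hZt).2 k ((hZ k).2 ⟨hkX, h1⟩)
            refine ⟨D', (hI D').2 ⟨hD', ⟨V, hV⟩, h2, fun x hx _ hxV => ?_⟩, hkD'⟩
            exact h3 (e x).1 ⟨((hZ x.1).1 (h4 x.1 x.2 hx)).2, hxV⟩
          · obtain ⟨D', hD', hD''⟩ := h.exists_compl hD
            refine ⟨D', (hI D').2 ⟨hD', ⟨K, hK.top.whole⟩, y.2, fun x hx hxD => ?_⟩,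
              (hD'' k).2 ⟨hk, hkD⟩⟩
            exact (((hD'' _).1 hx).2 hxD).elim
      obtain ⟨_, V, hV, h1⟩ := (hI W).1 hW
      refine ⟨V.1, V.2, hV, ?_⟩
      rintro z hz ⟨x, hx, rfl⟩
      exact h1 x (h.sub D hD _ hx) hx hz)
  -- the image is open
  have hDt : D ∈ t := (ht D).2 ⟨hDX, fun k hk => ⟨D, hD, hk, fun l _ hl => hl⟩⟩
  obtain ⟨_, V, hV, hVD⟩ := (hK.embedding D).1 hDt
  refine ⟨V, E', hV, hE', fun y => ?_, hE'm⟩
  constructor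
  · intro hy
    by_contra hcon
    obtain ⟨Q, hQ, hQm⟩ := open_inter hK.top hV hE'
    obtain ⟨x, hx⟩ := hK.dense Q hQ ⟨y.1, (hQm y.1).2 ⟨hy, (hE'm y).2 hcon⟩⟩
    obtain ⟨h1, h2⟩ := (hQm _).1 hx
    exact (hE'm (e x)).1 h2 ⟨x, (hVD x).2 h1, rfl⟩
  · rintro ⟨x, hx, rfl⟩
    exact (hVD x).1 hx

/-- Neighbourhoods in `K` tracing members of the base. -/
theorem exists_trace
    (ht : ∀ U : M, U ∈ t ↔ (∀ k : M, k ∈ U → k ∈ X) ∧ ∀ k : M, k ∈ U → ∃ D : M, D ∈ B ∧ k ∈ D ∧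
      ∀ l : M, l ∈ X → l ∈ D → l ∈ U)
    (hK : IsCompactification X t K τ e) {D : M} (hD : D ∈ B) :
    ∃ V : M, V ∈ τ ∧ ∀ x : El X, x.1 ∈ D ↔ (e x).1 ∈ V := by
  obtain ⟨Z, hZ⟩ := exists_sep (P := fun x : M => x ∈ D) (by unfold D1; infer_instance) X
  have hZt : Z ∈ t := by
    rw [ht]
    refine ⟨fun k hk => ((hZ k).1 hk).1, fun k hk => ⟨D, hD, ((hZ k).1 hk).2, fun l hl hl' => ?_⟩⟩
    exact (hZ l).2 ⟨hl, hl'⟩
  obtain ⟨_, V, hV, hVZ⟩ := (hK.embedding Z).1 hZt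
  refine ⟨V, hV, fun x => ?_⟩
  rw [← hVZ, hZ]
  exact ⟨fun h => ⟨x.2, h⟩, fun h => h.2⟩

/-- The trace on `X` of an open set of `K` is a union of members of the base. -/
theorem trace_open
    (ht : ∀ U : M, U ∈ t ↔ (∀ k : M, k ∈ U → k ∈ X) ∧ ∀ k : M, k ∈ U → ∃ D : M, D ∈ B ∧ k ∈ D ∧
      ∀ l : M, l ∈ X → l ∈ D → l ∈ U)
    (hK : IsCompactification X t K τ e) {V : M} (hV : V ∈ τ) (x : El X) (hx : (e x).1 ∈ V) :
    ∃ D : M, D ∈ B ∧ x.1 ∈ D ∧ ∀ l : El X, l.1 ∈ D → (e l).1 ∈ V := by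
  have he0 : DF M e := FunIn.DF hK.fun_in
  have he := @he0.lift₁
  obtain ⟨Z, hZ⟩ := exists_el_subset (a := X) (fun x => (e x).1 ∈ V) inferInstance
  have hZt : Z ∈ t := by
    rw [hK.embedding]
    refine ⟨fun x hx => ((hZ x).1 hx).1, V, hV, fun x => ?_⟩
    rw [hZ]
    exact ⟨fun h => h.2, fun h => ⟨x.2, h⟩⟩
  obtain ⟨D, hD, h1, h2⟩ := ((ht Z).1 hZt).2 x.1 ((hZ x.1).2 ⟨x.2, hx⟩)
  exact ⟨D, hD, h1, fun l hl => ((hZ l.1).1 (h2 l.1 l.2 hl)).2⟩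

/-- An isolated point `r` of the remainder is isolated by a clopen set of `K`. -/
theorem exists_clopen (h : Good W X R B)
    (ht : ∀ U : M, U ∈ t ↔ (∀ k : M, k ∈ U → k ∈ X) ∧ ∀ k : M, k ∈ U → ∃ D : M, D ∈ B ∧ k ∈ D ∧
      ∀ l : M, l ∈ X → l ∈ D → l ∈ U)
    (hK : IsCompactification X t K τ e) {T : M}
    (hT : ∀ y : M, y ∈ T ↔ y ∈ K ∧ ∀ x : El X, (e x).1 ≠ y) {r V0 : M} (hr : r ∈ T)
    (hV0 : V0 ∈ τ) (hrV0 : r ∈ V0) (hV0r : ∀ z : M, z ∈ T → z ∈ V0 → z = r) :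
    ∃ O O' : M, O ∈ τ ∧ O' ∈ τ ∧ (∀ y : M, y ∈ O' ↔ y ∈ K ∧ y ∉ O) ∧
      ∀ z : M, z ∈ T → (z ∈ O ↔ z = r) := by
  have he0 : DF M e := FunIn.DF hK.fun_in
  have he := @he0.lift₁
  have hrK : r ∈ K := ((hT r).1 hr).1
  -- the open set `Z`
  obtain ⟨Z, hZ, hZm⟩ := open_of_nhds hK.top (fun y => y.1 ∈ V0 ∨ ∃ x : El X, e x = y)
    inferInstance (by
      intro y hy
      rcases hy with hy | ⟨x, rfl⟩
      · exact ⟨V0, hV0, hy, fun z hz => Or.inl hz⟩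
      · obtain ⟨D, hD, hxD, hDR⟩ := h.open_X x.1 x.2
        obtain ⟨E, E', hE, hE', h1, h2⟩ := image_clopen h ht hK hD hDR
        refine ⟨E, hE, (h1 _).2 ⟨x, hxD, rfl⟩, fun z hz => ?_⟩
        obtain ⟨x', _, hx'⟩ := (h1 z).1 hz
        exact Or.inr ⟨x', hx'⟩)
  -- separation of `r` and `K \ Z`
  have sep : ∃ U U' : M, U ∈ τ ∧ U' ∈ τ ∧ r ∈ U ∧ (∀ y : M, y ∈ U → y ∉ U') ∧
      ∀ y : El K, y.1 ∉ Z → y.1 ∈ U' := by
    obtain ⟨G, ⟨V, G', hrV, hdis, hG⟩, hGK⟩ := directed_compact hK.compact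
      (fun G : El τ => ∃ V G' : El τ, r ∈ V.1 ∧ (∀ y : M, y ∈ V.1 → y ∉ G'.1) ∧
        ∀ y : M, y ∈ G.1 → y ∈ Z ∨ y ∈ G'.1) inferInstance
      (by
        obtain ⟨O, hO, hOe⟩ := open_empty hK.top
        exact ⟨⟨Z, hZ⟩, ⟨K, hK.top.whole⟩, ⟨O, hO⟩, hrK, fun y _ => hOe y, fun y hy => Or.inl hy⟩)
      (by
        rintro G₁ G₂ ⟨V₁, H₁, a1, a2, a3⟩ ⟨V₂, H₂, b1, b2, b3⟩
        obtain ⟨G, hG, hGm⟩ := open_union hK.top G₁.2 G₂.2
        obtain ⟨V, hV, hVm⟩ := open_inter hK.top V₁.2 V₂.2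
        obtain ⟨H, hH, hHm⟩ := open_union hK.top H₁.2 H₂.2
        refine ⟨⟨G, hG⟩, ⟨⟨V, hV⟩, ⟨H, hH⟩, (hVm _).2 ⟨a1, b1⟩, fun y hy hy' => ?_,
          fun y hy => ?_⟩, fun x hx => (hGm x).2 (Or.inl hx), fun x hx => (hGm x).2 (Or.inr hx)⟩
        · obtain ⟨h1, h2⟩ := (hVm _).1 hy
          rcases (hHm _).1 hy' with h3 | h3
          · exact a2 y h1 h3
          · exact b2 y h2 h3
        · rcases (hGm _).1 hy with h1 | h1
          · rcases a3 y h1 with h2 | h2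
            · exact Or.inl h2
            · exact Or.inr ((hHm _).2 (Or.inl h2))
          · rcases b3 y h1 with h2 | h2
            · exact Or.inl h2
            · exact Or.inr ((hHm _).2 (Or.inr h2)))
      (by
        intro y
        by_cases hy : y.1 ∈ Z
        · obtain ⟨O, hO, hOe⟩ := open_empty hK.top
          exact ⟨⟨Z, hZ⟩, ⟨⟨K, hK.top.whole⟩, ⟨O, hO⟩, hrK, fun y _ => hOe y,
            fun y hy => Or.inl hy⟩, hy⟩
        · have hne : y.1 ≠ r := by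
            intro hyr
            apply hy
            rw [hZm]
            left
            rw [hyr]
            exact hrV0
          obtain ⟨G', V, hG', hV, h1, h2, h3⟩ := hK.hausdorff _ _ y.2 hrK hne
          exact ⟨⟨G', hG'⟩, ⟨⟨V, hV⟩, ⟨G', hG'⟩, h2, fun z hz hz' => h3 z ⟨hz', hz⟩,
            fun z hz => Or.inr hz⟩, h1⟩)
    refine ⟨V.1, G'.1, V.2, G'.2, hrV, hdis, fun y hy => ?_⟩
    rcases hG y.1 (hGK y) with h1 | h1
    · exact (hy h1).elim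
    · exact h1
  obtain ⟨U, U', hU, hU', hrU, hdis, hZU'⟩ := sep
  -- compactness once more
  obtain ⟨G, ⟨D, hDR, hG⟩, hGK⟩ := directed_compact hK.compact
    (fun G : El τ => ∃ D : El B, (∀ l : El R, l.1 ∉ D.1) ∧ ∀ y : El K, y.1 ∈ G.1 → y.1 ∈ U ∨
      y.1 ∈ U' ∨ ∃ x : El X, x.1 ∈ D.1 ∧ e x = y) inferInstance
    (by
      obtain ⟨D, hD, hDm⟩ := h.exists_diff h.whole h.whole
      refine ⟨⟨U, hU⟩, ⟨D, hD⟩, fun l hl => ((hDm _).1 hl).2 ((hDm _).1 hl).1,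
        fun y hy => Or.inl hy⟩)
    (by
      rintro G₁ G₂ ⟨D₁, a1, a2⟩ ⟨D₂, b1, b2⟩
      obtain ⟨G, hG, hGm⟩ := open_union hK.top G₁.2 G₂.2
      obtain ⟨D, hD, hDm⟩ := h.exists_union D₁.2 D₂.2
      refine ⟨⟨G, hG⟩, ⟨⟨D, hD⟩, fun l hl => ?_, fun y hy => ?_⟩,
        fun x hx => (hGm x).2 (Or.inl hx), fun x hx => (hGm x).2 (Or.inr hx)⟩
      · rcases (hDm _).1 hl with h1 | h1
        · exact a1 l h1
        · exact b1 l h1
      · rcases (hGm _).1 hy with h1 | h1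
        · rcases a2 y h1 with h2 | h2 | ⟨x, h2, h3⟩
          · exact Or.inl h2
          · exact Or.inr (Or.inl h2)
          · exact Or.inr (Or.inr ⟨x, (hDm _).2 (Or.inl h2), h3⟩)
        · rcases b2 y h1 with h2 | h2 | ⟨x, h2, h3⟩
          · exact Or.inl h2
          · exact Or.inr (Or.inl h2)
          · exact Or.inr (Or.inr ⟨x, (hDm _).2 (Or.inr h2), h3⟩))
    (by
      intro y
      obtain ⟨D0, hD0, hD0m⟩ := h.exists_diff h.whole h.whole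
      by_cases hy : ∃ x : El X, e x = y
      · obtain ⟨x, rfl⟩ := hy
        obtain ⟨D, hD, hxD, hDR⟩ := h.open_X x.1 x.2
        obtain ⟨E, E', hE, hE', h1, h2⟩ := image_clopen h ht hK hD hDR
        exact ⟨⟨E, hE⟩, ⟨⟨D, hD⟩, fun l => hDR l.1 l.2, fun y hy => Or.inr (Or.inr ((h1 y).1 hy))⟩,
          (h1 _).2 ⟨x, hxD, rfl⟩⟩
      · by_cases hyU : y.1 ∈ U
        · exact ⟨⟨U, hU⟩, ⟨⟨D0, hD0⟩, fun l hl => ((hD0m _).1 hl).2 ((hD0m _).1 hl).1,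
            fun z hz => Or.inl hz⟩, hyU⟩
        · have hyT : y.1 ∈ T := by
            rw [hT]
            refine ⟨y.2, fun x hx => hy ⟨x, Subtype.ext hx⟩⟩
          have hyZ : y.1 ∉ Z := by
            rw [hZm]
            rintro (h1 | h1)
            · have := hV0r y.1 hyT h1
              rw [this] at hyU
              exact hyU hrU
            · exact hy h1
          exact ⟨⟨U', hU'⟩, ⟨⟨D0, hD0⟩, fun l hl => ((hD0m _).1 hl).2 ((hD0m _).1 hl).1,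
            fun z hz => Or.inr (Or.inl hz)⟩, hZU' y hyZ⟩)
  obtain ⟨E, E', hE, hE', h1, h2⟩ := image_clopen h ht hK D.2 (fun l hl => hDR ⟨l, hl⟩)
  obtain ⟨O, hO, hOm⟩ := open_inter hK.top hU hE'
  obtain ⟨O', hO', hO'm⟩ := open_union hK.top hU' hE
  have cover : ∀ y : El K, y.1 ∈ U ∨ y.1 ∈ U' ∨ y.1 ∈ E := by
    intro y
    rcases hG y (hGK y) with h3 | h3 | h3
    · exact Or.inl h3
    · exact Or.inr (Or.inl h3)
    · exact Or.inr (Or.inr ((h1 y).2 h3))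
  have hEE' : ∀ y : El K, y.1 ∈ E' ↔ y.1 ∉ E := fun y => by rw [h1, h2]
  refine ⟨O, O', hO, hO', fun y => ?_, fun z hz => ?_⟩
  · constructor
    · intro hy
      have hyK := hK.top.subset O' hO' y hy
      refine ⟨hyK, fun hyO => ?_⟩
      obtain ⟨h3, h4⟩ := (hOm y).1 hyO
      rcases (hO'm y).1 hy with h5 | h5
      · exact hdis y h3 h5
      · exact (hEE' ⟨y, hyK⟩).1 h4 h5
    · rintro ⟨hyK, hyO⟩
      rw [hO'm]
      rcases cover ⟨y, hyK⟩ with h3 | h3 | h3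
      · right
        by_contra h4
        exact hyO ((hOm y).2 ⟨h3, (hEE' ⟨y, hyK⟩).2 h4⟩)
      · exact Or.inl h3
      · exact Or.inr h3
  · have hzK : z ∈ K := ((hT z).1 hz).1
    have hzE : ∀ z : M, z ∈ T → ∀ hzK : z ∈ K, ¬ ∃ x : El X, x.1 ∈ D.1 ∧ e x = ⟨z, hzK⟩ := by
      rintro z hz hzK ⟨x, _, hx⟩
      exact ((hT z).1 hz).2 x (congrArg Subtype.val hx)
    constructor
    · intro hzO
      obtain ⟨h3, h4⟩ := (hOm z).1 hzO
      by_contra hne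
      have hzZ : z ∉ Z := by
        intro h5
        rcases (hZm ⟨z, hzK⟩).1 h5 with h6 | ⟨x, h6⟩
        · exact hne (hV0r z hz h6)
        · exact ((hT z).1 hz).2 x (congrArg Subtype.val h6)
      exact hdis z h3 (hZU' ⟨z, hzK⟩ hzZ)
    · rintro rfl
      exact (hOm z).2 ⟨hrU, (h2 ⟨z, hzK⟩).2 (hzE z hz hzK)⟩

end Comp

theorem neg_of_good {W X R B t : M} (h : Good W X R B)
    (ht : ∀ U : M, U ∈ t ↔ (∀ k : M, k ∈ U → k ∈ X) ∧ ∀ k : M, k ∈ U → ∃ D : M, D ∈ B ∧ k ∈ D ∧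
      ∀ l : M, l ∈ X → l ∈ D → l ∈ U)
    (Y s : M) (hY : IsNInf Y s) : ¬ IsRemainder Y s X t := by
  rintro ⟨K, τ, e, hK, T, σ, hT, hσ, f, hf, hfb, hfo⟩
  obtain ⟨w, hw, hYm, hsm⟩ := hY
  have hwW : w = W := hw.unique h.omega
  subst hwW
  have he0 : DF M e := FunIn.DF hK.fun_in
  have he := @he0.lift₁
  have hf0 : DF M f := FunIn.DF hf
  have hf' := @hf0.lift₁
  -- isolating clopen sets
  have iso : ∀ n : M, n ∈ w → ∃ O O' : M, O ∈ τ ∧ O' ∈ τ ∧ (∀ y : M, y ∈ O' ↔ y ∈ K ∧ y ∉ O) ∧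
      ∀ z : El T, z.1 ∈ O ↔ (f z).1 = n := by
    intro n hn
    have hnY : n ∈ Y := (hYm n).2 (Or.inl hn)
    obtain ⟨r, hr⟩ := hfb.2 ⟨n, hnY⟩
    obtain ⟨sn, hsn⟩ := exists_sing n
    obtain ⟨sr, hsr⟩ := exists_sing r.1
    have hwn : w ∉ sn := by
      rw [hsn]
      intro hwn
      have hww : w ∈ w := by
        rw [← hwn] at hn
        exact hn
      exact N.no_cycle w w hww hww
    have hsns : sn ∈ s := by
      rw [hsm]
      refine ⟨fun x hx => ?_, fun h1 => (hwn h1).elim⟩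
      rw [(hsn x).1 hx]
      exact hnY
    have hsrσ : sr ∈ σ := by
      rw [hfo sr sn (fun x hx => by rw [(hsr x).1 hx]; exact r.2) (fun y => ?_)]
      · exact hsns
      · rw [hsn]
        constructor
        · rintro rfl
          exact ⟨r, (hsr _).2 rfl, by rw [hr]⟩
        · rintro ⟨x, hx, rfl⟩
          have : x = r := Subtype.ext ((hsr _).1 hx)
          rw [this, hr]
    obtain ⟨V0, hV0, hV0m⟩ := (hσ.topology sr).1 hsrσ
    obtain ⟨O, O', hO, hO', h1, h2⟩ := exists_clopen h ht hK hT r.2 hV0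
      ((hV0m r.1).1 ((hsr _).2 rfl)).1 (fun z hz hzV => (hsr z).1 ((hV0m z).2 ⟨hzV, hz⟩))
    refine ⟨O, O', hO, hO', h1, fun z => ?_⟩
    rw [h2 z.1 z.2]
    constructor
    · intro hz
      have : z = r := Subtype.ext hz
      rw [this, hr]
    · intro hz
      have : z = r := hfb.1 (by rw [hr]; exact Subtype.ext hz)
      rw [this]
  let P : M → M → Prop := fun n D => ∃ O O' : El τ, (∀ y : M, y ∈ O'.1 ↔ y ∈ K ∧ y ∉ O.1) ∧
    (∀ z : El T, z.1 ∈ O.1 ↔ (f z).1 = n) ∧ ∀ x : El X, (e x).1 ∈ O.1 ↔ x.1 ∈ D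
  have hP : D2 P := by
    apply D2_of_DP
    show DP M (fun p : M × M => ∃ O O' : El τ, (∀ y : M, y ∈ O'.1 ↔ y ∈ K ∧ y ∉ O.1) ∧
      (∀ z : El T, z.1 ∈ O.1 ↔ (f z).1 = p.1) ∧ ∀ x : El X, (e x).1 ∈ O.1 ↔ x.1 ∈ p.2)
    infer_instance
  -- functionality
  have func : ∀ n D D' : M, n ∈ w → D ∈ B → D' ∈ B → P n D → P n D' →
      ∀ k : M, k ∈ R → k ∈ D → k ∈ D' := by
    rintro n D D' hn hD hD' ⟨O₁, O₁', a1, a2, a3⟩ ⟨O₂, O₂', b1, b2, b3⟩ k hkR hkD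
    by_contra hkD'
    obtain ⟨D1, hD1, hD1m⟩ := h.exists_diff hD hD'
    obtain ⟨V₀, hV₀, hV₀m⟩ := open_union hK.top O₁'.2 O₂.2
    have hkW : k ∈ w := (h.mem_W k).2 (Or.inr hkR)
    obtain ⟨V, ⟨D'', hkD'', hDV⟩, hVK⟩ := directed_compact hK.compact
      (fun V : El τ => ∃ D'' : El B, k ∈ D''.1 ∧ ∀ x : El X, (e x).1 ∈ V.1 → x.1 ∉ D''.1 ∨
        x.1 ∉ D1) inferInstance
      ⟨⟨V₀, hV₀⟩, ⟨w, h.whole⟩, hkW, fun x hx => by
        right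
        rw [hD1m]
        rintro ⟨c1, c2⟩
        rw [← a3] at c1
        rw [← b3] at c2
        rcases (hV₀m _).1 hx with c3 | c3
        · exact ((a1 _).1 c3).2 c1
        · exact c2 c3⟩
      (by
        rintro V₁ V₂ ⟨D₁, c1, c2⟩ ⟨D₂, d1, d2⟩
        obtain ⟨V, hV, hVm⟩ := open_union hK.top V₁.2 V₂.2
        obtain ⟨D₃, hD₃, hD₃m⟩ := h.exists_inter D₁.2 D₂.2
        refine ⟨⟨V, hV⟩, ⟨⟨D₃, hD₃⟩, (hD₃m _).2 ⟨c1, d1⟩, fun x hx => ?_⟩,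
          fun x hx => (hVm x).2 (Or.inl hx), fun x hx => (hVm x).2 (Or.inr hx)⟩
        rcases (hVm _).1 hx with c3 | c3
        · rcases c2 x c3 with c4 | c4
          · exact Or.inl fun c5 => c4 ((hD₃m _).1 c5).1
          · exact Or.inr c4
        · rcases d2 x c3 with c4 | c4
          · exact Or.inl fun c5 => c4 ((hD₃m _).1 c5).2
          · exact Or.inr c4)
      (by
        intro y
        by_cases hy : ∃ x : El X, e x = y
        · obtain ⟨x, rfl⟩ := hy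
          have hxk : x.1 ≠ k := by
            intro hxk
            exact h.disj x.1 x.2 (by rw [hxk]; exact hkR)
          obtain ⟨D₃, hD₃, c1, c2⟩ := h.sep x.1 k ((h.mem_W _).2 (Or.inl x.2)) hkW hxk
          obtain ⟨D₄, hD₄, hD₄m⟩ := h.exists_compl hD₃
          obtain ⟨V, hV, hVm⟩ := exists_trace ht hK hD₃
          refine ⟨⟨V, hV⟩, ⟨⟨D₄, hD₄⟩, (hD₄m _).2 ⟨hkW, c2⟩, fun x' hx' => ?_⟩, (hVm x).1 c1⟩
          left
          intro c3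
          exact ((hD₄m _).1 c3).2 ((hVm x').2 hx')
        · have hyT : y.1 ∈ T := by
            rw [hT]
            exact ⟨y.2, fun x hx => hy ⟨x, Subtype.ext hx⟩⟩
          refine ⟨⟨V₀, hV₀⟩, ⟨⟨w, h.whole⟩, hkW, fun x hx => ?_⟩, ?_⟩
          · right
            rw [hD1m]
            rintro ⟨c1, c2⟩
            rw [← a3] at c1
            rw [← b3] at c2
            rcases (hV₀m _).1 hx with c3 | c3
            · exact ((a1 _).1 c3).2 c1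
            · exact c2 c3
          · rw [hV₀m]
            by_cases c1 : y.1 ∈ O₂.1
            · exact Or.inr c1
            · left
              rw [a1]
              refine ⟨y.2, fun c2 => c1 ?_⟩
              rw [b2 ⟨y.1, hyT⟩, ← a2 ⟨y.1, hyT⟩]
              exact c2)
    obtain ⟨D₅, hD₅, hD₅m⟩ := h.exists_inter D''.2 hD1
    obtain ⟨k', hk'X, hk'D⟩ := h.dense D₅ hD₅ ⟨k, (hD₅m k).2 ⟨hkD'', (hD1m k).2 ⟨hkD, hkD'⟩⟩⟩
    obtain ⟨c1, c2⟩ := (hD₅m _).1 hk'D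
    rcases hDV ⟨k', hk'X⟩ (hVK _) with c3 | c3
    · exact c3 c1
    · exact c3 c2
  refine h.core3 P hP ?_ ?_ ?_
  · -- totality
    intro n hn
    obtain ⟨O, O', hO, hO', h1, h2⟩ := iso n hn
    obtain ⟨C, hC⟩ := exists_el_subset (a := X) (fun x => (e x).1 ∈ O) inferInstance
    obtain ⟨D, hD, hDC⟩ := h.core2 C (by
        intro k hk hkC
        obtain ⟨_, c1⟩ := (hC k).1 hkC
        obtain ⟨D, hD, c2, c3⟩ := trace_open ht hK hO ⟨k, hk⟩ c1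
        exact ⟨D, hD, c2, fun l hl hlD => (hC l).2 ⟨hl, c3 ⟨l, hl⟩ hlD⟩⟩)
      (by
        intro k hk hkC
        have c1 : (e ⟨k, hk⟩).1 ∈ O' := by
          rw [h1]
          exact ⟨(e ⟨k, hk⟩).2, fun c1 => hkC ((hC k).2 ⟨hk, c1⟩)⟩
        obtain ⟨D, hD, c2, c3⟩ := trace_open ht hK hO' ⟨k, hk⟩ c1
        refine ⟨D, hD, c2, fun l hl hlD hlC => ?_⟩
        exact ((h1 _).1 (c3 ⟨l, hl⟩ hlD)).2 ((hC l).1 hlC).2)
    refine ⟨D, hD, ⟨O, hO⟩, ⟨O', hO'⟩, h1, h2, fun x => ?_⟩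
    rw [← hDC x.1 x.2, hC]
    exact ⟨fun c => ⟨x.2, c⟩, fun c => c.2⟩
  · intro n D D' hn hD hD' h1 h2 k hk
    exact ⟨func n D D' hn hD hD' h1 h2 k hk, func n D' D hn hD' hD h2 h1 k hk⟩
  · -- injectivity
    rintro n m D D' hn hm hD hD' ⟨O₁, O₁', a1, a2, a3⟩ ⟨O₂, O₂', b1, b2, b3⟩ hDD'
    by_contra hnm
    obtain ⟨D1, hD1, hD1m⟩ := h.exists_diff hD hD'
    have hD1R : ∀ l : M, l ∈ R → l ∉ D1 := by
      intro l hl hlD
      obtain ⟨c1, c2⟩ := (hD1m l).1 hlD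
      exact c2 ((hDD' l hl).1 c1)
    obtain ⟨E, E', hE, hE', h1, h2⟩ := image_clopen h ht hK hD1 hD1R
    obtain ⟨r, hr⟩ := hfb.2 ⟨n, (hYm n).2 (Or.inl hn)⟩
    have hrK : r.1 ∈ K := ((hT r.1).1 r.2).1
    obtain ⟨Q₁, hQ₁, hQ₁m⟩ := open_inter hK.top O₁.2 hE'
    obtain ⟨Q, hQ, hQm⟩ := open_inter hK.top hQ₁ O₂'.2
    have hrQ : r.1 ∈ Q := by
      rw [hQm, hQ₁m]
      refine ⟨⟨(a2 r).2 (by rw [hr]), (h2 ⟨r.1, hrK⟩).2 ?_⟩, (b1 _).2 ⟨hrK, fun c1 => ?_⟩⟩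
      · rintro ⟨x, _, hx⟩
        exact ((hT r.1).1 r.2).2 x (congrArg Subtype.val hx)
      · have c2 := (b2 r).1 c1
        rw [hr] at c2
        exact hnm c2
    obtain ⟨x, hx⟩ := hK.dense Q hQ ⟨r.1, hrQ⟩
    obtain ⟨c1, c2⟩ := (hQm _).1 hx
    obtain ⟨c3, c4⟩ := (hQ₁m _).1 c1
    have c5 : x.1 ∈ D := (a3 x).1 c3
    have c6 : x.1 ∉ D' := fun c6 => ((b1 _).1 c2).2 ((b3 x).2 c6)
    exact (h2 (e x)).1 c4 ⟨x, (hD1m _).2 ⟨c5, c6⟩, rfl⟩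

end Pool.Agent.Lib.MP_5ed4ef_gt
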