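import Pool.Agent.Lib.MP_5ed4ef_gt.Defs

/-!
# The positive half inside a model of ZF

If `B` is a base with the properties `Good`, then the space `(X, t)` with base `{D ∩ X : D ∈ B}`
is a locally compact Hausdorff space with a denumerable remainder.
-/

set_option autoImplicit false

universe u

set_option synthInstance.maxSize 100000
set_option synthInstance.maxHeartbeats 400000

namespace Pool.Agent.Lib.MP_5ed4ef_gt

open Pool.Agent.MP_5db68c_lc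

variable {M : Type u} [Membership M M] [hM : IsZF M]

/-! ## Finite sets -/

theorem finite_of_rel {a : M} (n : N M) (R : El n.1 → El a → Prop)
    (hR : DP M (fun p : El n.1 × El a => R p.1 p.2)) (h1 : ∀ i, ∃ x, R i x)
    (h2 : ∀ i x y, R i x → R i y → x = y) (h3 : ∀ i j x, R i x → R j x → i = j)
    (h4 : ∀ x, ∃ i, R i x) : FiniteIn a := by
  choose f hf using h1
  refine ⟨om M, isOmega_om, n.1, n.2, f, FunIn.of_DF (DF.of_rel (M := M) hR hf h2), ?_, ?_⟩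
  · intro i j hij
    exact h3 i j (f i) (hf i) (by rw [hij]; exact hf j)
  · intro x
    obtain ⟨i, hi⟩ := h4 x
    exact ⟨i, h2 i _ _ (hf i) hi⟩

/-- first-order form of finiteness -/
def Fin1 (a : M) : Prop :=
  ∃ n : N M, ∃ g : M,
    (∀ i : M, i ∈ n.1 → ∃ x : M, x ∈ a ∧ (Coded.code (i, x) : M) ∈ g) ∧
    (∀ i x y : M, (Coded.code (i, x) : M) ∈ g → (Coded.code (i, y) : M) ∈ g → x = y) ∧
    (∀ i j x : M, (Coded.code (i, x) : M) ∈ g → (Coded.code (j, x) : M) ∈ g → i = j) ∧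
    (∀ x : M, x ∈ a → ∃ i : M, i ∈ n.1 ∧ (Coded.code (i, x) : M) ∈ g)

theorem finiteIn_iff {a : M} : FiniteIn a ↔ Fin1 a := by
  constructor
  · rintro ⟨w, hw, n, hn, f, ⟨g, hg⟩, hbij⟩
    have hwo : w = om M := hw.unique isOmega_om
    subst hwo
    have hg' : ∀ i x : M, (Coded.code (i, x) : M) ∈ g ↔ ∃ j : El n, i = j.1 ∧ x = (f j).1 := by
      intro i x
      rw [hg]
      constructor
      · rintro ⟨j, hj⟩
        have := (isPair_pr i x).inj hj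
        exact ⟨j, this⟩
      · rintro ⟨j, rfl, rfl⟩
        exact ⟨j, isPair_pr _ _⟩
    refine ⟨⟨n, hn⟩, g, ?_, ?_, ?_, ?_⟩
    · intro i hi
      exact ⟨(f ⟨i, hi⟩).1, (f ⟨i, hi⟩).2, (hg' _ _).2 ⟨⟨i, hi⟩, rfl, rfl⟩⟩
    · intro i x y hx hy
      obtain ⟨j, rfl, rfl⟩ := (hg' _ _).1 hx
      obtain ⟨j', h1, rfl⟩ := (hg' _ _).1 hy
      rw [Subtype.ext h1]
    · intro i j x hx hy
      obtain ⟨i', rfl, h1⟩ := (hg' _ _).1 hx
      obtain ⟨j', rfl, h2⟩ := (hg' _ _).1 hy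
      have := hbij.1 (Subtype.ext (h1.symm.trans h2))
      rw [this]
    · intro x hx
      obtain ⟨i, hi⟩ := hbij.2 ⟨x, hx⟩
      exact ⟨i.1, i.2, (hg' _ _).2 ⟨i, rfl, by rw [hi]⟩⟩
  · rintro ⟨n, g, h1, h2, h3, h4⟩
    refine finite_of_rel n (fun i x => (Coded.code (i.1, x.1) : M) ∈ g) inferInstance ?_ ?_ ?_ ?_
    · intro i
      obtain ⟨x, hx, h⟩ := h1 i.1 i.2
      exact ⟨⟨x, hx⟩, h⟩
    · intro i x y hx hy
      exact Subtype.ext (h2 _ _ _ hx hy)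
    · intro i j x hx hy
      exact Subtype.ext (h3 _ _ _ hx hy)
    · intro x
      obtain ⟨i, hi, h⟩ := h4 x.1 x.2
      exact ⟨⟨i, hi⟩, h⟩

theorem DP_finiteIn : DP M (fun a : M => FiniteIn a) := by
  refine DP.congr (P := fun a : M => Fin1 a) ?_ (fun a => finiteIn_iff)
  unfold Fin1
  infer_instance

instance DP_finiteIn' {Γ : Type u} [Coded M Γ] {f : Γ → M} [hf : DF M f] :
    DP M (fun γ => FiniteIn (f γ)) := DP.comp DP_finiteIn hf

theorem finite_empty {e : M} (he : ∀ x : M, x ∉ e) : FiniteIn e := by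
  refine finite_of_rel (N.zero : N M) (fun _ _ => True) inferInstance ?_ ?_ ?_ ?_
  · intro i; exact (N.not_mem_zero _ i.2).elim
  · intro i; exact (N.not_mem_zero _ i.2).elim
  · intro i; exact (N.not_mem_zero _ i.2).elim
  · intro x; exact (he _ x.2).elim

theorem not_mem_self (a : M) : a ∉ a := fun h => N.no_cycle a a h h

theorem finite_insert {s s' x : M} (hs : FiniteIn s) (h : ∀ y : M, y ∈ s' ↔ y ∈ s ∨ y = x) :
    FiniteIn s' := by
  by_cases hx : x ∈ s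
  · have : s' = s := ext' fun y => by
      rw [h]
      exact ⟨fun h' => h'.elim id (fun h' => h' ▸ hx), Or.inl⟩
    rw [this]; exact hs
  · obtain ⟨n, g, h1, h2, h3, h4⟩ := finiteIn_iff.1 hs
    refine finite_of_rel (N.succ n) (fun i y => (i.1 ∈ n.1 ∧ y.1 ∈ s ∧ (Coded.code (i.1, y.1) : M) ∈ g) ∨
      (i.1 = n.1 ∧ y.1 = x)) inferInstance ?_ ?_ ?_ ?_
    · intro i
      rcases (N.mem_succ n i.1).1 i.2 with hi | hi
      · obtain ⟨y, hy, hg⟩ := h1 i.1 hi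
        exact ⟨⟨y, (h y).2 (Or.inl hy)⟩, Or.inl ⟨hi, hy, hg⟩⟩
      · exact ⟨⟨x, (h x).2 (Or.inr rfl)⟩, Or.inr ⟨hi, rfl⟩⟩
    · rintro i y z (hy | hy) (hz | hz)
      · exact Subtype.ext (h2 _ _ _ hy.2.2 hz.2.2)
      · have := hy.1
        rw [hz.1] at this
        exact (not_mem_self _ this).elim
      · have := hz.1
        rw [hy.1] at this
        exact (not_mem_self _ this).elim
      · exact Subtype.ext (hy.2.trans hz.2.symm)
    · rintro i j y (hi | hi) (hj | hj)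
      · exact Subtype.ext (h3 _ _ _ hi.2.2 hj.2.2)
      · have := hi.2.1
        rw [hj.2] at this
        exact (hx this).elim
      · have := hj.2.1
        rw [hi.2] at this
        exact (hx this).elim
      · exact Subtype.ext (hi.1.trans hj.1.symm)
    · intro y
      rcases (h y.1).1 y.2 with hy | hy
      · obtain ⟨i, hi, hg⟩ := h4 y.1 hy
        exact ⟨⟨i, (N.mem_succ n i).2 (Or.inl hi)⟩, Or.inl ⟨hi, hy, hg⟩⟩
      · exact ⟨⟨n.1, (N.mem_succ n n.1).2 (Or.inr rfl)⟩, Or.inr ⟨rfl, hy⟩⟩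

theorem exists_union₂ (a b : M) : ∃ c : M, ∀ x : M, x ∈ c ↔ x ∈ a ∨ x ∈ b := by
  obtain ⟨p, hp⟩ := hM.zf.pairing a b
  obtain ⟨c, hc⟩ := hM.zf.union p
  refine ⟨c, fun x => ?_⟩
  rw [hc]
  constructor
  · rintro ⟨y, hy, hx⟩
    rcases (hp y).1 hy with rfl | rfl
    · exact Or.inl hx
    · exact Or.inr hx
  · rintro (h | h)
    · exact ⟨a, (hp a).2 (Or.inl rfl), h⟩
    · exact ⟨b, (hp b).2 (Or.inr rfl), h⟩

theorem exists_insert (a x : M) : ∃ c : M, ∀ y : M, y ∈ c ↔ y ∈ a ∨ y = x := by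
  obtain ⟨s, hs⟩ := exists_sing x
  obtain ⟨c, hc⟩ := exists_union₂ a s
  exact ⟨c, fun y => by rw [hc, hs]⟩

theorem finite_union {s s' s'' : M} (hs : FiniteIn s) (hs' : FiniteIn s')
    (h : ∀ y : M, y ∈ s'' ↔ y ∈ s ∨ y ∈ s') : FiniteIn s'' := by
  obtain ⟨n, g, h1, h2, h3, h4⟩ := finiteIn_iff.1 hs'
  have key : ∀ k : N M, ∃ t : M, (∀ y : M, y ∈ t ↔ y ∈ s ∨ (y ∈ s' ∧ ∃ i : M, i ∈ n.1 ∧ i ∈ k.1 ∧
      (Coded.code (i, y) : M) ∈ g)) ∧ FiniteIn t := by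
    refine N.induction (M := M) _ inferInstance ?_ ?_
    · refine ⟨s, fun y => ⟨Or.inl, ?_⟩, hs⟩
      rintro (hy | ⟨_, i, _, hi, _⟩)
      · exact hy
      · exact (N.not_mem_zero _ hi).elim
    · rintro k ⟨t, ht, hfin⟩
      by_cases hk : k.1 ∈ n.1
      · obtain ⟨x, hx, hg⟩ := h1 k.1 hk
        obtain ⟨t', ht'⟩ := exists_insert t x
        refine ⟨t', fun y => ?_, finite_insert hfin ht'⟩
        rw [ht', ht]
        constructor
        · rintro ((hy | ⟨hy, i, hi, hik, hgi⟩) | rfl)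
          · exact Or.inl hy
          · exact Or.inr ⟨hy, i, hi, (N.mem_succ _ _).2 (Or.inl hik), hgi⟩
          · exact Or.inr ⟨hx, k.1, hk, (N.mem_succ _ _).2 (Or.inr rfl), hg⟩
        · rintro (hy | ⟨hy, i, hi, hik, hgi⟩)
          · exact Or.inl (Or.inl hy)
          · rcases (N.mem_succ _ _).1 hik with hik | rfl
            · exact Or.inl (Or.inr ⟨hy, i, hi, hik, hgi⟩)
            · exact Or.inr (h2 _ _ _ hgi hg)
      · refine ⟨t, fun y => ?_, hfin⟩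
        rw [ht]
        constructor
        · rintro (hy | ⟨hy, i, hi, hik, hgi⟩)
          · exact Or.inl hy
          · exact Or.inr ⟨hy, i, hi, (N.mem_succ _ _).2 (Or.inl hik), hgi⟩
        · rintro (hy | ⟨hy, i, hi, hik, hgi⟩)
          · exact Or.inl hy
          · rcases (N.mem_succ _ _).1 hik with hik | rfl
            · exact Or.inr ⟨hy, i, hi, hik, hgi⟩
            · exact (hk hi).elim
  obtain ⟨t, ht, hfin⟩ := key n
  have : s'' = t := ext' fun y => by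
    rw [h, ht]
    constructor
    · rintro (hy | hy)
      · exact Or.inl hy
      · obtain ⟨i, hi, hg⟩ := h4 y hy
        exact Or.inr ⟨hy, i, hi, hi, hg⟩
    · rintro (hy | ⟨hy, _⟩)
      · exact Or.inl hy
      · exact Or.inr hy
  rw [this]; exact hfin

theorem finite_sing {x s : M} (h : ∀ y : M, y ∈ s ↔ y = x) : FiniteIn s := by
  obtain ⟨e, he⟩ := exists_el_subset (a := x) (fun _ => False) inferInstance
  have he' : ∀ y : M, y ∉ e := fun y hy => by obtain ⟨_, h⟩ := (he y).1 hy; exact h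
  refine finite_insert (finite_empty he') (x := x) fun y => ?_
  rw [h]
  exact ⟨Or.inr, fun h' => h'.elim (fun h'' => (he' _ h'').elim) id⟩

/-! ## Operations on the base -/

theorem exists_diff (a b : M) : ∃ c : M, ∀ x : M, x ∈ c ↔ x ∈ a ∧ x ∉ b := by
  obtain ⟨c, hc⟩ := exists_el_subset (a := a) (fun x => x.1 ∉ b) inferInstance
  exact ⟨c, fun x => by rw [hc]; exact ⟨fun ⟨h, h'⟩ => ⟨h, h'⟩, fun ⟨h, h'⟩ => ⟨h, h'⟩⟩⟩

theorem exists_inter (a b : M) : ∃ c : M, ∀ x : M, x ∈ c ↔ x ∈ a ∧ x ∈ b := by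
  obtain ⟨c, hc⟩ := exists_el_subset (a := a) (fun x => x.1 ∈ b) inferInstance
  exact ⟨c, fun x => by rw [hc]; exact ⟨fun ⟨h, h'⟩ => ⟨h, h'⟩, fun ⟨h, h'⟩ => ⟨h, h'⟩⟩⟩

variable {W X R B : M}

theorem Good.union (h : Good W X R B) {D D' D'' : M} (hD : D ∈ B) (hD' : D' ∈ B)
    (hu : ∀ k : M, k ∈ D'' ↔ k ∈ D ∨ k ∈ D') : D'' ∈ B := by
  obtain ⟨E, hE⟩ := exists_diff W D
  obtain ⟨E', hE'⟩ := exists_diff W D'
  obtain ⟨F, hF⟩ := exists_inter E E'
  have h1 := h.compl D E hD hE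
  have h2 := h.compl D' E' hD' hE'
  have h3 := h.inter E E' F h1 h2 hF
  refine h.compl F D'' h3 fun k => ?_
  rw [hu, hF, hE, hE']
  constructor
  · rintro (hk | hk)
    · exact ⟨h.sub D hD k hk, fun h' => h'.1.2 hk⟩
    · exact ⟨h.sub D' hD' k hk, fun h' => h'.2.2 hk⟩
  · rintro ⟨hk, hn⟩
    by_contra hc
    push Not at hc
    exact hn ⟨⟨hk, hc.1⟩, ⟨hk, hc.2⟩⟩

/-- compactness of the members of `B` -/
theorem Good.compact (h : Good W X R B) {D s : M} (hD : D ∈ B)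
    (hs : ∀ V : M, V ∈ s → ∀ k : M, k ∈ V → ∃ D' : M, D' ∈ B ∧ k ∈ D' ∧
      ∀ l : M, l ∈ D → l ∈ D' → l ∈ V) : IsCompactIn D s := by
  intro c hcs hcov
  obtain ⟨I, hI⟩ := exists_el_subset (a := B) (fun D' : El B => ∃ c' : M,
    (∀ U : M, U ∈ c' → U ∈ c) ∧ FiniteIn c' ∧
      ∀ k : M, k ∈ D → k ∈ D'.1 → ∃ U : M, U ∈ c' ∧ k ∈ U) inferInstance
  have hW : W ∈ I := by
    refine h.core1 I (fun E hE => ((hI E).1 hE).1) ?_ ?_ ?_
    · intro E E' hE hE' hsub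
      obtain ⟨_, c', h1, h2, h3⟩ := (hI E).1 hE
      exact (hI E').2 ⟨hE', c', h1, h2, fun k hk hkE => h3 k hk (hsub k hkE)⟩
    · intro E E' E'' hE hE' hu
      obtain ⟨hEB, c', h1, h2, h3⟩ := (hI E).1 hE
      obtain ⟨hEB', c'', h1', h2', h3'⟩ := (hI E').1 hE'
      obtain ⟨C, hC⟩ := exists_union₂ c' c''
      refine (hI E'').2 ⟨h.union hEB hEB' hu, C, ?_, finite_union h2 h2' hC, ?_⟩
      · intro U hU
        exact ((hC U).1 hU).elim (h1 U) (h1' U)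
      · intro k hk hkE
        rcases (hu k).1 hkE with hkE | hkE
        · obtain ⟨U, hU, hkU⟩ := h3 k hk hkE
          exact ⟨U, (hC U).2 (Or.inl hU), hkU⟩
        · obtain ⟨U, hU, hkU⟩ := h3' k hk hkE
          exact ⟨U, (hC U).2 (Or.inr hU), hkU⟩
    · intro k hk
      by_cases hkD : k ∈ D
      · obtain ⟨U, hU, hkU⟩ := hcov k hkD
        obtain ⟨D', hD', hkD', hsub⟩ := hs U (hcs U hU) k hkU
        obtain ⟨c', hc'⟩ := exists_sing U
        refine ⟨D', (hI D').2 ⟨hD', c', ?_, finite_sing hc', ?_⟩, hkD'⟩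
        · intro V hV
          rw [(hc' V).1 hV]
          exact hU
        · intro l hl hlD'
          exact ⟨U, (hc' U).2 rfl, hsub l hl hlD'⟩
      · obtain ⟨E, hE⟩ := exists_diff W D
        obtain ⟨e, he⟩ := exists_diff W W
        have he' : ∀ x : M, x ∉ e := fun x hx => ((he x).1 hx).2 ((he x).1 hx).1
        refine ⟨E, (hI E).2 ⟨h.compl D E hD hE, e, ?_, finite_empty he', ?_⟩, (hE k).2 ⟨hk, hkD⟩⟩
        · intro V hV; exact (he' V hV).elim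
        · intro l hl hlE
          exact (((hE l).1 hlE).2 hl).elim
  obtain ⟨_, c', h1, h2, h3⟩ := (hI W).1 hW
  exact ⟨c', h1, h2, fun x hx => h3 x hx (h.sub D hD x hx)⟩

/-! ## Subspaces -/

/-- the subspace topology exists -/
theorem exists_subspace {X t A : M} (hA : ∀ x : M, x ∈ A → x ∈ X) :
    ∃ s : M, IsSubspace X t A s := by
  obtain ⟨P, hP⟩ := hM.zf.powerset A
  obtain ⟨s, hs⟩ := exists_el_subset (a := P) (fun V : El P => ∃ U : M, U ∈ t ∧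
    ∀ x : M, x ∈ V.1 ↔ x ∈ U ∧ x ∈ A) inferInstance
  refine ⟨s, hA, fun V => ?_⟩
  rw [hs]
  constructor
  · rintro ⟨_, h⟩; exact h
  · rintro ⟨U, hU, h⟩
    exact ⟨(hP V).2 fun x hx => ((h x).1 hx).2, U, hU, h⟩

theorem IsSubspace.isTopology {X t A s : M} (ht : IsTopology X t) (h : IsSubspace X t A s) :
    IsTopology A s := by
  refine ⟨?_, ?_, ?_, ?_⟩
  · intro U hU x hx
    obtain ⟨U', _, h'⟩ := (h.topology U).1 hU
    exact ((h' x).1 hx).2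
  · exact (h.topology A).2 ⟨X, ht.whole, fun x => ⟨fun hx => ⟨h.subset x hx, hx⟩, fun hx => hx.2⟩⟩
  · intro U V Z hU hV hZ
    obtain ⟨U', hU', h1⟩ := (h.topology U).1 hU
    obtain ⟨V', hV', h2⟩ := (h.topology V).1 hV
    obtain ⟨Z', hZ'⟩ := exists_inter U' V'
    refine (h.topology Z).2 ⟨Z', ht.inter U' V' Z' hU' hV' hZ', fun x => ?_⟩
    rw [hZ, h1, h2, hZ']
    tauto
  · intro S Z hS hZ
    obtain ⟨S', hS'⟩ := exists_el_subset (a := t) (fun U : El t => ∃ V : M, V ∈ S ∧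
      ∀ x : M, x ∈ V ↔ x ∈ U.1 ∧ x ∈ A) inferInstance
    obtain ⟨Z', hZ'⟩ := hM.zf.union S'
    refine (h.topology Z).2 ⟨Z', ht.sUnion S' Z' (fun U hU => ((hS' U).1 hU).1) hZ', fun x => ?_⟩
    rw [hZ, hZ']
    constructor
    · rintro ⟨V, hV, hx⟩
      obtain ⟨U, hU, h1⟩ := (h.topology V).1 (hS V hV)
      exact ⟨⟨U, (hS' U).2 ⟨hU, V, hV, h1⟩, ((h1 x).1 hx).1⟩, ((h1 x).1 hx).2⟩
    · rintro ⟨⟨U, hU, hx⟩, hxA⟩
      obtain ⟨_, V, hV, h1⟩ := (hS' U).1 hU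
      exact ⟨V, hV, (h1 x).2 ⟨hx, hxA⟩⟩

/-! ## The main result -/

/-- the topology with base `{D ∩ X : D ∈ B}` -/
theorem Good.isTopology (h : Good W X R B) {Y t : M} (hY : ∀ k : M, k ∈ Y → k ∈ W)
    (ht : ∀ U : M, U ∈ t ↔ (∀ k : M, k ∈ U → k ∈ Y) ∧
      ∀ k : M, k ∈ U → ∃ D : M, D ∈ B ∧ k ∈ D ∧ ∀ l : M, l ∈ Y → l ∈ D → l ∈ U) :
    IsTopology Y t := by
  refine ⟨fun U hU => ((ht U).1 hU).1, ?_, ?_, ?_⟩
  · rw [ht]
    exact ⟨fun k hk => hk, fun k hk => ⟨W, h.whole, hY k hk, fun l hl _ => hl⟩⟩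
  · intro U V Z hU hV hZ
    rw [ht] at hU hV ⊢
    refine ⟨fun k hk => hU.1 k ((hZ k).1 hk).1, fun k hk => ?_⟩
    obtain ⟨D, hD, hkD, h1⟩ := hU.2 k ((hZ k).1 hk).1
    obtain ⟨D', hD', hkD', h2⟩ := hV.2 k ((hZ k).1 hk).2
    obtain ⟨E, hE⟩ := exists_inter D D'
    refine ⟨E, h.inter D D' E hD hD' hE, (hE k).2 ⟨hkD, hkD'⟩, fun l hl hlE => ?_⟩
    exact (hZ l).2 ⟨h1 l hl ((hE l).1 hlE).1, h2 l hl ((hE l).1 hlE).2⟩
  · intro S Z hS hZ
    rw [ht]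
    refine ⟨fun k hk => ?_, fun k hk => ?_⟩
    · obtain ⟨U, hU, hkU⟩ := (hZ k).1 hk
      exact ((ht U).1 (hS U hU)).1 k hkU
    · obtain ⟨U, hU, hkU⟩ := (hZ k).1 hk
      obtain ⟨D, hD, hkD, h1⟩ := ((ht U).1 (hS U hU)).2 k hkU
      exact ⟨D, hD, hkD, fun l hl hlD => (hZ l).2 ⟨U, hU, h1 l hl hlD⟩⟩

theorem Good.isHausdorff (h : Good W X R B) {Y t : M} (hY : ∀ k : M, k ∈ Y → k ∈ W)
    (ht : ∀ U : M, U ∈ t ↔ (∀ k : M, k ∈ U → k ∈ Y) ∧
      ∀ k : M, k ∈ U → ∃ D : M, D ∈ B ∧ k ∈ D ∧ ∀ l : M, l ∈ Y → l ∈ D → l ∈ U) :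
    IsHausdorffIn Y t := by
  intro x y hx hy hne
  obtain ⟨D, hD, hxD, hyD⟩ := h.sep x y (hY x hx) (hY y hy) hne
  obtain ⟨E, hE⟩ := exists_diff W D
  have hEB := h.compl D E hD hE
  obtain ⟨U, hU⟩ := exists_inter Y D
  obtain ⟨V, hV⟩ := exists_inter Y E
  refine ⟨U, V, ?_, ?_, (hU x).2 ⟨hx, hxD⟩, (hV y).2 ⟨hy, (hE y).2 ⟨hY y hy, hyD⟩⟩, ?_⟩
  · rw [ht]
    exact ⟨fun k hk => ((hU k).1 hk).1,
      fun k hk => ⟨D, hD, ((hU k).1 hk).2, fun l hl hlD => (hU l).2 ⟨hl, hlD⟩⟩⟩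
  · rw [ht]
    exact ⟨fun k hk => ((hV k).1 hk).1,
      fun k hk => ⟨E, hEB, ((hV k).1 hk).2, fun l hl hlD => (hV l).2 ⟨hl, hlD⟩⟩⟩
  · rintro z ⟨hz1, hz2⟩
    exact ((hE z).1 ((hV z).1 hz2).2).2 ((hU z).1 hz1).2

omit hM in
theorem Good.X_sub (h : Good W X R B) : ∀ k : M, k ∈ X → k ∈ W :=
  fun k hk => (h.mem_W k).2 (Or.inl hk)

/-- A space with a base which is `Good` is locally compact and Hausdorff and has a denumerable
remainder. -/
theorem pos_of_good {t : M} (h : Good W X R B)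
    (ht : ∀ U : M, U ∈ t ↔ (∀ k : M, k ∈ U → k ∈ X) ∧
      ∀ k : M, k ∈ U → ∃ D : M, D ∈ B ∧ k ∈ D ∧ ∀ l : M, l ∈ X → l ∈ D → l ∈ U) :
    IsTopology X t ∧ IsHausdorffIn X t ∧ IsLocallyCompactIn X t ∧ HasDenumerableRemainder X t := by
  refine ⟨h.isTopology h.X_sub ht, h.isHausdorff h.X_sub ht, ?_, ?_⟩
  · intro x U hU hx
    obtain ⟨D, hD, hxD, h1⟩ := ((ht U).1 hU).2 x hx
    obtain ⟨D', hD', hxD', h2⟩ := h.open_X x (((ht U).1 hU).1 x hx)
    obtain ⟨A, hA⟩ := exists_inter D D'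
    have hAB : A ∈ B := h.inter D D' A hD hD' hA
    have hAX : ∀ k : M, k ∈ A → k ∈ X := by
      intro k hk
      rcases (h.mem_W k).1 (h.sub A hAB k hk) with h' | h'
      · exact h'
      · exact (h2 k h' ((hA k).1 hk).2).elim
    obtain ⟨s, hs⟩ := exists_subspace (t := t) hAX
    refine ⟨A, A, s, ?_, (hA x).2 ⟨hxD, hxD'⟩, fun y hy => hy, ?_, hs, ?_⟩
    · rw [ht]
      exact ⟨hAX, fun k hk => ⟨A, hAB, hk, fun l _ hl => hl⟩⟩
    · intro y hy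
      exact h1 y (hAX y hy) ((hA y).1 hy).1
    · refine h.compact hAB ?_
      intro V hV k hk
      obtain ⟨U', hU', h3⟩ := (hs.topology V).1 hV
      obtain ⟨E, hE, hkE, h4⟩ := ((ht U').1 hU').2 k ((h3 k).1 hk).1
      exact ⟨E, hE, hkE, fun l hl hlE => (h3 l).2 ⟨h4 l (hAX l hl) hlE, hl⟩⟩
  · obtain ⟨P, hP⟩ := hM.zf.powerset W
    obtain ⟨τ, hτ0⟩ := exists_el_subset (a := P) (fun U : El P => ∀ k : M, k ∈ U.1 →
      ∃ D : M, D ∈ B ∧ k ∈ D ∧ ∀ l : M, l ∈ W → l ∈ D → l ∈ U.1) inferInstance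
    have hτ : ∀ U : M, U ∈ τ ↔ (∀ k : M, k ∈ U → k ∈ W) ∧
      ∀ k : M, k ∈ U → ∃ D : M, D ∈ B ∧ k ∈ D ∧ ∀ l : M, l ∈ W → l ∈ D → l ∈ U := by
      intro U
      rw [hτ0]
      constructor
      · rintro ⟨h1, h2⟩
        exact ⟨(hP U).1 h1, h2⟩
      · rintro ⟨h1, h2⟩
        exact ⟨(hP U).2 h1, h2⟩
    have hRW : ∀ k : M, k ∈ R → k ∈ W := fun k hk => (h.mem_W k).2 (Or.inr hk)
    have hWtop : IsTopology W τ := h.isTopology (fun k hk => hk) hτ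
    obtain ⟨σ, hσ⟩ := exists_subspace (t := τ) hRW
    refine ⟨R, σ, hσ.isTopology hWtop, ?_, W, h.omega, h.denum⟩
    refine ⟨W, τ, fun x => ⟨x.1, h.X_sub x.1 x.2⟩, ?_, R, σ, ?_, hσ, ?_⟩
    · refine ⟨hWtop, ?_, h.isHausdorff (fun k hk => hk) hτ, ?_, ?_, ?_, ?_⟩
      · refine h.compact h.whole ?_
        intro V hV k hk
        exact ((hτ V).1 hV).2 k hk
      · refine FunIn.of_DF (DF.of_rel (M := M) (R := fun (x : El X) (y : El W) => x.1 = y.1)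
          inferInstance (fun _ => rfl) ?_)
        intro x y z hy hz
        exact Subtype.ext (hy.symm.trans hz)
      · intro x y hxy
        have h1 : x.1 = y.1 := congrArg (fun z : El W => z.1) hxy
        exact Subtype.ext h1
      · intro U
        constructor
        · intro hU
          refine ⟨((ht U).1 hU).1, U, ?_, fun x => Iff.rfl⟩
          rw [hτ]
          refine ⟨fun k hk => h.X_sub k (((ht U).1 hU).1 k hk), fun k hk => ?_⟩
          obtain ⟨D, hD, hkD, h1⟩ := ((ht U).1 hU).2 k hk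
          obtain ⟨D', hD', hkD', h2⟩ := h.open_X k (((ht U).1 hU).1 k hk)
          obtain ⟨A, hA⟩ := exists_inter D D'
          refine ⟨A, h.inter D D' A hD hD' hA, (hA k).2 ⟨hkD, hkD'⟩, fun l hl hlA => ?_⟩
          rcases (h.mem_W l).1 hl with h' | h'
          · exact h1 l h' ((hA l).1 hlA).1
          · exact (h2 l h' ((hA l).1 hlA).2).elim
        · rintro ⟨hUX, V, hV, hUV⟩
          rw [ht]
          refine ⟨hUX, fun k hk => ?_⟩
          obtain ⟨D, hD, hkD, h1⟩ := ((hτ V).1 hV).2 k ((hUV ⟨k, hUX k hk⟩).1 hk)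
          exact ⟨D, hD, hkD, fun l hl hlD => (hUV ⟨l, hl⟩).2 (h1 l (h.X_sub l hl) hlD)⟩
      · rintro V hV ⟨y, hy⟩
        obtain ⟨D, hD, hyD, h1⟩ := ((hτ V).1 hV).2 y hy
        obtain ⟨k, hkX, hkD⟩ := h.dense D hD ⟨y, hyD⟩
        exact ⟨⟨k, hkX⟩, h1 k (h.X_sub k hkX) hkD⟩
    · intro y
      constructor
      · intro hy
        refine ⟨hRW y hy, fun x hxy => ?_⟩
        have : x.1 = y := hxy
        exact h.disj x.1 x.2 (this ▸ hy)
      · rintro ⟨hy, hn⟩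
        rcases (h.mem_W y).1 hy with h' | h'
        · exact (hn ⟨y, h'⟩ rfl).elim
        · exact h'
    · refine ⟨fun x => x, FunIn.of_DF (f := fun x : El R => x) DF.id, Function.bijective_id, ?_⟩
      intro U V hU hV
      have : U = V := ext' fun y => by
        rw [hV]
        constructor
        · intro hy; exact ⟨⟨y, hU y hy⟩, hy, rfl⟩
        · rintro ⟨x, hx, rfl⟩; exact hx
      rw [this]

end Pool.Agent.Lib.MP_5ed4ef_gt
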